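import Pool.Agent.Work.MP_972ac7_F.Interface

set_option autoImplicit false

/-! # Block BXF (MP_972ac7_al, THEOREM FQ): elements of O in a box (helper88) -/

open MeasureTheory IsDedekindDomain Polynomial
open scoped Quaternion ENNReal NNReal WithZero

noncomputable section

namespace Pool.FQ

open Pool.PQ Pool.PL Pool.TFD Pool.TC

theorem BXF_fin {α : Type} (Z : Set α) (B : ℝ)
    (h : ∀ T : Finset α, (∀ z ∈ T, z ∈ Z) → (T.card : ℝ) ≤ B) :
    Z.Finite ∧ (Nat.card Z : ℝ) ≤ B := by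
  have hfin : Z.Finite := by
    by_contra hinf
    obtain ⟨T, hT, hc⟩ := Set.Infinite.exists_subset_card_eq hinf (⌊B⌋₊ + 1)
    have h1 := h T (fun z hz => hT hz)
    rw [hc] at h1
    push_cast at h1
    have h2 := Nat.lt_floor_add_one B
    linarith
  refine ⟨hfin, ?_⟩
  rw [Nat.card_eq_card_finite_toFinset hfin]
  exact h _ (fun z hz => by simpa using hz)

theorem p_BXF (hS : Stmt_SCG) (hP : Stmt_PFB) : Stmt_BXF := by
  classical
  intro F _ P _ _ K _ A
  obtain ⟨p₀⟩ : Nonempty P := inferInstance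
  obtain ⟨C, hC1, hsep, _⟩ := hS (K p₀) (A.L p₀)
  rw [A.he p₀] at hsep
  simp only [pow_one] at hsep
  refine ⟨C, hC1, ?_⟩
  intro β Z hβ hZO hZβ
  obtain ⟨Q, hQ⟩ : ∃ Q, Q = ∏ p ∈ Finset.univ.erase p₀, β p := ⟨_, rfl⟩
  have hQ0 : 0 ≤ Q := by
    rw [hQ]
    exact Finset.prod_nonneg (fun p _ => hβ p)
  have hprod : ∏ p, β p = β p₀ * Q := by
    rw [hQ, Finset.mul_prod_erase _ _ (Finset.mem_univ p₀)]
  have hdist : ∀ z ∈ Z, ∀ z' ∈ Z, z ≠ z' → 1 ≤ ‖A.e p₀ (z - z')‖ * Q := by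
    intro z hz z' hz' hne
    have h1 := hP F P K A (z - z') (sub_mem (hZO z hz) (hZO z' hz')) (sub_ne_zero.2 hne)
    rw [← Finset.mul_prod_erase _ _ (Finset.mem_univ p₀)] at h1
    refine h1.trans ?_
    apply mul_le_mul_of_nonneg_left _ (norm_nonneg _)
    rw [hQ]
    exact Finset.prod_le_prod (fun p _ => norm_nonneg _) (fun p _ => hZβ z hz z' hz' p)
  have hV0 : 0 ≤ ∏ p, β p := Finset.prod_nonneg (fun p _ => hβ p)
  have hCV : 0 ≤ C * ∏ p, β p := mul_nonneg (by linarith) hV0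
  apply BXF_fin
  intro T hT
  rcases Nat.lt_or_ge 1 T.card with hcard | hcard
  · obtain ⟨z₀, hz₀, z₁, hz₁, hne⟩ := Finset.one_lt_card.1 hcard
    have h1 := hdist z₀ (hT z₀ hz₀) z₁ (hT z₁ hz₁) hne
    have h2 := hZβ z₀ (hT z₀ hz₀) z₁ (hT z₁ hz₁) p₀
    have h3 : ‖A.e p₀ (z₀ - z₁)‖ * Q ≤ β p₀ * Q := mul_le_mul_of_nonneg_right h2 hQ0
    have hQpos : 0 < Q := by
      rcases hQ0.lt_or_eq with h | h
      · exact h
      · rw [← h, mul_zero] at h1
        linarith
    have hs : 1 / Q ≤ β p₀ := by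
      rw [div_le_iff₀ hQpos]
      linarith
    have h4 := hsep (1 / Q) (β p₀) (A.e p₀ z₀) (T.image (A.e p₀)) (by positivity) hs
      (by
        intro w hw
        obtain ⟨z, hz, rfl⟩ := Finset.mem_image.1 hw
        rw [← map_sub]
        exact hZβ z (hT z hz) z₀ (hT z₀ hz₀) p₀)
      (by
        intro w hw w' hw' hww
        obtain ⟨z, hz, rfl⟩ := Finset.mem_image.1 hw
        obtain ⟨z', hz', rfl⟩ := Finset.mem_image.1 hw'
        have hzz : z ≠ z' := fun h => hww (by rw [h])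
        rw [← map_sub, div_le_iff₀ hQpos]
        exact hdist z (hT z hz) z' (hT z' hz') hzz)
    rw [Finset.card_image_of_injective _ (A.e p₀).injective] at h4
    have h5 : (T.card : ℝ) ≤ C * β p₀ * Q := by
      have h6 : (T.card : ℝ) = (T.card : ℝ) * (1 / Q) * Q := by
        field_simp
      rw [h6]
      exact mul_le_mul_of_nonneg_right h4 hQ0
    rw [hprod]
    have h7 : C * β p₀ * Q = C * (β p₀ * Q) := by ring
    linarith
  · have h1 : (T.card : ℝ) ≤ 1 := by exact_mod_cast hcard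
    linarith

end Pool.FQ
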