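import Pool.Agent.Work.MP_972ac7_F.Interface

set_option autoImplicit false

/-! # THEOREM FQ (MP_972ac7_al): block CEF (cells of a conic) -/

open MeasureTheory IsDedekindDomain Polynomial
open scoped Quaternion ENNReal NNReal WithZero

noncomputable section

namespace Pool.FQ

open Pool.PQ Pool.PL Pool.TFD Pool.TC

section CEF

variable {k : Type} [NormedField k]

/-- one of `y - y₀`, `y + y₀` is small -/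
theorem CEF_sign {c₁ c₂ : k} (hc₂ : c₂ ≠ 0) (h2 : (2 : k) ≠ 0) {μ : k} {ρ η : ℝ}
    (hη : 0 < η) (hρ : 0 < ρ) {x y x₀ y₀ : k}
    (h : c₁ * x ^ 2 + c₂ * y ^ 2 = μ) (h₀ : c₁ * x₀ ^ 2 + c₂ * y₀ ^ 2 = μ)
    (hx : ‖x‖ ≤ ρ) (hx₀ : ‖x₀‖ ≤ ρ) (hy : ρ < 8 * ‖y‖) (hxx : ‖x - x₀‖ ≤ η)
    (hs : ¬ ‖y - y₀‖ ≤ 32 * ‖c₁‖ / (‖c₂‖ * ‖(2 : k)‖) * η) :
    ‖y + y₀‖ ≤ 32 * ‖c₁‖ / (‖c₂‖ * ‖(2 : k)‖) * η := by
  by_contra ht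
  push Not at hs ht
  set B : ℝ := 32 * ‖c₁‖ / (‖c₂‖ * ‖(2 : k)‖) * η with hB
  have hc : 0 < ‖c₂‖ := norm_pos_iff.mpr hc₂
  have h2' : 0 < ‖(2 : k)‖ := norm_pos_iff.mpr h2
  have hB0 : 0 ≤ B := by positivity
  have hBe : ‖c₂‖ * (‖(2 : k)‖ * ρ / 16) * B = 2 * ‖c₁‖ * η * ρ := by
    rw [hB]
    field_simp
    ring
  have e1 : c₂ * ((y - y₀) * (y + y₀)) = -(c₁ * ((x - x₀) * (x + x₀))) := by
    linear_combination h - h₀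
  have e2 : ‖c₂‖ * (‖y - y₀‖ * ‖y + y₀‖) = ‖c₁‖ * (‖x - x₀‖ * ‖x + x₀‖) := by
    have := congrArg norm e1
    rwa [norm_neg, norm_mul, norm_mul, norm_mul, norm_mul] at this
  have e3 : ‖c₁‖ * (‖x - x₀‖ * ‖x + x₀‖) ≤ 2 * ‖c₁‖ * η * ρ := by
    have h1 : ‖x + x₀‖ ≤ 2 * ρ := by
      calc ‖x + x₀‖ ≤ ‖x‖ + ‖x₀‖ := norm_add_le _ _
        _ ≤ 2 * ρ := by linarith
    have h3 : ‖x - x₀‖ * ‖x + x₀‖ ≤ η * (2 * ρ) :=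
      mul_le_mul hxx h1 (norm_nonneg _) hη.le
    calc ‖c₁‖ * (‖x - x₀‖ * ‖x + x₀‖) ≤ ‖c₁‖ * (η * (2 * ρ)) :=
          mul_le_mul_of_nonneg_left h3 (norm_nonneg _)
      _ = 2 * ‖c₁‖ * η * ρ := by ring
  have e4 : ‖(2 : k)‖ * ‖y‖ ≤ ‖y - y₀‖ + ‖y + y₀‖ := by
    rw [← norm_mul]
    calc ‖2 * y‖ = ‖(y - y₀) + (y + y₀)‖ := by congr 1; ring
      _ ≤ _ := norm_add_le _ _
  have e5 : ‖(2 : k)‖ * ρ / 8 < ‖y - y₀‖ + ‖y + y₀‖ := by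
    have : ‖(2 : k)‖ * ρ < ‖(2 : k)‖ * (8 * ‖y‖) := mul_lt_mul_of_pos_left hy h2'
    linarith
  have e6 : ‖(2 : k)‖ * ρ / 16 * B < ‖y - y₀‖ * ‖y + y₀‖ := by
    have hp : 0 < ‖(2 : k)‖ * ρ / 16 := by positivity
    rcases le_total ‖y - y₀‖ ‖y + y₀‖ with h3 | h3
    · have h4 : ‖(2 : k)‖ * ρ / 16 ≤ ‖y + y₀‖ := by linarith
      calc ‖(2 : k)‖ * ρ / 16 * B ≤ ‖y + y₀‖ * B := mul_le_mul_of_nonneg_right h4 hB0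
        _ < ‖y + y₀‖ * ‖y - y₀‖ := mul_lt_mul_of_pos_left hs (by linarith)
        _ = ‖y - y₀‖ * ‖y + y₀‖ := mul_comm _ _
    · have h4 : ‖(2 : k)‖ * ρ / 16 ≤ ‖y - y₀‖ := by linarith
      calc ‖(2 : k)‖ * ρ / 16 * B ≤ ‖y - y₀‖ * B := mul_le_mul_of_nonneg_right h4 hB0
        _ < ‖y - y₀‖ * ‖y + y₀‖ := mul_lt_mul_of_pos_left ht (by linarith)
  have e7 : ‖c₂‖ * (‖(2 : k)‖ * ρ / 16 * B) < ‖c₂‖ * (‖y - y₀‖ * ‖y + y₀‖) :=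
    mul_lt_mul_of_pos_left e6 hc
  have e8 : ‖c₂‖ * (‖(2 : k)‖ * ρ / 16 * B) = ‖c₂‖ * (‖(2 : k)‖ * ρ / 16) * B := by ring
  linarith

/-- the cells of the part `‖x‖ ≤ ‖y‖` of a shell -/
theorem CEF_cell {c₁ c₂ : k} (hc₂ : c₂ ≠ 0) (h2 : (2 : k) ≠ 0) {C : ℝ}
    (hC : ∀ D r : ℝ, 0 < r → r ≤ D → ∃ (N : ℕ) (cl : k → Fin N), (N : ℝ) * r ≤ C * D ∧
      ∀ x y : k, ‖x‖ ≤ D → ‖y‖ ≤ D → cl x = cl y → ‖x - y‖ ≤ r)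
    (μ : k) {ρ η : ℝ} (hη : 0 < η) (hηρ : η ≤ ρ) :
    ∃ (M : ℕ) (g : k × k → Fin M), (M : ℝ) * η ≤ 2 * (C * ρ) ∧ ∀ p p' : k × k,
      c₁ * p.1 ^ 2 + c₂ * p.2 ^ 2 = μ → c₁ * p'.1 ^ 2 + c₂ * p'.2 ^ 2 = μ →
      ‖p.1‖ ≤ ‖p.2‖ → ‖p'.1‖ ≤ ‖p'.2‖ → ‖p.2‖ ≤ ρ → ‖p'.2‖ ≤ ρ → ρ < 8 * ‖p.2‖ →
      ρ < 8 * ‖p'.2‖ → g p = g p' →
      ‖p.1 - p'.1‖ ≤ η ∧ ‖p.2 - p'.2‖ ≤ 2 * (32 * ‖c₁‖ / (‖c₂‖ * ‖(2 : k)‖) * η) := by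
  classical
  have hρ : 0 < ρ := lt_of_lt_of_le hη hηρ
  obtain ⟨N, cl, hN, hcl⟩ := hC ρ η hη hηρ
  set B : ℝ := 32 * ‖c₁‖ / (‖c₂‖ * ‖(2 : k)‖) * η with hB
  let S : k × k → Prop := fun p => c₁ * p.1 ^ 2 + c₂ * p.2 ^ 2 = μ ∧ ‖p.1‖ ≤ ‖p.2‖ ∧
    ‖p.2‖ ≤ ρ ∧ ρ < 8 * ‖p.2‖
  have hrep : ∀ i : Fin N, ∃ q : k × k, (∃ p, S p ∧ cl p.1 = i) → S q ∧ cl q.1 = i := by
    intro i
    by_cases h : ∃ p, S p ∧ cl p.1 = i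
    · obtain ⟨p, hp⟩ := h
      exact ⟨p, fun _ => hp⟩
    · exact ⟨(0, 0), fun h' => absurd h' h⟩
  choose rep hrep using hrep
  let g0 : k × k → Fin N × Fin 2 := fun p =>
    (cl p.1, if ‖p.2 - (rep (cl p.1)).2‖ ≤ B then 0 else 1)
  refine ⟨N * 2, fun p => finProdFinEquiv (g0 p), ?_, ?_⟩
  · push_cast
    linarith
  intro p p' hp hp' hb hb' hy hy' hl hl' hg
  have hg' : g0 p = g0 p' := finProdFinEquiv.injective hg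
  have e1 : cl p.1 = cl p'.1 := congrArg Prod.fst hg'
  have e2 : (if ‖p.2 - (rep (cl p.1)).2‖ ≤ B then (0 : Fin 2) else 1) =
      if ‖p'.2 - (rep (cl p'.1)).2‖ ≤ B then 0 else 1 := congrArg Prod.snd hg'
  refine ⟨hcl _ _ (hb.trans hy) (hb'.trans hy') e1, ?_⟩
  rw [← e1] at e2
  obtain ⟨hr, hrc⟩ := hrep (cl p.1) ⟨p, ⟨hp, hb, hy, hl⟩, rfl⟩
  set q := rep (cl p.1) with hq
  have hsig : ∀ z : k × k, S z → cl z.1 = cl q.1 → ¬ ‖z.2 - q.2‖ ≤ B → ‖z.2 + q.2‖ ≤ B := by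
    intro z hz hzq hn
    exact CEF_sign hc₂ h2 hη hρ hz.1 hr.1 (hz.2.1.trans hz.2.2.1) (hr.2.1.trans hr.2.2.1)
      hz.2.2.2 (hcl _ _ (hz.2.1.trans hz.2.2.1) (hr.2.1.trans hr.2.2.1) hzq) hn
  have hpS : S p := ⟨hp, hb, hy, hl⟩
  have hpS' : S p' := ⟨hp', hb', hy', hl'⟩
  by_cases h3 : ‖p.2 - q.2‖ ≤ B
  · have h4 : ‖p'.2 - q.2‖ ≤ B := by
      by_contra h5
      rw [if_pos h3, if_neg h5] at e2
      exact absurd e2 (by decide)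
    calc ‖p.2 - p'.2‖ = ‖(p.2 - q.2) - (p'.2 - q.2)‖ := by congr 1; ring
      _ ≤ ‖p.2 - q.2‖ + ‖p'.2 - q.2‖ := norm_sub_le _ _
      _ ≤ 2 * B := by linarith
  · have h4 : ¬ ‖p'.2 - q.2‖ ≤ B := by
      intro h5
      rw [if_neg h3, if_pos h5] at e2
      exact absurd e2 (by decide)
    have h5 := hsig p hpS hrc.symm h3
    have h6 := hsig p' hpS' (e1.symm.trans hrc.symm) h4
    calc ‖p.2 - p'.2‖ = ‖(p.2 + q.2) - (p'.2 + q.2)‖ := by congr 1; ring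
      _ ≤ ‖p.2 + q.2‖ + ‖p'.2 + q.2‖ := norm_sub_le _ _
      _ ≤ 2 * B := by linarith

/-- the determinant -/
theorem CEF_det {c₁ c₂ μ : k} {p p' p'' : k × k}
    (h : c₁ * p.1 ^ 2 + c₂ * p.2 ^ 2 = μ) (h' : c₁ * p'.1 ^ 2 + c₂ * p'.2 ^ 2 = μ)
    (h'' : c₁ * p''.1 ^ 2 + c₂ * p''.2 ^ 2 = μ) {δ : ℝ} (hδ : 0 ≤ δ)
    (a1 : ‖p'.1 - p.1‖ ≤ δ) (a2 : ‖p'.2 - p.2‖ ≤ δ) (b1 : ‖p''.1 - p.1‖ ≤ δ)
    (b2 : ‖p''.2 - p.2‖ ≤ δ) :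
    ‖(2 : k)‖ * ‖c₂‖ * ‖p.2‖ *
      ‖(p'.1 - p.1) * (p''.2 - p.2) - (p''.1 - p.1) * (p'.2 - p.2)‖ ≤
      2 * (‖c₁‖ + ‖c₂‖) * δ ^ 3 := by
  have e1 : 2 * c₂ * p.2 * ((p'.1 - p.1) * (p''.2 - p.2) - (p''.1 - p.1) * (p'.2 - p.2)) =
      (p''.1 - p.1) * (c₁ * (p'.1 - p.1) ^ 2 + c₂ * (p'.2 - p.2) ^ 2) -
      (p'.1 - p.1) * (c₁ * (p''.1 - p.1) ^ 2 + c₂ * (p''.2 - p.2) ^ 2) := by
    linear_combination (p'.1 - p.1) * (h'' - h) - (p''.1 - p.1) * (h' - h)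
  have hq : ∀ u v : k, ‖u‖ ≤ δ → ‖v‖ ≤ δ → ‖c₁ * u ^ 2 + c₂ * v ^ 2‖ ≤
      (‖c₁‖ + ‖c₂‖) * δ ^ 2 := by
    intro u v hu hv
    calc ‖c₁ * u ^ 2 + c₂ * v ^ 2‖ ≤ ‖c₁ * u ^ 2‖ + ‖c₂ * v ^ 2‖ := norm_add_le _ _
      _ = ‖c₁‖ * ‖u‖ ^ 2 + ‖c₂‖ * ‖v‖ ^ 2 := by rw [norm_mul, norm_mul, norm_pow, norm_pow]
      _ ≤ ‖c₁‖ * δ ^ 2 + ‖c₂‖ * δ ^ 2 := by
          gcongr
      _ = (‖c₁‖ + ‖c₂‖) * δ ^ 2 := by ring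
  have hm : ∀ u v : k, ‖u‖ ≤ δ → ‖v‖ ≤ (‖c₁‖ + ‖c₂‖) * δ ^ 2 →
      ‖u * v‖ ≤ (‖c₁‖ + ‖c₂‖) * δ ^ 3 := by
    intro u v hu hv
    calc ‖u * v‖ = ‖u‖ * ‖v‖ := norm_mul _ _
      _ ≤ δ * ((‖c₁‖ + ‖c₂‖) * δ ^ 2) := mul_le_mul hu hv (norm_nonneg _) hδ
      _ = (‖c₁‖ + ‖c₂‖) * δ ^ 3 := by ring
  have e2 : ‖(p''.1 - p.1) * (c₁ * (p'.1 - p.1) ^ 2 + c₂ * (p'.2 - p.2) ^ 2) -
      (p'.1 - p.1) * (c₁ * (p''.1 - p.1) ^ 2 + c₂ * (p''.2 - p.2) ^ 2)‖ ≤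
      2 * (‖c₁‖ + ‖c₂‖) * δ ^ 3 := by
    calc _ ≤ ‖(p''.1 - p.1) * (c₁ * (p'.1 - p.1) ^ 2 + c₂ * (p'.2 - p.2) ^ 2)‖ +
        ‖(p'.1 - p.1) * (c₁ * (p''.1 - p.1) ^ 2 + c₂ * (p''.2 - p.2) ^ 2)‖ := norm_sub_le _ _
      _ ≤ (‖c₁‖ + ‖c₂‖) * δ ^ 3 + (‖c₁‖ + ‖c₂‖) * δ ^ 3 :=
          add_le_add (hm _ _ b1 (hq _ _ a1 a2)) (hm _ _ a1 (hq _ _ b1 b2))
      _ = 2 * (‖c₁‖ + ‖c₂‖) * δ ^ 3 := by ring
  rw [← e1] at e2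
  rwa [norm_mul, norm_mul, norm_mul] at e2

/-- the number `j₀` -/
theorem CEF_j0 {κ : ℝ} : ∃ j₀ : ℕ, κ < 4 ^ j₀ ∧ ∀ j < j₀, (4 : ℝ) ^ j ≤ κ := by
  classical
  have h : ∃ n : ℕ, κ < 4 ^ n := pow_unbounded_of_one_lt κ (by norm_num)
  refine ⟨Nat.find h, Nat.find_spec h, fun j hj => ?_⟩
  exact not_lt.mp (Nat.find_min h hj)

/-- the shells -/
theorem CEF_shell {β m : ℝ} {j₀ : ℕ} (hm : m ≤ β) (h : β < m * 8 ^ j₀) :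
    ∃ j : Fin j₀, m * 8 ^ (j : ℕ) ≤ β ∧ β < m * 8 ^ ((j : ℕ) + 1) := by
  classical
  have h1 : ∃ n : ℕ, β < m * 8 ^ n := ⟨j₀, h⟩
  have h2 : Nat.find h1 ≠ 0 := by
    intro h0
    have h3 := Nat.find_spec h1
    rw [h0, pow_zero, mul_one] at h3
    exact absurd hm (not_le.mpr h3)
  obtain ⟨i, hi⟩ := Nat.exists_eq_succ_of_ne_zero h2
  have h4 : i < Nat.find h1 := by rw [hi]; exact Nat.lt_succ_self i
  have h5 : Nat.find h1 ≤ j₀ := Nat.find_min' h1 h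
  refine ⟨⟨i, lt_of_lt_of_le h4 h5⟩, not_lt.mp (Nat.find_min h1 h4), ?_⟩
  have h6 := Nat.find_spec h1
  rw [hi] at h6
  exact h6

/-- the small points -/
theorem CEF_small {x y x' y' x'' y'' : k} {s : ℝ} (hx : ‖x‖ ≤ s) (hy : ‖y‖ ≤ s)
    (hx' : ‖x'‖ ≤ s) (hy' : ‖y'‖ ≤ s) (hx'' : ‖x''‖ ≤ s) (hy'' : ‖y''‖ ≤ s) :
    ‖(x' - x) * (y'' - y) - (x'' - x) * (y' - y)‖ ≤ 8 * s ^ 2 := by
  have hs : 0 ≤ s := (norm_nonneg _).trans hx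
  have d : ∀ u v : k, ‖u‖ ≤ s → ‖v‖ ≤ s → ‖u - v‖ ≤ 2 * s := fun u v hu hv =>
    (norm_sub_le _ _).trans (by linarith)
  have m : ∀ u v : k, ‖u‖ ≤ 2 * s → ‖v‖ ≤ 2 * s → ‖u * v‖ ≤ 4 * s ^ 2 := by
    intro u v hu hv
    rw [norm_mul]
    calc ‖u‖ * ‖v‖ ≤ (2 * s) * (2 * s) := mul_le_mul hu hv (norm_nonneg _) (by linarith)
      _ = 4 * s ^ 2 := by ring
  calc _ ≤ ‖(x' - x) * (y'' - y)‖ + ‖(x'' - x) * (y' - y)‖ := norm_sub_le _ _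
    _ ≤ 4 * s ^ 2 + 4 * s ^ 2 := add_le_add (m _ _ (d _ _ hx' hx) (d _ _ hy'' hy))
        (m _ _ (d _ _ hx'' hx) (d _ _ hy' hy))
    _ = 8 * s ^ 2 := by ring

/-- the estimate in a shell -/
theorem CEF_fin {a b y Δ β κ δ ρ η A E : ℝ} (ha : 0 < a) (hb : 0 < b)
    (h : a * b * y * Δ ≤ E * δ ^ 3) (hy : ρ < 8 * y) (hρ : 0 < ρ) (hΔ : 0 ≤ Δ) (hκ : 0 < κ)
    (hδ : δ = A * η) (hη : (η * κ) ^ 3 = ρ * β ^ 2) :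
    Δ * κ ^ 3 ≤ 8 * E * A ^ 3 / (a * b) * β ^ 2 := by
  have h1 : a * b * ρ * Δ ≤ 8 * (E * δ ^ 3) := by
    have h2 : a * b * Δ * ρ ≤ a * b * Δ * (8 * y) :=
      mul_le_mul_of_nonneg_left hy.le (by positivity)
    nlinarith [h2, h]
  have h3 : (a * b * (Δ * κ ^ 3)) * ρ ≤ (8 * E * A ^ 3 * β ^ 2) * ρ := by
    calc (a * b * (Δ * κ ^ 3)) * ρ = (a * b * ρ * Δ) * κ ^ 3 := by ring
      _ ≤ (8 * (E * δ ^ 3)) * κ ^ 3 := mul_le_mul_of_nonneg_right h1 (by positivity)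
      _ = 8 * E * A ^ 3 * (η * κ) ^ 3 := by rw [hδ]; ring
      _ = (8 * E * A ^ 3 * β ^ 2) * ρ := by rw [hη]; ring
  have h4 : a * b * (Δ * κ ^ 3) ≤ 8 * E * A ^ 3 * β ^ 2 := le_of_mul_le_mul_right h3 hρ
  have h5 : 0 < a * b := mul_pos ha hb
  rw [div_mul_eq_mul_div, le_div_iff₀ h5]
  linarith

theorem CEF_geom (n : ℕ) : ∑ j : Fin n, ((1 : ℝ) / 4) ^ (j : ℕ) ≤ 4 / 3 := by
  rw [Fin.sum_univ_eq_sum_range (fun i => ((1 : ℝ) / 4) ^ i) n]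
  have h : ∑ i ∈ Finset.range n, ((1 : ℝ) / 4) ^ i ≤ ∑' i : ℕ, ((1 : ℝ) / 4) ^ i :=
    Summable.sum_le_tsum _ (fun i _ => by positivity)
      (summable_geometric_of_lt_one (by norm_num) (by norm_num))
  rw [tsum_geometric_of_lt_one (by norm_num) (by norm_num)] at h
  norm_num at h ⊢
  exact h

end CEF

theorem p_CEF (hS : Stmt_SCG) : Stmt_CEF := by
  classical
  intro k _ L he c₁ c₂ hc₁ hc₂
  obtain ⟨C, hC1, -, hC⟩ := hS k L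
  simp only [he, pow_one] at hC
  have h2 : (2 : k) ≠ 0 := L.two_ne
  have n2 : 0 < ‖(2 : k)‖ := norm_pos_iff.mpr h2
  have n1 : 0 < ‖c₁‖ := norm_pos_iff.mpr hc₁
  have n3 : 0 < ‖c₂‖ := norm_pos_iff.mpr hc₂
  obtain ⟨A, hA1, hAa, hAb⟩ : ∃ A : ℝ, 1 ≤ A ∧ 2 * (32 * ‖c₁‖ / (‖c₂‖ * ‖(2 : k)‖)) ≤ A ∧
      2 * (32 * ‖c₂‖ / (‖c₁‖ * ‖(2 : k)‖)) ≤ A := by
    refine ⟨1 + 2 * (32 * ‖c₁‖ / (‖c₂‖ * ‖(2 : k)‖)) + 2 * (32 * ‖c₂‖ / (‖c₁‖ * ‖(2 : k)‖)),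
      ?_, ?_, ?_⟩ <;>
    · have : 0 ≤ 2 * (32 * ‖c₁‖ / (‖c₂‖ * ‖(2 : k)‖)) := by positivity
      have : 0 ≤ 2 * (32 * ‖c₂‖ / (‖c₁‖ * ‖(2 : k)‖)) := by positivity
      linarith
  set E : ℝ := 2 * (‖c₁‖ + ‖c₂‖) with hE
  have hE0 : 0 ≤ E := by positivity
  set K₁ : ℝ := 8 * E * A ^ 3 / (‖(2 : k)‖ * ‖c₂‖) with hK₁
  set K₂ : ℝ := 8 * E * A ^ 3 / (‖(2 : k)‖ * ‖c₁‖) with hK₂
  have hK₁0 : 0 ≤ K₁ := by positivity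
  have hK₂0 : 0 ≤ K₂ := by positivity
  refine ⟨8 + K₁ + K₂ + (1 + 6 * C), by linarith, fun μ β κ hβ hκ => ?_⟩
  have hκ0 : 0 < κ := by linarith
  obtain ⟨j₀, hj₀, hj₀'⟩ := CEF_j0 (κ := κ)
  have hρp : ∀ j : ℕ, 0 < β / 8 ^ j := fun j => by positivity
  have hηp : ∀ j : ℕ, 0 < β / (2 ^ j * κ) := fun j => by positivity
  have hηρ : ∀ j : Fin j₀, β / (2 ^ (j : ℕ) * κ) ≤ β / 8 ^ (j : ℕ) := by
    intro j
    have h1 := hj₀' j j.2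
    apply div_le_div_of_nonneg_left hβ.le (by positivity)
    calc (8 : ℝ) ^ (j : ℕ) = 2 ^ (j : ℕ) * 4 ^ (j : ℕ) := by rw [← mul_pow]; norm_num
      _ ≤ 2 ^ (j : ℕ) * κ := mul_le_mul_of_nonneg_left h1 (by positivity)
  choose M₁ g₁ hM₁ hg₁ using fun j : Fin j₀ =>
    CEF_cell (c₁ := c₁) hc₂ h2 hC μ (hηp j) (hηρ j)
  choose M₂ g₂ hM₂ hg₂ using fun j : Fin j₀ =>
    CEF_cell (c₁ := c₂) hc₁ h2 hC μ (hηp j) (hηρ j)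
  let Sh : Fin j₀ → k × k → Prop := fun j p =>
    max ‖p.1‖ ‖p.2‖ * 8 ^ (j : ℕ) ≤ β ∧ β < max ‖p.1‖ ‖p.2‖ * 8 ^ ((j : ℕ) + 1)
  let G : (j : Fin j₀) → k × k → Σ j : Fin j₀, (Fin (M₁ j) ⊕ Fin (M₂ j)) := fun j p =>
    ⟨j, if ‖p.1‖ ≤ ‖p.2‖ then Sum.inl (g₁ j p) else Sum.inr (g₂ j (p.2, p.1))⟩
  let f : k × k → Option (Σ j : Fin j₀, (Fin (M₁ j) ⊕ Fin (M₂ j))) := fun p =>
    if h : ∃ j, Sh j p then some (G h.choose p) else none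
  have hG : ∀ j j' p q, G j p = G j' q → j = j' ∧
      ((‖p.1‖ ≤ ‖p.2‖ ∧ ‖q.1‖ ≤ ‖q.2‖ ∧ g₁ j p = g₁ j q) ∨
       (¬ ‖p.1‖ ≤ ‖p.2‖ ∧ ¬ ‖q.1‖ ≤ ‖q.2‖ ∧ g₂ j (p.2, p.1) = g₂ j (q.2, q.1))) := by
    intro j j' p q h
    have h1 : j = j' := congrArg Sigma.fst h
    subst h1
    refine ⟨rfl, ?_⟩
    have h3 : (if ‖p.1‖ ≤ ‖p.2‖ then Sum.inl (g₁ j p) else Sum.inr (g₂ j (p.2, p.1)) :
        Fin (M₁ j) ⊕ Fin (M₂ j)) =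
        if ‖q.1‖ ≤ ‖q.2‖ then Sum.inl (g₁ j q) else Sum.inr (g₂ j (q.2, q.1)) :=
      eq_of_heq (Sigma.mk.inj h).2
    by_cases h4 : ‖p.1‖ ≤ ‖p.2‖ <;> by_cases h5 : ‖q.1‖ ≤ ‖q.2‖
    · rw [if_pos h4, if_pos h5] at h3
      exact Or.inl ⟨h4, h5, Sum.inl.inj h3⟩
    · rw [if_pos h4, if_neg h5] at h3
      exact absurd h3 (by simp)
    · rw [if_neg h4, if_pos h5] at h3
      exact absurd h3 (by simp)
    · rw [if_neg h4, if_neg h5] at h3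
      exact Or.inr ⟨h4, h5, Sum.inr.inj h3⟩
  refine ⟨Fintype.card (Option (Σ j : Fin j₀, (Fin (M₁ j) ⊕ Fin (M₂ j)))),
    fun p => Fintype.equivFin _ (f p), ?_, ?_⟩
  · rw [Fintype.card_option, Fintype.card_sigma]
    simp only [Fintype.card_sum, Fintype.card_fin]
    push_cast
    have h1 : ∀ j : Fin j₀, ((M₁ j : ℝ) + (M₂ j : ℝ)) ≤ 4 * C * κ * (1 / 4) ^ (j : ℕ) := by
      intro j
      have e : ∀ M : ℝ, M * (β / (2 ^ (j : ℕ) * κ)) ≤ 2 * (C * (β / 8 ^ (j : ℕ))) →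
          M ≤ 2 * C * κ * (1 / 4) ^ (j : ℕ) := by
        intro M hM
        have h3 : 2 * (C * (β / 8 ^ (j : ℕ))) =
            (2 * C * κ * (1 / 4) ^ (j : ℕ)) * (β / (2 ^ (j : ℕ) * κ)) := by
          rw [show (8 : ℝ) = 2 * 4 by norm_num, mul_pow, one_div, inv_pow]
          field_simp
        rw [h3] at hM
        exact le_of_mul_le_mul_right hM (hηp j)
      have h4 := e _ (hM₁ j)
      have h5 := e _ (hM₂ j)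
      linarith
    have h6 : ∑ j : Fin j₀, ((M₁ j : ℝ) + (M₂ j : ℝ)) ≤ 4 * C * κ * (4 / 3) := by
      calc _ ≤ ∑ j : Fin j₀, 4 * C * κ * (1 / 4) ^ (j : ℕ) := Finset.sum_le_sum fun j _ => h1 j
        _ = 4 * C * κ * ∑ j : Fin j₀, ((1 : ℝ) / 4) ^ (j : ℕ) := by rw [Finset.mul_sum]
        _ ≤ 4 * C * κ * (4 / 3) := mul_le_mul_of_nonneg_left (CEF_geom j₀) (by positivity)
    have h7 : 0 ≤ C * κ := by positivity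
    have h8 : 0 ≤ (8 + K₁ + K₂) * κ := by positivity
    nlinarith [h6, h7, h8, hκ]
  intro p p' p'' hp hp' hp'' b1 b2 b1' b2' b1'' b2'' e1 e2
  have e1' : f p = f p' := (Fintype.equivFin _).injective e1
  have e2' : f p = f p'' := (Fintype.equivFin _).injective e2
  have hβ2 : 0 ≤ β ^ 2 := by positivity
  by_cases h : ∃ j, Sh j p
  · obtain ⟨j, hj⟩ : ∃ j, Sh j p ∧ f p = some (G j p) := ⟨h.choose, h.choose_spec, dif_pos h⟩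
    have key : ∀ q, f p = f q → Sh j q ∧ ((‖p.1‖ ≤ ‖p.2‖ ∧ ‖q.1‖ ≤ ‖q.2‖ ∧ g₁ j p = g₁ j q) ∨
       (¬ ‖p.1‖ ≤ ‖p.2‖ ∧ ¬ ‖q.1‖ ≤ ‖q.2‖ ∧ g₂ j (p.2, p.1) = g₂ j (q.2, q.1))) := by
      intro q hq
      by_cases h' : ∃ j, Sh j q
      · obtain ⟨j', hj', hj''⟩ : ∃ j, Sh j q ∧ f q = some (G j q) :=
          ⟨h'.choose, h'.choose_spec, dif_pos h'⟩
        rw [hj.2, hj''] at hq
        obtain ⟨h3, h4⟩ := hG _ _ _ _ (Option.some.inj hq)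
        subst h3
        exact ⟨hj', h4⟩
      · have h3 : f q = none := dif_neg h'
        rw [hj.2, h3] at hq
        exact absurd hq (by simp)
    obtain ⟨s', k'⟩ := key p' e1'
    obtain ⟨s'', k''⟩ := key p'' e2'
    have s := hj.1
    have sh1 : ∀ q : k × k, Sh j q → max ‖q.1‖ ‖q.2‖ ≤ β / 8 ^ (j : ℕ) := by
      intro q hq
      rw [le_div_iff₀ (by positivity)]
      exact hq.1
    have sh2 : ∀ q : k × k, Sh j q → β / 8 ^ (j : ℕ) < 8 * max ‖q.1‖ ‖q.2‖ := by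
      intro q hq
      rw [div_lt_iff₀ (by positivity)]
      calc β < max ‖q.1‖ ‖q.2‖ * 8 ^ ((j : ℕ) + 1) := hq.2
        _ = 8 * max ‖q.1‖ ‖q.2‖ * 8 ^ (j : ℕ) := by ring
    have hηe : (β / (2 ^ (j : ℕ) * κ) * κ) ^ 3 = β / 8 ^ (j : ℕ) * β ^ 2 := by
      have : (8 : ℝ) ^ (j : ℕ) = (2 ^ (j : ℕ)) ^ 3 := by
        rw [← pow_mul, mul_comm, pow_mul]; norm_num
      rw [this]
      field_simp
    set η : ℝ := β / (2 ^ (j : ℕ) * κ) with hηdef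
    have hη0 : 0 < η := hηp j
    have hA0 : 0 ≤ A := by linarith
    have hηA : η ≤ A * η := by nlinarith
    have hδ0 : 0 ≤ A * η := by positivity
    have ka : 2 * (32 * ‖c₁‖ / (‖c₂‖ * ‖(2 : k)‖) * η) ≤ A * η := by
      calc _ = 2 * (32 * ‖c₁‖ / (‖c₂‖ * ‖(2 : k)‖)) * η := by ring
        _ ≤ A * η := mul_le_mul_of_nonneg_right hAa hη0.le
    have kb : 2 * (32 * ‖c₂‖ / (‖c₁‖ * ‖(2 : k)‖) * η) ≤ A * η := by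
      calc _ = 2 * (32 * ‖c₂‖ / (‖c₁‖ * ‖(2 : k)‖)) * η := by ring
        _ ≤ A * η := mul_le_mul_of_nonneg_right hAb hη0.le
    by_cases hb : ‖p.1‖ ≤ ‖p.2‖
    · rcases k' with ⟨-, hb', hg'⟩ | ⟨hn, -⟩
      swap; · exact absurd hb hn
      rcases k'' with ⟨-, hb'', hg''⟩ | ⟨hn, -⟩
      swap; · exact absurd hb hn
      have m := max_eq_right hb
      have m' := max_eq_right hb'
      have m'' := max_eq_right hb''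
      have t := sh1 p s; have t' := sh1 p' s'; have t'' := sh1 p'' s''
      have v := sh2 p s; have v' := sh2 p' s'; have v'' := sh2 p'' s''
      rw [m] at t v
      rw [m'] at t' v'
      rw [m''] at t'' v''
      obtain ⟨w1, w2⟩ := hg₁ j p p' hp hp' hb hb' t t' v v' hg'
      obtain ⟨z1, z2⟩ := hg₁ j p p'' hp hp'' hb hb'' t t'' v v'' hg''
      rw [norm_sub_rev] at w1 w2 z1 z2
      have hd := CEF_det hp hp' hp'' hδ0 (w1.trans hηA) (w2.trans ka) (z1.trans hηA)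
        (z2.trans ka)
      have hf := CEF_fin n2 n3 hd v (hρp j) (norm_nonneg _) hκ0 rfl hηe
      calc _ ≤ K₁ * β ^ 2 := hf
        _ ≤ _ := mul_le_mul_of_nonneg_right (by linarith) hβ2
    · rcases k' with ⟨hn, -⟩ | ⟨-, hb', hg'⟩
      · exact absurd hn hb
      rcases k'' with ⟨hn, -⟩ | ⟨-, hb'', hg''⟩
      · exact absurd hn hb
      have c := (not_le.mp hb).le
      have c' := (not_le.mp hb').le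
      have c'' := (not_le.mp hb'').le
      have m := max_eq_left c
      have m' := max_eq_left c'
      have m'' := max_eq_left c''
      have t := sh1 p s; have t' := sh1 p' s'; have t'' := sh1 p'' s''
      have v := sh2 p s; have v' := sh2 p' s'; have v'' := sh2 p'' s''
      rw [m] at t v
      rw [m'] at t' v'
      rw [m''] at t'' v''
      have q : c₂ * ((p.2, p.1) : k × k).1 ^ 2 + c₁ * ((p.2, p.1) : k × k).2 ^ 2 = μ := by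
        rw [← hp]; ring
      have q' : c₂ * ((p'.2, p'.1) : k × k).1 ^ 2 + c₁ * ((p'.2, p'.1) : k × k).2 ^ 2 = μ := by
        rw [← hp']; ring
      have q'' : c₂ * ((p''.2, p''.1) : k × k).1 ^ 2 +
          c₁ * ((p''.2, p''.1) : k × k).2 ^ 2 = μ := by
        rw [← hp'']; ring
      obtain ⟨w1, w2⟩ := hg₂ j (p.2, p.1) (p'.2, p'.1) q q' c c' t t' v v' hg'
      obtain ⟨z1, z2⟩ := hg₂ j (p.2, p.1) (p''.2, p''.1) q q'' c c'' t t'' v v'' hg''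
      rw [norm_sub_rev] at w1 w2 z1 z2
      have hd := CEF_det q q' q'' hδ0 (w1.trans hηA) (w2.trans kb) (z1.trans hηA)
        (z2.trans kb)
      have hEs : 2 * (‖c₂‖ + ‖c₁‖) = E := by rw [hE]; ring
      rw [hEs] at hd
      have hf := CEF_fin n2 n1 hd v (hρp j) (norm_nonneg _) hκ0 rfl hηe
      have hn : ‖(p'.1 - p.1) * (p''.2 - p.2) - (p''.1 - p.1) * (p'.2 - p.2)‖ =
          ‖(p'.2 - p.2) * (p''.1 - p.1) - (p''.2 - p.2) * (p'.1 - p.1)‖ := by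
        rw [← norm_neg]
        congr 1
        ring
      rw [hn]
      calc _ ≤ K₂ * β ^ 2 := hf
        _ ≤ _ := mul_le_mul_of_nonneg_right (by linarith) hβ2
  · have h0 : f p = none := dif_neg h
    have key : ∀ q : k × k, ‖q.1‖ ≤ β → ‖q.2‖ ≤ β → f p = f q →
        ‖q.1‖ ≤ β / 8 ^ j₀ ∧ ‖q.2‖ ≤ β / 8 ^ j₀ := by
      intro q hq1 hq2 hq
      have h' : ¬ ∃ j, Sh j q := by
        intro h'
        have h3 : f q = some (G h'.choose q) := dif_pos h'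
        rw [h0, h3] at hq
        exact absurd hq (by simp)
      have h3 : max ‖q.1‖ ‖q.2‖ * 8 ^ j₀ ≤ β := by
        by_contra h4
        push Not at h4
        exact h' (CEF_shell (max_le hq1 hq2) h4)
      have h4 : max ‖q.1‖ ‖q.2‖ ≤ β / 8 ^ j₀ := by
        rw [le_div_iff₀ (by positivity)]
        exact h3
      exact ⟨(le_max_left _ _).trans h4, (le_max_right _ _).trans h4⟩
    obtain ⟨x1, x2⟩ := key p b1 b2 rfl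
    obtain ⟨x1', x2'⟩ := key p' b1' b2' e1'
    obtain ⟨x1'', x2''⟩ := key p'' b1'' b2'' e2'
    have hs := CEF_small x1 x2 x1' x2' x1'' x2''
    have hk3 : κ ^ 3 ≤ (8 ^ j₀) ^ 2 := by
      calc κ ^ 3 ≤ (4 ^ j₀) ^ 3 := pow_le_pow_left₀ hκ0.le hj₀.le 3
        _ = (8 ^ j₀) ^ 2 := by
            rw [← pow_mul, ← pow_mul, mul_comm j₀ 3, mul_comm j₀ 2, pow_mul, pow_mul]
            norm_num
    calc ‖(p'.1 - p.1) * (p''.2 - p.2) - (p''.1 - p.1) * (p'.2 - p.2)‖ * κ ^ 3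
        ≤ (8 * (β / 8 ^ j₀) ^ 2) * (8 ^ j₀) ^ 2 :=
          mul_le_mul hs hk3 (by positivity) (by positivity)
      _ = 8 * β ^ 2 := by field_simp
      _ ≤ _ := mul_le_mul_of_nonneg_right (by linarith) hβ2

end Pool.FQ
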