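import Pool.Agent.Work.MP_972ac7_F.Interface
import Pool.Agent.Work.MP_972ac7_Q.B_CKG

set_option autoImplicit false

/-! # THEOREM FQ (MP_972ac7_al): block CKF, cocompactness -/

open MeasureTheory IsDedekindDomain Polynomial
open scoped Quaternion ENNReal NNReal WithZero

noncomputable section

namespace Pool.FQ

open Pool.PQ Pool.PL Pool.TFD Pool.TC

section coords

variable {F : Type} [Field F] {O : Subring F} {a b : F}

theorem CKF_mul (ha : a ∈ O) (hb : b ∈ O) {z w : ℍ[F, a, b]} (hz : ∀ j, co4 z j ∈ O)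
    (hw : ∀ j, co4 w j ∈ O) : ∀ j, co4 (z * w) j ∈ O := by
  intro j
  have z0 := hz 0
  have z1 := hz 1
  have z2 := hz 2
  have z3 := hz 3
  have w0 := hw 0
  have w1 := hw 1
  have w2 := hw 2
  have w3 := hw 3
  simp only [co4, Matrix.cons_val_zero, Matrix.cons_val_one, Matrix.cons_val] at z0 z1 z2 z3 w0 w1 w2 w3
  have h0 : (0 : F) ∈ O := zero_mem _
  fin_cases j
  · change (z * w).re ∈ O
    rw [QuaternionAlgebra.re_mul]
    exact sub_mem (add_mem (add_mem (add_mem (mul_mem z0 w0) (mul_mem (mul_mem ha z1) w1))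
      (mul_mem (mul_mem hb z2) w2)) (mul_mem (mul_mem (mul_mem h0 hb) z2) w3))
      (mul_mem (mul_mem (mul_mem ha hb) z3) w3)
  · change (z * w).imI ∈ O
    rw [QuaternionAlgebra.imI_mul]
    exact add_mem (sub_mem (add_mem (add_mem (mul_mem z0 w1) (mul_mem z1 w0))
      (mul_mem (mul_mem h0 z1) w1)) (mul_mem (mul_mem hb z2) w3)) (mul_mem (mul_mem hb z3) w2)
  · change (z * w).imJ ∈ O
    rw [QuaternionAlgebra.imJ_mul]
    exact sub_mem (add_mem (add_mem (add_mem (mul_mem z0 w2) (mul_mem (mul_mem ha z1) w3))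
      (mul_mem z2 w0)) (mul_mem (mul_mem h0 z2) w1)) (mul_mem (mul_mem ha z3) w1)
  · change (z * w).imK ∈ O
    rw [QuaternionAlgebra.imK_mul]
    exact add_mem (sub_mem (add_mem (add_mem (mul_mem z0 w3) (mul_mem z1 w2))
      (mul_mem (mul_mem h0 z1) w3)) (mul_mem z2 w1)) (mul_mem z3 w0)

theorem CKF_star {z : ℍ[F, a, b]} (hz : ∀ j, co4 z j ∈ O) : ∀ j, co4 (star z) j ∈ O := by
  intro j
  have z0 := hz 0
  have z1 := hz 1
  have z2 := hz 2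
  have z3 := hz 3
  simp only [co4, Matrix.cons_val_zero, Matrix.cons_val_one, Matrix.cons_val] at z0 z1 z2 z3
  fin_cases j
  · change (star z).re ∈ O
    rw [QuaternionAlgebra.re_star, zero_mul, add_zero]
    exact z0
  · change (star z).imI ∈ O
    rw [QuaternionAlgebra.imI_star]
    exact neg_mem z1
  · change (star z).imJ ∈ O
    rw [QuaternionAlgebra.imJ_star]
    exact neg_mem z2
  · change (star z).imK ∈ O
    rw [QuaternionAlgebra.imK_star]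
    exact neg_mem z3

theorem CKF_one_add {z : ℍ[F, a, b]} (hz : ∀ j, co4 z j ∈ O) : ∀ j, co4 (1 + z) j ∈ O := by
  intro j
  have z0 := hz 0
  have z1 := hz 1
  have z2 := hz 2
  have z3 := hz 3
  simp only [co4, Matrix.cons_val_zero, Matrix.cons_val_one, Matrix.cons_val] at z0 z1 z2 z3
  fin_cases j
  · change (1 + z).re ∈ O
    rw [QuaternionAlgebra.re_add]
    exact add_mem (one_mem O) z0
  · change (1 + z).imI ∈ O
    rw [QuaternionAlgebra.imI_add]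
    exact add_mem (zero_mem O) z1
  · change (1 + z).imJ ∈ O
    rw [QuaternionAlgebra.imJ_add]
    exact add_mem (zero_mem O) z2
  · change (1 + z).imK ∈ O
    rw [QuaternionAlgebra.imK_add]
    exact add_mem (zero_mem O) z3

theorem CKF_co_smul_sub (c : F) (z w : ℍ[F, a, b]) (j : Fin 4) :
    co4 (c • (z - w)) j = c * (co4 z j - co4 w j) := by
  fin_cases j
  · change (c • (z - w)).re = c * (z.re - w.re)
    rw [QuaternionAlgebra.re_smul, smul_eq_mul, QuaternionAlgebra.re_sub]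
  · change (c • (z - w)).imI = c * (z.imI - w.imI)
    rw [QuaternionAlgebra.imI_smul, smul_eq_mul, QuaternionAlgebra.imI_sub]
  · change (c • (z - w)).imJ = c * (z.imJ - w.imJ)
    rw [QuaternionAlgebra.imJ_smul, smul_eq_mul, QuaternionAlgebra.imJ_sub]
  · change (c • (z - w)).imK = c * (z.imK - w.imK)
    rw [QuaternionAlgebra.imK_smul, smul_eq_mul, QuaternionAlgebra.imK_sub]

theorem CKF_nrq_mem (ha : a ∈ O) (hb : b ∈ O) {z : ℍ[F, a, b]} (hz : ∀ j, co4 z j ∈ O) :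
    nrq z ∈ O := by
  have z0 := hz 0
  have z1 := hz 1
  have z2 := hz 2
  have z3 := hz 3
  simp only [co4, Matrix.cons_val_zero, Matrix.cons_val_one, Matrix.cons_val] at z0 z1 z2 z3
  unfold nrq
  exact add_mem (sub_mem (sub_mem (pow_mem z0 2) (mul_mem ha (pow_mem z1 2)))
    (mul_mem hb (pow_mem z2 2))) (mul_mem (mul_mem ha hb) (pow_mem z3 2))

theorem CKF_bound {k : Type} [NormedField k] (e : F →+* k) (x : ℍ[F, a, b]) {C : ℝ}
    (hC : ∀ j, ‖e (co4 x j)‖ ≤ C) :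
    ‖e (nrq x)‖ ≤ C ^ 2 * (1 + ‖e a‖ + ‖e b‖ + ‖e a‖ * ‖e b‖) := by
  have h0 : ‖e x.re‖ ^ 2 ≤ C ^ 2 := pow_le_pow_left₀ (norm_nonneg _) (hC 0) 2
  have h1 : ‖e x.imI‖ ^ 2 ≤ C ^ 2 := pow_le_pow_left₀ (norm_nonneg _) (hC 1) 2
  have h2 : ‖e x.imJ‖ ^ 2 ≤ C ^ 2 := pow_le_pow_left₀ (norm_nonneg _) (hC 2) 2
  have h3 : ‖e x.imK‖ ^ 2 ≤ C ^ 2 := pow_le_pow_left₀ (norm_nonneg _) (hC 3) 2
  have ha0 : 0 ≤ ‖e a‖ := norm_nonneg _
  have hb0 : 0 ≤ ‖e b‖ := norm_nonneg _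
  unfold nrq
  rw [map_add, map_sub, map_sub, map_mul, map_mul, map_mul, map_mul, map_pow, map_pow, map_pow,
    map_pow]
  have e1 : ‖e a * e x.imI ^ 2‖ ≤ ‖e a‖ * C ^ 2 := by
    rw [norm_mul, norm_pow]
    exact mul_le_mul_of_nonneg_left h1 ha0
  have e2 : ‖e b * e x.imJ ^ 2‖ ≤ ‖e b‖ * C ^ 2 := by
    rw [norm_mul, norm_pow]
    exact mul_le_mul_of_nonneg_left h2 hb0
  have e3 : ‖e a * e b * e x.imK ^ 2‖ ≤ ‖e a‖ * ‖e b‖ * C ^ 2 := by
    rw [norm_mul, norm_mul, norm_pow]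
    exact mul_le_mul_of_nonneg_left h3 (mul_nonneg ha0 hb0)
  have e0 : ‖e x.re ^ 2‖ ≤ C ^ 2 := by
    rw [norm_pow]
    exact h0
  have k1 := norm_add_le (e x.re ^ 2 - e a * e x.imI ^ 2 - e b * e x.imJ ^ 2)
    (e a * e b * e x.imK ^ 2)
  have k2 := norm_sub_le (e x.re ^ 2 - e a * e x.imI ^ 2) (e b * e x.imJ ^ 2)
  have k3 := norm_sub_le (e x.re ^ 2) (e a * e x.imI ^ 2)
  linarith

end coords

theorem p_CKF (hCLF : Stmt_CLF) (hRSF : Stmt_RSF) : Stmt_CKF := by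
  classical
  intro hPGG F _ P _ _ K _ ι _ D
  have := Fintype.ofFinite ι
  obtain ⟨C, hC1, hC⟩ := hCLF hPGG F P K ι D
  choose X hX0 hX1 hX2 hX3 using hC
  obtain ⟨δ, hδ⟩ : ∃ δ : GG D.k → F, ∀ g, δ g = nrq (X g) := ⟨_, fun _ => rfl⟩
  have hδ0 : ∀ g, δ g ≠ 0 := fun g h => hX0 g (D.dv _ (by rw [← hδ]; exact h))
  have hδO : ∀ g, δ g ∈ D.O := fun g => by
    rw [hδ]
    exact CKF_nrq_mem D.ha D.hb (hX1 g)
  have hdet : ∀ g i, ‖D.e (D.pl i) (δ g)‖ ≤ 2 * C ^ 2 := by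
    intro g i
    have h1 : D.e (D.pl i) (δ g) =
        ((g i : Matrix (Fin 2) (Fin 2) (D.k i)) * D.mt i (X g)).det := by
      rw [Matrix.det_mul, (g i).det_coe, one_mul, hδ]
      exact (mq_det (D.e (D.pl i)) (D.spl i) (X g)).symm
    rw [h1]
    exact (CKG_det _).trans (mul_le_mul_of_nonneg_left
      (pow_le_pow_left₀ (mnm_nonneg _) (hX2 g i) 2) (by norm_num))
  obtain ⟨s, hs⟩ : ∃ s : P → ℝ, ∀ p, s p = C ^ 2 * (1 + ‖D.e p D.a‖ + ‖D.e p D.b‖ +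
    ‖D.e p D.a‖ * ‖D.e p D.b‖) := ⟨_, fun _ => rfl⟩
  have hs0 : ∀ p, 0 ≤ s p := by
    intro p
    rw [hs]
    positivity
  obtain ⟨B, hB⟩ : ∃ B : ℝ, B = 2 * C ^ 2 + ∑ p, s p := ⟨_, rfl⟩
  have hsum0 : 0 ≤ ∑ p, s p := Finset.sum_nonneg fun p _ => hs0 p
  have hB1 : 2 * C ^ 2 ≤ B := by
    rw [hB]
    linarith
  have hB2 : ∀ p, s p ≤ B := by
    intro p
    have h1 := Finset.single_le_sum (f := s) (fun p _ => hs0 p) (Finset.mem_univ p)
    have h2 : 0 ≤ 2 * C ^ 2 := by positivity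
    rw [hB]
    linarith
  obtain ⟨Dl, hDl⟩ : ∃ Dl : Set F, Dl = {x : F | x ∈ D.O ∧ ∀ p, ‖D.e p x‖ ≤ B} := ⟨_, rfl⟩
  have hfin : Dl.Finite := by
    rw [hDl]
    exact D.fin B
  have hmem : ∀ g, δ g ∈ Dl := by
    intro g
    rw [hDl]
    refine ⟨hδO g, fun p => ?_⟩
    by_cases hi : ∀ i, D.pl i ≠ p
    · have h1 := CKF_bound (D.e p) (X g) (hX3 g p hi)
      rw [← hδ, ← hs] at h1
      exact h1.trans (hB2 p)
    · push Not at hi
      obtain ⟨i, rfl⟩ := hi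
      exact (hdet g i).trans hB1
  have hR0 : ∀ d : F, ∃ (N : ℕ) (cl : F → Fin N), d ∈ D.O → d ≠ 0 → ∀ x ∈ D.O, ∀ y ∈ D.O,
      cl x = cl y → ∃ z ∈ D.O, x - y = d * z := by
    intro d
    by_cases hd : d ∈ D.O ∧ d ≠ 0
    · obtain ⟨N, cl, h⟩ := hRSF F P K D.toAr d hd.1 hd.2
      exact ⟨N, cl, fun _ _ => h⟩
    · exact ⟨1, fun _ => 0, fun h1 h2 => absurd ⟨h1, h2⟩ hd⟩
  choose N cl hcl using hR0
  haveI := hfin.to_subtype
  obtain ⟨R, hR⟩ := CKG_rep (Y := ↥Dl × (∀ d : ↥Dl, Fin 4 → Fin (N d.1)))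
    (fun g => (⟨δ g, hmem g⟩, fun d j => cl d.1 (co4 (X g) j)))
    (fun g => ∑ i, ‖D.e (D.pl i) (δ g)‖⁻¹ * (2 * (C * mnm (D.mt i (star (X g))))))
  refine ⟨R, fun g => ?_⟩
  obtain ⟨g₀, hf, hb⟩ := hR g
  have hδe : δ g₀ = δ g := congrArg (fun y => y.1.1) hf
  have hcle : ∀ (d : F) (_ : d ∈ Dl) (j : Fin 4), cl d (co4 (X g₀) j) = cl d (co4 (X g) j) :=
    fun d hd j => congrFun (congrFun (congrArg Prod.snd hf) ⟨d, hd⟩) j
  obtain ⟨d, hd⟩ : ∃ d : F, d = δ g₀ := ⟨_, rfl⟩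
  have hd0 : d ≠ 0 := by
    rw [hd]
    exact hδ0 g₀
  have hdm : d ∈ Dl := by
    rw [hd]
    exact hmem g₀
  have hdO : d ∈ D.O := by
    rw [hd]
    exact hδO g₀
  have hx0 : nrq (X g₀) = d := by
    rw [hd, hδ]
  have hx : nrq (X g) = d := by
    rw [hd, hδe, hδ]
  obtain ⟨u, hu⟩ : ∃ u : ℍ[F, D.a, D.b], u = d⁻¹ • (X g * star (X g₀)) := ⟨_, rfl⟩
  have hnu : nrq u = 1 := by
    rw [hu, CKG_nrq_smul, nrq_mul, nrq_star, hx, hx0]
    field_simp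
  have hu2 : u = 1 + (d⁻¹ • (X g - X g₀)) * star (X g₀) := by
    have h1 : (d⁻¹ : F) • (X g₀ * star (X g₀)) = 1 := by
      rw [(star_mul_self' (X g₀)).2, hx0]
      ext <;> simp [hd0]
    rw [hu, smul_mul_assoc, sub_mul, smul_sub, h1]
    abel
  have hGU : (⟨u, (mem_unitary_iff_nrq _).2 hnu⟩ : unitary ℍ[F, D.a, D.b]) ∈ D.G := by
    change ∀ j, co4 u j ∈ D.O
    rw [hu2]
    refine CKF_one_add (CKF_mul D.ha D.hb ?_ (CKF_star (hX1 g₀)))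
    intro j
    rw [CKF_co_smul_sub]
    obtain ⟨z, hz, h1⟩ := hcl d hdO hd0 _ (hX1 g j) _ (hX1 g₀ j) (hcle d hdm j).symm
    rw [h1, inv_mul_cancel_left₀ hd0]
    exact hz
  refine ⟨D.Th ⟨u, (mem_unitary_iff_nrq _).2 hnu⟩, Subgroup.mem_map.2 ⟨_, hGU, rfl⟩, fun i => ?_⟩
  have h1 : nm ((g * D.Th ⟨u, (mem_unitary_iff_nrq _).2 hnu⟩ : GG D.k) i) =
      mnm ((g i : Matrix (Fin 2) (Fin 2) (D.k i)) * D.mt i u) := by
    unfold nm
    rw [Pi.mul_apply, Matrix.SpecialLinearGroup.coe_mul]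
    rfl
  have h2 : (g i : Matrix (Fin 2) (Fin 2) (D.k i)) * D.mt i u =
      (D.e (D.pl i) d)⁻¹ • (((g i : Matrix (Fin 2) (Fin 2) (D.k i)) * D.mt i (X g)) *
        D.mt i (star (X g₀))) := by
    rw [hu]
    unfold Qd.mt
    rw [CKG_mq_smul, mq_mul _ (D.spl i), map_inv₀, Matrix.mul_smul, ← mul_assoc]
  rw [h1, h2]
  refine (CKG_mnm_smul _ _).trans ?_
  rw [norm_inv]
  have h3 : mnm (((g i : Matrix (Fin 2) (Fin 2) (D.k i)) * D.mt i (X g)) *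
      D.mt i (star (X g₀))) ≤ 2 * (C * mnm (D.mt i (star (X g₀)))) :=
    (mnm_mul_le2 _ _).trans (mul_le_mul_of_nonneg_left
      (mul_le_mul_of_nonneg_right (hX2 g i) (mnm_nonneg _)) (by norm_num))
  have h4 : ‖D.e (D.pl i) d‖⁻¹ * (2 * (C * mnm (D.mt i (star (X g₀))))) ≤
      ∑ i, ‖D.e (D.pl i) (δ g₀)‖⁻¹ * (2 * (C * mnm (D.mt i (star (X g₀))))) := by
    rw [hd]
    refine Finset.single_le_sum
      (f := fun i => ‖D.e (D.pl i) (δ g₀)‖⁻¹ * (2 * (C * mnm (D.mt i (star (X g₀))))))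
      (fun i _ => ?_) (Finset.mem_univ i)
    have h5 := mnm_nonneg (D.mt i (star (X g₀)))
    have h6 : 0 ≤ C := by linarith
    positivity
  exact (mul_le_mul_of_nonneg_left h3 (inv_nonneg.2 (norm_nonneg _))).trans (h4.trans hb)

end Pool.FQ
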