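import Pool.Agent.Work.MP_972ac7_F.Interface

set_option autoImplicit false

/-! # THEOREM FQ: block CLF, a short vector (typed by helper10) -/

open MeasureTheory IsDedekindDomain Polynomial
open scoped Quaternion ENNReal NNReal WithZero

noncomputable section

namespace Pool.FQ

open Pool.PQ Pool.PL Pool.TFD Pool.TC

/-- the quaternion with given coordinates -/
def CLF_qv {F : Type} [CommRing F] (a b : F) (δ : Fin 4 → F) : ℍ[F, a, b] :=
  ⟨δ 0, δ 1, δ 2, δ 3⟩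

theorem CLF_co {F : Type} [Field F] (a b : F) (δ : Fin 4 → F) (j : Fin 4) :
    co4 (CLF_qv a b δ) j = δ j := by
  fin_cases j <;> rfl

theorem CLF_sub {F : Type} [CommRing F] (a b : F) (y y' : Fin 4 → F) :
    CLF_qv a b y - CLF_qv a b y' = CLF_qv a b (fun j => y j - y' j) := by
  ext <;> simp [CLF_qv]

theorem CLF_a {F : Type} [Field F] {a b : F} (hdv : ∀ z : ℍ[F, a, b], nrq z = 0 → z = 0) :
    a ≠ 0 := by
  intro h
  have h1 := hdv (CLF_qv a b ![0, 1, 0, 0]) (by simp [nrq, CLF_qv, h])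
  have h2 := congrArg (fun z : ℍ[F, a, b] => z.imI) h1
  simp [CLF_qv] at h2

theorem CLF_b {F : Type} [Field F] {a b : F} (hdv : ∀ z : ℍ[F, a, b], nrq z = 0 → z = 0) :
    b ≠ 0 := by
  intro h
  have h1 := hdv (CLF_qv a b ![0, 0, 1, 0]) (by simp [nrq, CLF_qv, h])
  have h2 := congrArg (fun z : ℍ[F, a, b] => z.imJ) h1
  simp [CLF_qv] at h2

section

variable {F : Type} [Field F] {P : Type} [Fintype P] {K : P → Type} [∀ p, NormedField (K p)]
  {ι : Type}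

/-- the classes at one place -/
theorem CLF_loc (hSCG : Stmt_SCG) (hNBF : Stmt_NBF) (hPGG : Pool.PQ.Stmt_PGG) (D : Qd F P K ι)
    (p : P) : ∃ Kp : ℝ, 0 ≤ Kp ∧ ∀ (C₁ : ℝ), 1 ≤ C₁ → ∀ g : GG D.k, ∃ B : ℝ, ∀ β : ℝ, B ≤ β →
      ∃ (N : ℕ) (cl : (Fin 4 → F) → Fin N), (N : ℝ) * C₁ ^ 4 ≤ Kp * β ^ 4 ∧
        ∀ y y' : Fin 4 → F, (∀ j, ‖D.e p (y j)‖ ≤ β) → (∀ j, ‖D.e p (y' j)‖ ≤ β) →
          cl y = cl y' →
          (∀ i, D.pl i = p → mnm ((g i : Matrix (Fin 2) (Fin 2) (D.k i)) *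
            D.mt i (CLF_qv D.a D.b (fun j => y j - y' j))) ≤ C₁) ∧
          ((∀ i, D.pl i ≠ p) → ∀ j, ‖D.e p (y j - y' j)‖ ≤ C₁) := by
  by_cases h : ∃ i, D.pl i = p
  · obtain ⟨i, rfl⟩ := h
    have he : (D.L (D.pl i)).e = 1 := D.he _
    obtain ⟨CI, hCI1, hCI2, -⟩ := hNBF F (K (D.pl i)) (D.e (D.pl i)) D.a D.b (D.x i) (D.y i)
      (CLF_a D.dv) (CLF_b D.dv) (D.L (D.pl i)).two_ne (D.spl i)
    obtain ⟨CP, hCP0, hCP⟩ := hPGG (K (D.pl i)) (D.L (D.pl i))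
    have hCI0 : 0 < CI := lt_of_lt_of_le one_pos hCI1
    refine ⟨CP * CI ^ 4, by positivity, fun C₁ hC₁ g => ?_⟩
    have hC₁0 : 0 < C₁ := lt_of_lt_of_le one_pos hC₁
    obtain ⟨ε, hε0, hε⟩ := hCP (g i)
    refine ⟨C₁ / (ε * CI), fun β hβ => ?_⟩
    have hle : C₁ ≤ ε * (CI * β) := by
      rw [div_le_iff₀ (by positivity)] at hβ
      linarith
    obtain ⟨N, cl, hN, hcl⟩ := hε (CI * β) C₁ hC₁0 hle
    refine ⟨N, fun y => cl (D.mt i (CLF_qv D.a D.b y)), ?_, ?_⟩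
    · rw [he, pow_one, pow_one] at hN
      calc (N : ℝ) * C₁ ^ 4 ≤ CP * (CI * β) ^ 4 := hN
        _ = CP * CI ^ 4 * β ^ 4 := by ring
    · intro y y' hy hy' hyy
      refine ⟨?_, fun h => absurd rfl (h i)⟩
      intro i' hi'
      obtain rfl : i' = i := D.inj hi'
      have hb : ∀ y : Fin 4 → F, (∀ j, ‖D.e (D.pl i') (y j)‖ ≤ β) →
          mnm (D.mt i' (CLF_qv D.a D.b y)) ≤ CI * β := by
        intro y hy
        refine hCI2 (CLF_qv D.a D.b y) β (fun j => ?_)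
        rw [CLF_co]
        exact hy j
      have h1 := hcl _ _ (hb y hy) (hb y' hy') hyy
      have h2 : D.mt i' (CLF_qv D.a D.b y) - D.mt i' (CLF_qv D.a D.b y') =
          D.mt i' (CLF_qv D.a D.b (fun j => y j - y' j)) := by
        unfold Qd.mt
        rw [← mq_sub, CLF_sub]
      rw [h2] at h1
      exact h1
  · push Not at h
    have he : (D.L p).e = 1 := D.he _
    obtain ⟨CS, hCS1, -, hCS⟩ := hSCG (K p) (D.L p)
    have hCS0 : 0 < CS := lt_of_lt_of_le one_pos hCS1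
    refine ⟨CS ^ 4, by positivity, fun C₁ hC₁ g => ⟨C₁, fun β hβ => ?_⟩⟩
    have hC₁0 : 0 < C₁ := lt_of_lt_of_le one_pos hC₁
    obtain ⟨N, cl, hN, hcl⟩ := hCS β C₁ hC₁0 hβ
    rw [he, pow_one, pow_one] at hN
    refine ⟨N ^ 4, fun y => (finFunctionFinEquiv (m := N) (n := 4))
      (fun j => cl (D.e p (y j))), ?_, ?_⟩
    · push_cast
      calc (N : ℝ) ^ 4 * C₁ ^ 4 = ((N : ℝ) * C₁) ^ 4 := by ring
        _ ≤ (CS * β) ^ 4 := pow_le_pow_left₀ (by positivity) hN 4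
        _ = CS ^ 4 * β ^ 4 := by ring
    · intro y y' hy hy' hyy
      refine ⟨fun i hi => absurd hi (h i), fun _ j => ?_⟩
      have h1 := (finFunctionFinEquiv (m := N) (n := 4)).injective hyy
      have h2 := hcl _ _ (hy j) (hy' j) (congrFun h1 j)
      rw [map_sub]
      exact h2

end

theorem p_CLF (hSCG : Stmt_SCG) (hNBF : Stmt_NBF) : Stmt_CLF := by
  intro hPGG F _ P _ _ K _ ι _ D
  classical
  choose Kp hKp0 hKp using fun p => CLF_loc hSCG hNBF hPGG D p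
  obtain ⟨c, hc0, hc⟩ := D.many
  obtain ⟨C₃, hC₃⟩ : ∃ C₃ : ℝ, C₃ = ∏ p, Kp p := ⟨_, rfl⟩
  have hC₃0 : 0 ≤ C₃ := by
    rw [hC₃]
    exact Finset.prod_nonneg fun p _ => hKp0 p
  obtain ⟨C₁, hC₁1, hC₁2⟩ : ∃ C₁ : ℝ, 1 ≤ C₁ ∧ C₃ + 1 ≤ c ^ 4 * C₁ := by
    refine ⟨max 1 ((C₃ + 1) / c ^ 4), le_max_left _ _, ?_⟩
    calc C₃ + 1 = c ^ 4 * ((C₃ + 1) / c ^ 4) := by field_simp
      _ ≤ c ^ 4 * max 1 ((C₃ + 1) / c ^ 4) :=
        mul_le_mul_of_nonneg_left (le_max_right _ _) (by positivity)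
  have hC₁0 : 0 < C₁ := lt_of_lt_of_le one_pos hC₁1
  refine ⟨C₁, hC₁1, fun g => ?_⟩
  choose Bp hBp using fun p => hKp p C₁ hC₁1 g
  obtain ⟨M, hM⟩ := Finite.exists_le Bp
  obtain ⟨β, Y, hβ, hYO, hYβ, hYc⟩ := hc (max 1 M)
  have hβ1 : ∀ p, 1 ≤ β p := fun p => (le_max_left _ _).trans (hβ p)
  have hβ0 : ∀ p, 0 < β p := fun p => lt_of_lt_of_le one_pos (hβ1 p)
  choose N cl hN hcl using fun p => hBp p (β p) ((hM p).trans ((le_max_right _ _).trans (hβ p)))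
  have hpos : 0 < ∏ p, β p := Finset.prod_pos fun p _ => hβ0 p
  have hQ : 0 < ∏ _p : P, C₁ ^ 4 := Finset.prod_pos fun p _ => by positivity
  have hQ1 : C₁ ≤ ∏ _p : P, C₁ ^ 4 := by
    rw [Finset.prod_const, ← pow_mul]
    apply le_self_pow₀ hC₁1
    rw [Finset.card_univ]
    have : Fintype.card P ≠ 0 := Fintype.card_ne_zero
    omega
  have hcard : Fintype.card (∀ p, Fin (N p)) < Fintype.card (Fin 4 → Y) := by
    have h1 : (Fintype.card (Fin 4 → Y) : ℝ) = (Y.card : ℝ) ^ 4 := by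
      simp
    have h2 : (Fintype.card (∀ p, Fin (N p)) : ℝ) = ∏ p, (N p : ℝ) := by
      rw [Fintype.card_pi]
      simp only [Fintype.card_fin]
      push_cast
      rfl
    have h3 : (∏ p, (N p : ℝ)) * ∏ _p : P, C₁ ^ 4 ≤ C₃ * (∏ p, β p) ^ 4 := by
      rw [hC₃, ← Finset.prod_pow, ← Finset.prod_mul_distrib, ← Finset.prod_mul_distrib]
      exact Finset.prod_le_prod (fun p _ => by positivity) fun p _ => hN p
    have h4 : C₃ * (∏ p, β p) ^ 4 < (Y.card : ℝ) ^ 4 * ∏ _p : P, C₁ ^ 4 := by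
      calc C₃ * (∏ p, β p) ^ 4 < (C₃ + 1) * (∏ p, β p) ^ 4 := by
            apply mul_lt_mul_of_pos_right (by linarith) (by positivity)
        _ ≤ (c ^ 4 * ∏ _p : P, C₁ ^ 4) * (∏ p, β p) ^ 4 := by
            apply mul_le_mul_of_nonneg_right _ (by positivity)
            exact hC₁2.trans (mul_le_mul_of_nonneg_left hQ1 (by positivity))
        _ = (c * ∏ p, β p) ^ 4 * ∏ _p : P, C₁ ^ 4 := by ring
        _ ≤ (Y.card : ℝ) ^ 4 * ∏ _p : P, C₁ ^ 4 := by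
            apply mul_le_mul_of_nonneg_right _ hQ.le
            exact pow_le_pow_left₀ (by positivity) hYc 4
    have h5 := lt_of_mul_lt_mul_right (h3.trans_lt h4) hQ.le
    rw [← h1, ← h2] at h5
    exact_mod_cast h5
  obtain ⟨y, y', hne, hyy⟩ := Fintype.exists_ne_map_eq_of_card_lt
    (fun y : Fin 4 → Y => ((fun p => cl p (fun j => (y j : F))) : ∀ p, Fin (N p))) hcard
  have hF := fun p => hcl p _ _ (fun j => hYβ _ (y j).2 p) (fun j => hYβ _ (y' j).2 p)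
    (congrFun hyy p)
  refine ⟨CLF_qv D.a D.b (fun j => (y j : F) - (y' j : F)), ?_, ?_, ?_, ?_⟩
  · intro h0
    apply hne
    funext j
    have h1 : co4 (CLF_qv D.a D.b (fun j => (y j : F) - (y' j : F))) j = 0 := by
      rw [h0]
      fin_cases j <;> rfl
    rw [CLF_co] at h1
    exact Subtype.ext (sub_eq_zero.1 h1)
  · intro j
    rw [CLF_co]
    exact sub_mem (hYO _ (y j).2) (hYO _ (y' j).2)
  · intro i
    exact (hF (D.pl i)).1 i rfl
  · intro p hp j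
    rw [CLF_co]
    exact (hF p).2 hp j

end Pool.FQ
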