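import Pool.Agent.Work.MP_972ac7_F.Interface
import Pool.Agent.Work.MP_972ac7_Q.B_CNG

set_option autoImplicit false

/-! # THEOREM FQ (MP_972ac7_al): block CNF (the count) -/

open MeasureTheory IsDedekindDomain Polynomial
open scoped Quaternion ENNReal NNReal WithZero

noncomputable section

namespace Pool.FQ

open Pool.PQ Pool.PL Pool.TFD Pool.TC

theorem CNF_sub {F : Type} [Field F] {P : Type} [Fintype P] {K : P → Type}
    [∀ p, NormedField (K p)] (A : Ar F P K) (p : P) {x y : F} {b : ℝ} (hx : ‖A.e p x‖ ≤ b)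
    (hy : ‖A.e p y‖ ≤ b) : ‖A.e p (x - y)‖ ≤ b := by
  rw [sub_eq_add_neg, map_add, map_neg]
  refine le_trans (A.um p _ _) (max_le hx ?_)
  rw [norm_neg]
  exact hy

theorem p_CNF (hPFB : Stmt_PFB) (hBXF : Stmt_BXF) (hCOF : Stmt_COF) : Stmt_CNF := by
  intro F _ P _ K _ A p₀ c₁ c₂ c₃ hc₁ hc₂ hc₃ hcell hani C₀ hC₀
  classical
  haveI : Nonempty P := ⟨p₀⟩
  have hP1 := hPFB F P K A
  obtain ⟨CB, hCB, hBX⟩ := hBXF F P K A
  obtain ⟨C₃, hC₃, hCN⟩ := hCOF F P K A p₀ c₁ c₂ hc₁ hc₂ hcell hani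
  obtain ⟨α, hα⟩ : ∃ α : ℝ, α = CB * C₀ := ⟨_, rfl⟩
  have hC₀p : 0 < C₀ := by linarith
  have hCBp : 0 < CB := by linarith
  have hα0 : 0 < α := by rw [hα]; positivity
  obtain ⟨M, hM⟩ : ∃ M : ℝ, M = (1 + α) * (C₀ + α) * (2 * C₀ ^ (2 / 3 : ℝ) + C₀ ^ (2 / 3 : ℝ)) :=
    ⟨_, rfl⟩
  have hM0 : 0 < M := by rw [hM]; positivity
  refine ⟨2 + C₃ * M, by positivity, ?_⟩
  intro β₁ β₂ Q Y hβ₁ hβ₂ hQ hY hv₁ hv₂ Z hZ
  have hQ0 : 0 < Q := by linarith
  have hY0 : 0 < Y := by linarith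
  have hR : 0 ≤ (Y / Q) ^ (5 / 3 : ℝ) * (1 + Y / Q ^ 2) := by positivity
  by_cases hcase : ∏ p, β₁ p < 1
  · -- at most two elements
    have hzero : ∀ y ∈ Z, ∀ i, i ≠ 0 → y i = 0 := by
      intro y hy i hi
      by_contra hne
      have h1 := hP1 (y i) ((hZ y hy).1 i) hne
      have h2 : ∏ p, ‖A.e p (y i)‖ ≤ ∏ p, β₁ p :=
        Finset.prod_le_prod (fun p _ => norm_nonneg _) (fun p _ => (hZ y hy).2.2.2 i hi p)
      linarith
    have hinj : Set.InjOn (fun y : Fin 4 → F => y 0) Z := by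
      intro y hy y' hy' h
      funext i
      by_cases hi : i = 0
      · rw [hi]
        exact h
      · rw [hzero y hy i hi, hzero y' hy' i hi]
    have himg : (fun y : Fin 4 → F => y 0) '' Z ⊆ ({1, -1} : Set F) := by
      rintro _ ⟨y, hy, rfl⟩
      have h1 := (hZ y hy).2.1
      rw [hzero y hy 1 (by decide), hzero y hy 2 (by decide), hzero y hy 3 (by decide)] at h1
      have h2 : y 0 ^ 2 = 1 ^ 2 := by
        rw [one_pow, ← h1]
        ring
      rcases sq_eq_sq_iff_eq_or_eq_neg.1 h2 with h | h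
      · exact Or.inl h
      · exact Or.inr h
    have hfin2 : ({1, -1} : Set F).Finite := Set.toFinite _
    have h7 := CNG_inj Z (fun y : Fin 4 → F => y 0) hinj 2 ⟨hfin2.subset himg, by
      rw [Nat.card_coe_set_eq]
      have h8 := Set.ncard_le_ncard himg hfin2
      have h9 := Set.ncard_insert_le 1 ({-1} : Set F)
      rw [Set.ncard_singleton] at h9
      exact_mod_cast le_trans h8 h9⟩
    refine ⟨h7.1, le_trans h7.2 ?_⟩
    have h10 : 0 < C₃ * M := by positivity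
    nlinarith
  · push Not at hcase
    have hKX : 1 ≤ C₀ * (Y / Q) := by
      rw [mul_div_assoc', le_div_iff₀ hQ0, one_mul]
      nlinarith
    -- the first coordinates
    have hZ0 := hBX β₂ ((fun y : Fin 4 → F => y 0) '' Z) (fun p => (hβ₂ p).le)
      (by
        rintro _ ⟨y, hy, rfl⟩
        exact (hZ y hy).1 0)
      (by
        rintro _ ⟨y, hy, rfl⟩ _ ⟨y', hy', rfl⟩ p
        have h1 := CNF_sub A p ((hZ y hy).2.2.1 p) ((hZ y' hy').2.2.1 p)
        have e : y 0 - 1 - (y' 0 - 1) = y 0 - y' 0 := by ring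
        rw [e] at h1
        exact h1)
    have hZ3 := hBX β₁ ((fun y : Fin 4 → F => y 3) '' Z) (fun p => (hβ₁ p).le)
      (by
        rintro _ ⟨y, hy, rfl⟩
        exact (hZ y hy).1 3)
      (by
        rintro _ ⟨y, hy, rfl⟩ _ ⟨y', hy', rfl⟩ p
        exact CNF_sub A p ((hZ y hy).2.2.2 3 (by decide) p) ((hZ y' hy').2.2.2 3 (by decide) p))
    obtain ⟨hZ0f, hZ0c⟩ := hZ0
    obtain ⟨hZ3f, hZ3c⟩ := hZ3
    have hb0 : CB * ∏ p, β₂ p ≤ α * (Y / Q ^ 2) := by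
      have h1 : ∏ p, β₂ p ≤ C₀ * (Y / Q ^ 2) := by
        rw [mul_div_assoc', le_div_iff₀ (by positivity)]
        exact hv₂
      have h2 : CB * ∏ p, β₂ p ≤ CB * (C₀ * (Y / Q ^ 2)) := by
        gcongr
      rw [hα]
      linarith
    have hb3 : CB * ∏ p, β₁ p ≤ α * (Y / Q) := by
      have h1 : ∏ p, β₁ p ≤ C₀ * (Y / Q) := by
        rw [mul_div_assoc', le_div_iff₀ hQ0]
        exact hv₁
      have h2 : CB * ∏ p, β₁ p ≤ CB * (C₀ * (Y / Q)) := by
        gcongr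
      rw [hα]
      linarith
    -- the fibres
    have hv1' : (∏ p, β₁ p) ^ (2 / 3 : ℝ) ≤ C₀ ^ (2 / 3 : ℝ) * (Y / Q) ^ (2 / 3 : ℝ) := by
      rw [← Real.mul_rpow hC₀p.le (by positivity)]
      refine Real.rpow_le_rpow (by linarith) ?_ (by norm_num)
      rw [mul_div_assoc', le_div_iff₀ hQ0]
      exact hv₁
    have hfib : ∀ q : F × F,
        (Z ∩ (fun y : Fin 4 → F => (y 0, y 3)) ⁻¹' {q}).Finite ∧
        (Nat.card ↥(Z ∩ (fun y : Fin 4 → F => (y 0, y 3)) ⁻¹' {q}) : ℝ) ≤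
          C₃ * (1 + C₀ ^ (2 / 3 : ℝ) * (Y / Q) ^ (2 / 3 : ℝ)) := by
      intro q
      apply CNG_inj _ (fun y : Fin 4 → F => (y 1, y 2))
      · rintro y ⟨hy, hyp⟩ y' ⟨hy', hyp'⟩ h
        have e1 : y 0 = y' 0 ∧ y 3 = y' 3 := by
          have h1 : (y 0, y 3) = q := hyp
          have h2 : (y' 0, y' 3) = q := hyp'
          exact Prod.mk.inj (h1.trans h2.symm)
        have e2 : y 1 = y' 1 ∧ y 2 = y' 2 := Prod.mk.inj h
        funext i
        fin_cases i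
        · exact e1.1
        · exact e2.1
        · exact e2.2
        · exact e1.2
      · have h1 := hCN (1 - q.1 ^ 2 - c₃ * q.2 ^ 2) β₁ hβ₁
          ((fun y : Fin 4 → F => (y 1, y 2)) ''
            (Z ∩ (fun y : Fin 4 → F => (y 0, y 3)) ⁻¹' {q}))
          (by
            rintro _ ⟨y, ⟨hy, hyp⟩, rfl⟩
            have e1 : (y 0, y 3) = q := hyp
            refine ⟨(hZ y hy).1 1, (hZ y hy).1 2, ?_, fun p =>
              ⟨(hZ y hy).2.2.2 1 (by decide) p, (hZ y hy).2.2.2 2 (by decide) p⟩⟩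
            rw [← e1]
            linear_combination (hZ y hy).2.1)
        refine ⟨h1.1, le_trans h1.2 ?_⟩
        gcongr
    have hW : (((fun y : Fin 4 → F => y 0) '' Z) ×ˢ ((fun y : Fin 4 → F => y 3) '' Z)).Finite :=
      hZ0f.prod hZ3f
    have hcount := CNG_count Z (fun y : Fin 4 → F => (y 0, y 3)) _ hW
      (fun y hy => ⟨⟨y, hy, rfl⟩, ⟨y, hy, rfl⟩⟩) _ hfib
    refine ⟨hcount.1, le_trans hcount.2 ?_⟩
    have hcardW : (Nat.card ↥(((fun y : Fin 4 → F => y 0) '' Z) ×ˢ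
        ((fun y : Fin 4 → F => y 3) '' Z)) : ℝ) ≤
        (1 + α * (Y / Q ^ 2)) * (1 + α * (Y / Q)) := by
      rw [Nat.card_coe_set_eq, Set.ncard_prod, Nat.cast_mul]
      rw [Nat.card_coe_set_eq] at hZ0c hZ3c
      exact mul_le_mul (by linarith) (by linarith) (Nat.cast_nonneg _) (by positivity)
    have hnum := CNG_num (X := Y / Q) (T := Y / Q ^ 2) (K := C₀) (α₀ := α) (α₃ := α)
      (α₁ := C₀ ^ (2 / 3 : ℝ)) (by positivity) (by positivity) hC₀p hKX hα0.le hα0.le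
      (by positivity)
    rw [← hM] at hnum
    calc _ ≤ ((1 + α * (Y / Q ^ 2)) * (1 + α * (Y / Q))) *
          (C₃ * (1 + C₀ ^ (2 / 3 : ℝ) * (Y / Q) ^ (2 / 3 : ℝ))) :=
          mul_le_mul_of_nonneg_right hcardW (by positivity)
      _ = C₃ * ((1 + α * (Y / Q ^ 2)) * (1 + α * (Y / Q)) *
          (1 + C₀ ^ (2 / 3 : ℝ) * (Y / Q) ^ (2 / 3 : ℝ))) := by ring
      _ ≤ C₃ * (M * ((Y / Q) ^ (5 / 3 : ℝ) * (1 + Y / Q ^ 2))) :=
          mul_le_mul_of_nonneg_left hnum hC₃.le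
      _ ≤ (2 + C₃ * M) * (1 + (Y / Q) ^ (5 / 3 : ℝ) * (1 + Y / Q ^ 2)) := by
          have h10 : 0 < C₃ * M := by positivity
          nlinarith

end Pool.FQ
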