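import Pool.Agent.Work.MP_972ac7_F.Interface

set_option autoImplicit false

/-! # Block COF: points on a conic -/

open MeasureTheory IsDedekindDomain Polynomial
open scoped Quaternion ENNReal NNReal WithZero

noncomputable section

namespace Pool.FQ

open Pool.PQ Pool.PL Pool.TFD Pool.TC

/-- three different points of an anisotropic conic are not collinear -/
theorem COF_noncol {F : Type} [Field F] (c₁ c₂ μ : F)
    (hdef : ∀ x y : F, c₁ * x ^ 2 + c₂ * y ^ 2 = 0 → x = 0 ∧ y = 0)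
    (x y x' y' x'' y'' : F) (e : c₁ * x ^ 2 + c₂ * y ^ 2 = μ)
    (e' : c₁ * x' ^ 2 + c₂ * y' ^ 2 = μ) (e'' : c₁ * x'' ^ 2 + c₂ * y'' ^ 2 = μ)
    (hΔ : (x' - x) * (y'' - y) - (x'' - x) * (y' - y) = 0)
    (n1 : ¬ (x' = x ∧ y' = y)) (n2 : ¬ (x'' = x ∧ y'' = y)) (n3 : ¬ (x'' = x' ∧ y'' = y')) :
    False := by
  have hs : ∃ s : F, x'' - x = s * (x' - x) ∧ y'' - y = s * (y' - y) := by
    by_cases hu : x' - x = 0
    · have hv : y' - y ≠ 0 := fun hv => n1 ⟨sub_eq_zero.1 hu, sub_eq_zero.1 hv⟩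
      refine ⟨(y'' - y) / (y' - y), ?_, ?_⟩
      · have h0 : (x'' - x) * (y' - y) = 0 := by
          rw [hu, zero_mul, zero_sub, neg_eq_zero] at hΔ
          exact hΔ
        rw [hu, mul_zero]
        exact (mul_eq_zero.1 h0).resolve_right hv
      · field_simp
    · refine ⟨(x'' - x) / (x' - x), ?_, ?_⟩
      · field_simp
      · field_simp
        linear_combination hΔ
  obtain ⟨s, hs1, hs2⟩ := hs
  have hx : x'' = x + s * (x' - x) := by linear_combination hs1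
  have hy : y'' = y + s * (y' - y) := by linear_combination hs2
  have hQ : c₁ * (x' - x) ^ 2 + c₂ * (y' - y) ^ 2 ≠ 0 := by
    intro h0
    obtain ⟨k5, k6⟩ := hdef _ _ h0
    exact n1 ⟨sub_eq_zero.1 k5, sub_eq_zero.1 k6⟩
  have hz : (s * (s - 1)) * (c₁ * (x' - x) ^ 2 + c₂ * (y' - y) ^ 2) = 0 := by
    rw [hx, hy] at e''
    linear_combination e'' - e - s * (e' - e)
  rcases mul_eq_zero.1 ((mul_eq_zero.1 hz).resolve_right hQ) with h | h
  · apply n2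
    rw [hx, hy, h]
    constructor <;> ring
  · apply n3
    have h1' : s = 1 := by linear_combination h
    rw [hx, hy, h1']
    constructor <;> ring

/-- counting with a map to `Fin K` with fibres of at most two elements -/
theorem COF_count {α : Type} (Z : Set α) (K : ℕ) (f : α → Fin K)
    (h : ∀ p ∈ Z, ∀ p' ∈ Z, ∀ p'' ∈ Z, p ≠ p' → p ≠ p'' → p' ≠ p'' → f p = f p' → f p = f p'' →
      False) : Z.Finite ∧ Nat.card Z ≤ 2 * K := by
  classical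
  have hT : ∀ T : Finset α, (T : Set α) ⊆ Z → T.card ≤ 2 * K := by
    intro T hT
    have h1 := Finset.card_le_mul_card_image (f := f) T 2 (by
      intro a _
      by_contra hlt
      rw [not_le, Finset.two_lt_card] at hlt
      obtain ⟨p, hp, p', hp', p'', hp'', n1, n2, n3⟩ := hlt
      rw [Finset.mem_filter] at hp hp' hp''
      exact h p (hT hp.1) p' (hT hp'.1) p'' (hT hp''.1) n1 n2 n3 (hp.2.trans hp'.2.symm)
        (hp.2.trans hp''.2.symm))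
    refine h1.trans (Nat.mul_le_mul_left 2 ?_)
    have := Finset.card_le_univ (T.image f)
    rwa [Fintype.card_fin] at this
  have hf : Z.Finite := by
    by_contra hinf
    obtain ⟨T, hTZ, hTc⟩ := Set.Infinite.exists_subset_card_eq hinf (2 * K + 1)
    have := hT T hTZ
    omega
  refine ⟨hf, ?_⟩
  rw [Nat.card_coe_set_eq, Set.ncard_eq_toFinset_card Z hf]
  exact hT _ (by rw [Set.Finite.coe_toFinset])

/-- the norm of the determinant -/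
theorem COF_det {k : Type} [NormedField k] (um : ∀ x y : k, ‖x + y‖ ≤ max ‖x‖ ‖y‖) (B : ℝ)
    (x y x' y' x'' y'' : k) (hx : ‖x‖ ≤ B) (hy : ‖y‖ ≤ B)
    (hx' : ‖x'‖ ≤ B) (hy' : ‖y'‖ ≤ B) (hx'' : ‖x''‖ ≤ B) (hy'' : ‖y''‖ ≤ B) :
    ‖(x' - x) * (y'' - y) - (x'' - x) * (y' - y)‖ ≤ B ^ 2 := by
  have hB : 0 ≤ B := (norm_nonneg x).trans hx
  have hs : ∀ a b : k, ‖a‖ ≤ B → ‖b‖ ≤ B → ‖a - b‖ ≤ B := by
    intro a b ha hb
    rw [sub_eq_add_neg]
    refine (um _ _).trans ?_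
    rw [norm_neg]
    exact max_le ha hb
  have hm : ∀ a b : k, ‖a‖ ≤ B → ‖b‖ ≤ B → ‖a * b‖ ≤ B ^ 2 := by
    intro a b ha hb
    rw [norm_mul, pow_two]
    exact mul_le_mul ha hb (norm_nonneg _) hB
  rw [sub_eq_add_neg]
  refine (um _ _).trans ?_
  rw [norm_neg]
  exact max_le (hm _ _ (hs _ _ hx' hx) (hs _ _ hy'' hy)) (hm _ _ (hs _ _ hx'' hx) (hs _ _ hy' hy))

theorem p_COF (hPFB : Stmt_PFB) : Stmt_COF := by
  intro F _ P _ K _ A p₀ c₁ c₂ hc₁ hc₂ hcell hdef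
  classical
  obtain ⟨C₀, hC₀, hcell⟩ := hcell
  refine ⟨2 * C₀ * (1 + C₀ ^ (1 / 3 : ℝ)), by positivity, ?_⟩
  intro μ β hβ Z hZ
  obtain ⟨V, hVdef⟩ : ∃ V : ℝ, V = ∏ p, β p := ⟨_, rfl⟩
  have hV : 0 < V := by
    rw [hVdef]
    exact Finset.prod_pos fun w _ => hβ w
  obtain ⟨X, hXdef⟩ : ∃ X : ℝ, X = C₀ * V ^ 2 := ⟨_, rfl⟩
  have hX0 : 0 ≤ X := by
    rw [hXdef]
    positivity
  obtain ⟨κ, hκdef⟩ : ∃ κ : ℝ, κ = 1 + X ^ (1 / 3 : ℝ) := ⟨_, rfl⟩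
  have hXr0 : 0 ≤ X ^ (1 / 3 : ℝ) := Real.rpow_nonneg hX0 _
  have hκ1 : 1 ≤ κ := by
    rw [hκdef]
    linarith
  have hκ3 : X < κ ^ 3 := by
    have h0 : (X ^ (1 / 3 : ℝ)) ^ 3 = X := by
      rw [← Real.rpow_natCast, ← Real.rpow_mul hX0]
      norm_num
    calc X = (X ^ (1 / 3 : ℝ)) ^ 3 := h0.symm
      _ < κ ^ 3 := pow_lt_pow_left₀ (by rw [hκdef]; linarith) hXr0 (by norm_num)
  obtain ⟨N, cl, hN, hcl⟩ := hcell (A.e p₀ μ) (β p₀) κ (hβ p₀) hκ1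
  obtain ⟨hfin, hcard⟩ := COF_count Z N (fun z => cl (A.e p₀ z.1, A.e p₀ z.2)) (by
    intro z hz z' hz' z'' hz'' n1 n2 n3 k k'
    obtain ⟨hz1, hz2, hze, hzb⟩ := hZ z hz
    obtain ⟨hz1', hz2', hze', hzb'⟩ := hZ z' hz'
    obtain ⟨hz1'', hz2'', hze'', hzb''⟩ := hZ z'' hz''
    obtain ⟨δ, hδ⟩ : ∃ δ : F, δ = (z'.1 - z.1) * (z''.2 - z.2) - (z''.1 - z.1) * (z'.2 - z.2) :=
      ⟨_, rfl⟩
    have hδO : δ ∈ A.O := by
      rw [hδ]
      exact sub_mem (mul_mem (sub_mem hz1' hz1) (sub_mem hz2'' hz2))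
        (mul_mem (sub_mem hz1'' hz1) (sub_mem hz2' hz2))
    have hδ0 : δ ≠ 0 := by
      intro h0
      refine COF_noncol c₁ c₂ μ hdef z.1 z.2 z'.1 z'.2 z''.1 z''.2 hze hze' hze''
        (by rw [← hδ]; exact h0) ?_ ?_ ?_
      · rintro ⟨h, h'⟩
        exact n1 (Prod.ext h.symm h'.symm)
      · rintro ⟨h, h'⟩
        exact n2 (Prod.ext h.symm h'.symm)
      · rintro ⟨h, h'⟩
        exact n3 (Prod.ext h.symm h'.symm)
    have hδp : ∀ p, A.e p δ = (A.e p z'.1 - A.e p z.1) * (A.e p z''.2 - A.e p z.2) -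
        (A.e p z''.1 - A.e p z.1) * (A.e p z'.2 - A.e p z.2) := by
      intro p
      rw [hδ]
      simp only [map_sub, map_mul]
    -- the product formula
    have hlow : 1 ≤ ∏ p, ‖A.e p δ‖ := hPFB F P K A δ hδO hδ0
    -- the place `p₀`
    have hcon : ∀ x y : F, c₁ * x ^ 2 + c₂ * y ^ 2 = μ →
        A.e p₀ c₁ * A.e p₀ x ^ 2 + A.e p₀ c₂ * A.e p₀ y ^ 2 = A.e p₀ μ := by
      intro x y h
      rw [← h]
      simp only [map_add, map_mul, map_pow]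
    have h0 := hcl (A.e p₀ z.1, A.e p₀ z.2) (A.e p₀ z'.1, A.e p₀ z'.2)
      (A.e p₀ z''.1, A.e p₀ z''.2) (hcon _ _ hze) (hcon _ _ hze') (hcon _ _ hze'')
      (hzb p₀).1 (hzb p₀).2 (hzb' p₀).1 (hzb' p₀).2 (hzb'' p₀).1 (hzb'' p₀).2 k k'
    simp only at h0
    rw [← hδp p₀] at h0
    -- the other places
    have hoth : ∏ p ∈ Finset.univ.erase p₀, ‖A.e p δ‖ ≤ ∏ p ∈ Finset.univ.erase p₀, β p ^ 2 := by
      refine Finset.prod_le_prod (fun p _ => norm_nonneg _) fun p _ => ?_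
      rw [hδp p]
      exact COF_det (A.um p) (β p) _ _ _ _ _ _ (hzb p).1 (hzb p).2 (hzb' p).1 (hzb' p).2
        (hzb'' p).1 (hzb'' p).2
    have hsplit : ∏ p ∈ Finset.univ.erase p₀, β p ^ 2 =
        (∏ p ∈ Finset.univ.erase p₀, β p) ^ 2 := by
      rw [Finset.prod_pow]
    have hN2 : ∏ p, ‖A.e p δ‖ = ‖A.e p₀ δ‖ * ∏ p ∈ Finset.univ.erase p₀, ‖A.e p δ‖ :=
      (Finset.mul_prod_erase Finset.univ _ (Finset.mem_univ p₀)).symm
    have hβs : ∏ p, β p = β p₀ * ∏ p ∈ Finset.univ.erase p₀, β p :=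
      (Finset.mul_prod_erase Finset.univ _ (Finset.mem_univ p₀)).symm
    have hup : (∏ p, ‖A.e p δ‖) * κ ^ 3 ≤ X := by
      calc (∏ p, ‖A.e p δ‖) * κ ^ 3 = (‖A.e p₀ δ‖ * κ ^ 3) *
            ∏ p ∈ Finset.univ.erase p₀, ‖A.e p δ‖ := by
            rw [hN2]
            ring
        _ ≤ (C₀ * β p₀ ^ 2) * ∏ p ∈ Finset.univ.erase p₀, β p ^ 2 := by
            refine mul_le_mul h0 hoth (Finset.prod_nonneg fun p _ => norm_nonneg _)
              (by positivity)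
        _ = X := by
            rw [hsplit, hXdef, hVdef, hβs]
            ring
    have hfin : κ ^ 3 ≤ X := by
      calc κ ^ 3 = 1 * κ ^ 3 := (one_mul _).symm
        _ ≤ (∏ p, ‖A.e p δ‖) * κ ^ 3 := mul_le_mul_of_nonneg_right hlow (by positivity)
        _ ≤ X := hup
    exact absurd hfin (not_le.2 hκ3))
  refine ⟨hfin, ?_⟩
  have hXr : X ^ (1 / 3 : ℝ) = C₀ ^ (1 / 3 : ℝ) * V ^ (2 / 3 : ℝ) := by
    rw [hXdef, Real.mul_rpow hC₀.le (by positivity), ← Real.rpow_natCast V 2,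
      ← Real.rpow_mul hV.le]
    norm_num
  have hVr : 0 ≤ V ^ (2 / 3 : ℝ) := Real.rpow_nonneg hV.le _
  have hDr : 0 ≤ C₀ ^ (1 / 3 : ℝ) := Real.rpow_nonneg hC₀.le _
  rw [← hVdef]
  calc (Nat.card Z : ℝ) ≤ ((2 * N : ℕ) : ℝ) := by exact_mod_cast hcard
    _ = 2 * (N : ℝ) := by push_cast; ring
    _ ≤ 2 * (C₀ * κ) := by linarith
    _ = 2 * C₀ * (1 + C₀ ^ (1 / 3 : ℝ) * V ^ (2 / 3 : ℝ)) := by
      rw [hκdef, hXr]
      ring
    _ ≤ 2 * C₀ * ((1 + C₀ ^ (1 / 3 : ℝ)) * (1 + V ^ (2 / 3 : ℝ))) := by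
      refine mul_le_mul_of_nonneg_left ?_ (by positivity)
      nlinarith
    _ = _ := by ring

end Pool.FQ
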