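import Pool.Agent.Work.MP_972ac7_F.Interface

set_option autoImplicit false

/-! # THEOREM FQ (MP_972ac7_al), block CTF: the counting property of the lattice (helper73) -/

open MeasureTheory IsDedekindDomain Polynomial
open scoped Quaternion ENNReal NNReal WithZero

noncomputable section

namespace Pool.FQ

open Pool.PQ Pool.PL Pool.TFD Pool.TC

theorem CTF_prod {P : Type} [Fintype P] [DecidableEq P] (c s Y : ℝ) (p q : P) :
    (∏ r, c * ((if r = p then s else 1) * (if r = q then Y else 1))) =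
      c ^ Fintype.card P * (s * Y) := by
  rw [Finset.prod_mul_distrib, Finset.prod_mul_distrib, Finset.prod_const, Finset.card_univ,
    Finset.prod_ite_eq', Finset.prod_ite_eq']
  simp

theorem CTF_aniso {F : Type} [Field F] {a b : F} (dv : ∀ z : ℍ[F, a, b], nrq z = 0 → z = 0) :
    a ≠ 0 ∧ b ≠ 0 ∧ ∀ x y : F, -a * x ^ 2 + -b * y ^ 2 = 0 → x = 0 ∧ y = 0 := by
  have key : ∀ x y : F, -a * x ^ 2 + -b * y ^ 2 = 0 → x = 0 ∧ y = 0 := by
    intro x y h
    have h1 : nrq (⟨0, x, y, 0⟩ : ℍ[F, a, b]) = 0 := by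
      simp only [nrq]
      linear_combination h
    have h2 := dv _ h1
    exact ⟨congrArg QuaternionAlgebra.imI h2, congrArg QuaternionAlgebra.imJ h2⟩
  refine ⟨?_, ?_, key⟩
  · rintro rfl
    have := (key 1 0 (by simp)).1
    exact one_ne_zero this
  · rintro rfl
    have := (key 0 1 (by simp)).2
    exact one_ne_zero this

theorem CTF_form {F : Type} [Field F] {a b : F} (z : ℍ[F, a, b]) (hz : nrq z = 1) :
    co4 z 0 ^ 2 + -a * co4 z 1 ^ 2 + -b * co4 z 2 ^ 2 + a * b * co4 z 3 ^ 2 = 1 := by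
  change z.re ^ 2 + -a * z.imI ^ 2 + -b * z.imJ ^ 2 + a * b * z.imK ^ 2 = 1
  have h : z.re ^ 2 - a * z.imI ^ 2 - b * z.imJ ^ 2 + a * b * z.imK ^ 2 = 1 := hz
  linear_combination h

theorem p_CTF (hCEF : Stmt_CEF) (hCNF : Stmt_CNF) (hLBF : Stmt_LBF) : Stmt_CTF := by
  classical
  intro F _ P _ K _ ι _ D W v hWv R
  obtain ⟨ha, hb, haniso⟩ := CTF_aniso D.dv
  have hcell : CellF (K (D.pl W)) (D.e (D.pl W) (-D.a)) (D.e (D.pl W) (-D.b)) :=
    hCEF (K (D.pl W)) (D.L (D.pl W)) (D.he (D.pl W)) _ _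
      ((_root_.map_ne_zero _).2 (neg_ne_zero.2 ha)) ((_root_.map_ne_zero _).2 (neg_ne_zero.2 hb))
  obtain ⟨C₁, hC₁, hlb⟩ := hLBF F P K ι D W v hWv R
  have hC₁0 : 0 < C₁ := lt_of_lt_of_le one_pos hC₁
  have hne : D.pl v ≠ D.pl W := fun h => hWv (D.inj h).symm
  obtain ⟨C, hC, hcn⟩ := hCNF F P K D.toAr (D.pl W) (-D.a) (-D.b) (D.a * D.b) (neg_mem D.ha)
    (neg_mem D.hb) (mul_mem D.ha D.hb) hcell haniso (C₁ ^ Fintype.card P) (one_le_pow₀ hC₁)
  refine ⟨C, hC, fun g hg Q Y hQ hY => ?_⟩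
  have hQ0 : 0 < Q := lt_of_lt_of_le one_pos hQ
  have hY0 : 0 < Y := lt_of_lt_of_le one_pos hY
  set β₁ : P → ℝ := fun p => C₁ * ((if p = D.pl v then Q⁻¹ else 1) *
    (if p = D.pl W then Y else 1)) with hβ₁
  set β₂ : P → ℝ := fun p => C₁ * ((if p = D.pl v then (Q ^ 2)⁻¹ else 1) *
    (if p = D.pl W then Y else 1)) with hβ₂
  have b1v : β₁ (D.pl v) = C₁ / Q := by
    simp only [hβ₁, if_true, if_neg hne, mul_one, div_eq_mul_inv]
  have b2v : β₂ (D.pl v) = C₁ / Q ^ 2 := by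
    simp only [hβ₂, if_true, if_neg hne, mul_one, div_eq_mul_inv]
  have b1W : β₁ (D.pl W) = C₁ * Y := by
    simp only [hβ₁, if_true, if_neg hne.symm, one_mul]
  have b2W : β₂ (D.pl W) = C₁ * Y := by
    simp only [hβ₂, if_true, if_neg hne.symm, one_mul]
  have b1 : ∀ p, p ≠ D.pl v → p ≠ D.pl W → β₁ p = C₁ := fun p h h' => by
    simp only [hβ₁, if_neg h, if_neg h', mul_one]
  have b2 : ∀ p, p ≠ D.pl v → p ≠ D.pl W → β₂ p = C₁ := fun p h h' => by
    simp only [hβ₂, if_neg h, if_neg h', mul_one]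
  have h1p : ∀ p, 0 < β₁ p := by
    intro p
    by_cases h : p = D.pl v
    · rw [h, b1v]; positivity
    · by_cases h' : p = D.pl W
      · rw [h', b1W]; positivity
      · rw [b1 p h h']; exact hC₁0
  have h2p : ∀ p, 0 < β₂ p := by
    intro p
    by_cases h : p = D.pl v
    · rw [h, b2v]; positivity
    · by_cases h' : p = D.pl W
      · rw [h', b2W]; positivity
      · rw [b2 p h h']; exact hC₁0
  have hv1 : (∏ p, β₁ p) * Q ≤ C₁ ^ Fintype.card P * Y := by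
    rw [hβ₁, CTF_prod]
    apply le_of_eq
    field_simp
  have hv2 : (∏ p, β₂ p) * Q ^ 2 ≤ C₁ ^ Fintype.card P * Y := by
    rw [hβ₂, CTF_prod]
    apply le_of_eq
    field_simp
  set Z : Set (Fin 4 → F) := {y | (∀ j, y j ∈ D.O) ∧
    y 0 ^ 2 + -D.a * y 1 ^ 2 + -D.b * y 2 ^ 2 + D.a * D.b * y 3 ^ 2 = 1 ∧
    (∀ p, ‖D.e p (y 0 - 1)‖ ≤ β₂ p) ∧ ∀ j, j ≠ 0 → ∀ p, ‖D.e p (y j)‖ ≤ β₁ p} with hZ
  obtain ⟨hfin, hcard⟩ := hcn β₁ β₂ Q Y h1p h2p hQ hY hv1 hv2 Z (fun y hy => hy)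
  have key : ∀ γ : cs D.Lk D.Γ W v R g Q Y, ∃ z : unitary ℍ[F, D.a, D.b],
      D.Th z = ((γ : D.Γ) : GG D.k) ∧ co4 z.1 ∈ Z := by
    rintro ⟨⟨γ, hγ⟩, h1, h2, h3⟩
    obtain ⟨z, hzU, rfl⟩ := Subgroup.mem_map.1 hγ
    have ev : (D.Lk v).e = 1 := D.he (D.pl v)
    have eW : (D.Lk W).e = 1 := D.he (D.pl W)
    rw [ev, pow_one] at h1
    rw [eW, pow_one] at h2
    obtain ⟨l1, l2, l3, l4⟩ := hlb g hg Q Y hQ hY z hzU h1 h2 h3
    refine ⟨z, rfl, hzU, CTF_form z.1 ((mem_unitary_iff_nrq z.1).1 z.2), ?_, ?_⟩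
    · have hone : ∀ p, ‖D.e p (-1 : F)‖ = 1 := fun p => by
        rw [map_neg, norm_neg, map_one, norm_one]
      have hmax : ∀ p, ‖D.e p (co4 z.1 0 - 1)‖ ≤ max ‖D.e p (co4 z.1 0)‖ 1 := fun p => by
        have := D.um p (D.e p (co4 z.1 0)) (D.e p (-1))
        rw [← map_add, hone p, ← sub_eq_add_neg] at this
        exact this
      intro p
      by_cases h : p = D.pl v
      · rw [h, b2v, le_div_iff₀ (by positivity)]
        exact l1
      · by_cases h' : p = D.pl W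
        · rw [h', b2W]
          refine le_trans (hmax _) (max_le (l3 0) ?_)
          calc (1 : ℝ) = 1 * 1 := by ring
            _ ≤ C₁ * Y := mul_le_mul hC₁ hY zero_le_one hC₁0.le
        · rw [b2 p h h']
          exact le_trans (hmax _) (max_le (l4 p h h' 0) hC₁)
    · intro j hj p
      by_cases h : p = D.pl v
      · rw [h, b1v, le_div_iff₀ hQ0]
        exact l2 j hj
      · by_cases h' : p = D.pl W
        · rw [h', b1W]
          exact l3 j
        · rw [b1 p h h']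
          exact l4 p h h' j
  choose zf h1 h2 using key
  have hinj : Function.Injective (fun γ : cs D.Lk D.Γ W v R g Q Y => (⟨co4 (zf γ).1, h2 γ⟩ : Z)) := by
    intro γ γ' h
    have h4 : co4 (zf γ).1 = co4 (zf γ').1 := congrArg Subtype.val h
    have h7 : (zf γ).1 = (zf γ').1 := co4_ext fun j => congrFun h4 j
    have h8 : zf γ = zf γ' := Subtype.ext h7
    apply Subtype.ext
    apply Subtype.ext
    rw [← h1 γ, ← h1 γ', h8]
  have hZf : Finite Z := hfin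
  have hcf : Finite (cs D.Lk D.Γ W v R g Q Y) := Finite.of_injective _ hinj
  refine ⟨Set.toFinite _, le_trans ?_ hcard⟩
  exact_mod_cast Nat.card_le_card_of_injective _ hinj

end Pool.FQ
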