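import Pool.Agent.Work.MP_972ac7_F.Interface

set_option autoImplicit false

/-! # Block CVF (helper68): the first coordinate near 1 -/

open MeasureTheory IsDedekindDomain Polynomial
open scoped Quaternion ENNReal NNReal WithZero

noncomputable section

namespace Pool.FQ

open Pool.PQ Pool.PL Pool.TFD Pool.TC

theorem p_CVF : Stmt_CVF := by
  intro k _ h2 c₁ c₂ c₃ C₁ hC₁
  have h2' : 0 < ‖(2 : k)‖ := norm_pos_iff.2 h2
  set κ : ℝ := ‖(2 : k)‖ / 2 with hκ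
  have hκ0 : 0 < κ := by positivity
  set S : ℝ := ‖c₁‖ + ‖c₂‖ + ‖c₃‖ with hS
  have n1 := norm_nonneg c₁
  have n2 := norm_nonneg c₂
  have n3 := norm_nonneg c₃
  have hS0 : 0 ≤ S := by positivity
  refine ⟨(S + 1) * C₁ ^ 2 / κ, by positivity, ?_⟩
  intro y Q hQ hy h0 hi
  have hQ0 : 0 < Q := by linarith
  have e1 : ‖y 0 - 1‖ * ‖y 0 + 1‖ ≤ S * (C₁ / Q) ^ 2 := by
    rw [← norm_mul]
    have e : (y 0 - 1) * (y 0 + 1) = -(c₁ * y 1 ^ 2 + (c₂ * y 2 ^ 2 + c₃ * y 3 ^ 2)) := by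
      linear_combination hy
    rw [e, norm_neg]
    have hb : ∀ i : Fin 4, i ≠ 0 → ∀ c : k, ‖c * y i ^ 2‖ ≤ ‖c‖ * (C₁ / Q) ^ 2 := by
      intro i hi0 c
      rw [norm_mul, norm_pow]
      have h1 : ‖y i‖ ≤ C₁ / Q := by
        rw [le_div_iff₀ hQ0]
        exact hi i hi0
      exact mul_le_mul_of_nonneg_left (pow_le_pow_left₀ (norm_nonneg _) h1 2) (norm_nonneg c)
    have b1 := hb 1 (by decide) c₁
    have b2 := hb 2 (by decide) c₂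
    have b3 := hb 3 (by decide) c₃
    have m1 := norm_add_le (c₁ * y 1 ^ 2) (c₂ * y 2 ^ 2 + c₃ * y 3 ^ 2)
    have m2 := norm_add_le (c₂ * y 2 ^ 2) (c₃ * y 3 ^ 2)
    calc ‖c₁ * y 1 ^ 2 + (c₂ * y 2 ^ 2 + c₃ * y 3 ^ 2)‖
        ≤ ‖c₁‖ * (C₁ / Q) ^ 2 + (‖c₂‖ * (C₁ / Q) ^ 2 + ‖c₃‖ * (C₁ / Q) ^ 2) := by linarith
      _ = S * (C₁ / Q) ^ 2 := by rw [hS]; ring
  have hx := norm_nonneg (y 0 - 1)
  rcases lt_or_ge ‖y 0 - 1‖ κ with h | h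
  · have e2 : κ ≤ ‖y 0 + 1‖ := by
      have m1 := norm_add_le (y 0 + 1) (-(y 0 - 1))
      rw [norm_neg, show y 0 + 1 + -(y 0 - 1) = (2 : k) by ring] at m1
      rw [hκ] at h ⊢
      linarith
    have e3 : ‖y 0 - 1‖ * κ ≤ S * (C₁ / Q) ^ 2 :=
      (mul_le_mul_of_nonneg_left e2 hx).trans e1
    rw [le_div_iff₀ hκ0]
    have e4 : ‖y 0 - 1‖ * Q ^ 2 * κ ≤ S * (C₁ / Q) ^ 2 * Q ^ 2 := by
      have := mul_le_mul_of_nonneg_right e3 (by positivity : 0 ≤ Q ^ 2)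
      linarith
    have e5 : S * (C₁ / Q) ^ 2 * Q ^ 2 = S * C₁ ^ 2 := by
      field_simp
    rw [e5] at e4
    have : 0 ≤ C₁ ^ 2 := by positivity
    linarith
  · rw [le_div_iff₀ hκ0]
    have e2 : κ * Q ≤ C₁ := (mul_le_mul_of_nonneg_right h hQ0.le).trans h0
    have e3 : ‖y 0 - 1‖ * Q ^ 2 * κ = (‖y 0 - 1‖ * Q) * (κ * Q) := by ring
    rw [e3]
    have e4 : (‖y 0 - 1‖ * Q) * (κ * Q) ≤ C₁ * C₁ :=
      mul_le_mul h0 e2 (by positivity) hC₁.le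
    have : 0 ≤ S * C₁ ^ 2 := by positivity
    linarith

end Pool.FQ
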