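import Pool.Agent.Work.MP_972ac7_F.Interface
import Pool.Agent.Work.MP_972ac7_C.B_QUF

set_option autoImplicit false

/-! # Block ENF -/

open MeasureTheory IsDedekindDomain Polynomial
open scoped Quaternion ENNReal NNReal WithZero

noncomputable section

namespace Pool.FQ

open Pool.PQ Pool.PL Pool.TFD Pool.TC

theorem p_ENF (hCTF : Stmt_CTF) (hCKF : Stmt_CKF) (hINF : Stmt_INF) : Stmt_ENF := by
  classical
  intro hPGG hFNQ F _ P _ K _ _ ι _ D hnt
  have hF : Fintype ι := Fintype.ofFinite _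
  have hne : Nonempty P := hnt.to_nonempty.map D.pl
  have hP : ∀ i, ProperSpace (D.k i) := fun i => inferInstanceAs (ProperSpace (K (D.pl i)))
  have hlat : LatG D.Lk D.Γ :=
    { cpt := hCKF hPGG F P K ι D
      count := fun W v hWv R => hCTF F P K ι D W v hWv R }
  have hg : FTGap D.Γ := hFNQ ι D.k D.Lk D.Γ hnt hlat
  obtain ⟨E⟩ := (hINF F P K ι D hnt.to_nonempty).2
  exact p_QUF D.Γ D.G E.toMonoidHom E.surjective hg

end Pool.FQ
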