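import Pool.Agent.Work.MP_972ac7_F.FA_Oi
import Pool.Agent.Work.MP_972ac7_Q.Interface2

set_option autoImplicit false
set_option linter.unusedSectionVars false

/-! # MP_972ac7_al, positive characteristic: the arithmetic data of a function field -/

open IsDedekindDomain HeightOneSpectrum WithZeroMulInt Polynomial
open scoped NNReal WithZero

noncomputable section

namespace Pool.FQ

open Pool.PL Pool.PQ

theorem FA_end (hLFG : Stmt_LFG) (Fq : Type) [Field Fq] [Finite Fq] (F : Type) [Field F]
    [Algebra (RatFunc Fq) F] [Algebra Fq[X] F] [IsScalarTower Fq[X] (RatFunc Fq) F]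
    [FunctionField Fq F] [Algebra.IsSeparable (RatFunc Fq) F] (h2 : (2 : Fq) ≠ 0) :
    ∃ (_ : Fintype (Pinf Fq F)) (A : Ar F (Pinf Fq F) (KW F)), A.O = Oi Fq F ∧
      (∀ w x, A.e w x = em F w x) ∧
      ∀ w : Pinf Fq F, ProperSpace (KW F w) ∧ Nonempty (LocF (KW F w)) ∧ (2 : KW F w) ≠ 0 := by
  have hP := pi_fin Fq F
  have hPf : Fintype (Pinf Fq F) := Fintype.ofFinite _
  have h2F : (2 : F) ≠ 0 := by
    have h := (map_ne_zero ((algebraMap (RatFunc Fq) F).comp (RatFunc.C (K := Fq)))).2 h2
    rwa [map_ofNat] at h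
  have hL : ∀ w : Pinf Fq F, ∃ L : LG (KW F w), L.e = 1 := fun w => by
    obtain ⟨L, _⟩ := KW_loc F w
    exact hLFG (KW F w) L (KW_two w h2F)
  choose L hL using hL
  refine ⟨hPf, { O := Oi Fq F
                 e := em F
                 L := L
                 he := hL
                 um := fun w x y => IsUltrametricDist.norm_add_le_max x y
                 fin := oi_fin Fq
                 many := oi_many Fq }, rfl, fun w x => rfl, fun w => ?_⟩
  obtain ⟨L', _⟩ := KW_loc F w
  exact ⟨inferInstance, ⟨L'⟩, KW_two w h2F⟩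

end Pool.FQ
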