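import Pool.Agent.Work.MP_972ac7_F.Interface
import Pool.Agent.Work.MP_972ac7_F.FA_End
import Pool.Agent.Work.MP_972ac7_Q.B_LFG

set_option autoImplicit false

/-! # Block FFA: the arithmetic data of a function field (helper16) -/

noncomputable section

namespace Pool.FQ

theorem p_FFA : Stmt_FFA := by
  intro Fq _ _ F _ _ _ _ _ _ h2
  exact FA_end Pool.PQ.p_LFG Fq F h2

end Pool.FQ
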