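import Pool.Agent.Work.MP_972ac7_F.Interface
import Pool.Agent.Work.MP_972ac7_C.B_QUF

set_option autoImplicit false

/-! # Block GPF -/

open MeasureTheory IsDedekindDomain Polynomial
open scoped Quaternion ENNReal NNReal WithZero

noncomputable section

namespace Pool.FQ

open Pool.PQ Pool.PL Pool.TFD Pool.TC

theorem GPF_cast {F : Type} [Field F] {O O' : Subring F} {a a' b b' : F} (hO : O = O')
    (hA : a = a') (hB : b = b') (ha : a ∈ O) (hb : b ∈ O) (ha' : a' ∈ O') (hb' : b' ∈ O') :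
    Nonempty (GOs O ha hb ≃* GOs O' ha' hb') := by
  subst hO hA hB
  exact ⟨MulEquiv.refl _⟩

theorem p_GPF (hENF : Stmt_ENF) (hQDF : Stmt_QDF) (hISF : Stmt_ISF) : Stmt_GPF := by
  intro hPGG hFNQ Fq _ _ F _ _ _ _ _ _ h2 a b hdv hpq
  have ha : (a : F) ∈ Oi Fq F := a.2
  have hb : (b : F) ∈ Oi Fq F := b.2
  obtain ⟨hP, hfin, D, hO, hDa, hDb⟩ := hQDF Fq F h2 a b ha hb hdv
  have hnt : Nontrivial {w : Pinf Fq F // SplF (a : F) (b : F) w} := by
    obtain ⟨p, q, hne, hp, hq⟩ := hpq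
    exact ⟨⟨⟨p, hp⟩, ⟨q, hq⟩, fun h => hne (congrArg Subtype.val h)⟩⟩
  have hfi : Finite {w : Pinf Fq F // SplF (a : F) (b : F) w} := inferInstance
  have hg : FTGap D.G :=
    hENF hPGG hFNQ F (Pinf Fq F) (KW F) {w : Pinf Fq F // SplF (a : F) (b : F) w} D hnt
  obtain ⟨E1⟩ := hISF Fq F a b ha hb
  obtain ⟨E2⟩ := GPF_cast hO hDa hDb D.ha D.hb ha hb
  have E : D.G ≃* unitary ℍ[FunctionField.ringOfIntegers Fq F, a, b] := E2.trans E1.symm
  exact p_QUF D.G (unitary ℍ[FunctionField.ringOfIntegers Fq F, a, b]) E.toMonoidHom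
    E.surjective hg

end Pool.FQ
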