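import Pool.Agent.Work.MP_972ac7_F.Interface2

/-! MP_972ac7_al, block HNF: Hensel for squares. -/

set_option autoImplicit false

open Set

noncomputable section

namespace Pool.FQ

theorem HNF_sqrt {k : Type} [NormedField k] [IsUltrametricDist k] [CompleteSpace k]
    (h2 : ‖(2 : k)‖ = 1) (c : k) (hc : ‖c‖ < 1) : ∃ z : k, ‖z‖ ≤ ‖c‖ ∧ z ^ 2 + 2 * z = c := by
  have h20 : (2 : k) ≠ 0 := by
    intro h
    rw [h, norm_zero] at h2
    exact zero_ne_one h2
  set f : k → k := fun z => (c - z ^ 2) / 2 with hf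
  have hmaps : MapsTo f (Metric.closedBall 0 ‖c‖) (Metric.closedBall 0 ‖c‖) := by
    intro z hz
    rw [mem_closedBall_zero_iff] at hz ⊢
    rw [hf]
    simp only
    rw [norm_div, h2, div_one]
    have h1 : ‖c - z ^ 2‖ ≤ max ‖c‖ ‖z ^ 2‖ := by
      rw [sub_eq_add_neg]
      refine (IsUltrametricDist.norm_add_le_max c (-z ^ 2)).trans ?_
      rw [norm_neg]
    refine h1.trans (max_le le_rfl ?_)
    rw [norm_pow]
    have h0 := norm_nonneg z
    nlinarith
  have hcontr : ContractingWith ‖c‖₊ (hmaps.restrict f _ _) := by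
    refine ⟨by exact_mod_cast hc, ?_⟩
    refine LipschitzWith.of_dist_le_mul (fun z w => ?_)
    rw [Subtype.dist_eq, Subtype.dist_eq, MapsTo.val_restrict_apply, MapsTo.val_restrict_apply,
      dist_eq_norm, dist_eq_norm, coe_nnnorm]
    have hz := z.2
    have hw := w.2
    rw [mem_closedBall_zero_iff] at hz hw
    have e : f z.1 - f w.1 = (w.1 + z.1) * (w.1 - z.1) / 2 := by
      rw [hf]
      ring
    rw [e, norm_div, h2, div_one, norm_mul, norm_sub_rev w.1 z.1]
    refine mul_le_mul_of_nonneg_right ?_ (norm_nonneg _)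
    exact (IsUltrametricDist.norm_add_le_max w.1 z.1).trans (max_le hw hz)
  obtain ⟨y, hy, hfix, -⟩ := hcontr.exists_fixedPoint' (Metric.isClosed_closedBall.isComplete)
    hmaps (mem_closedBall_zero_iff.mpr (by simp) : (0 : k) ∈ Metric.closedBall 0 ‖c‖)
    (edist_ne_top _ _)
  refine ⟨y, mem_closedBall_zero_iff.mp hy, ?_⟩
  have h3 : (c - y ^ 2) / 2 = y := hfix
  rw [div_eq_iff h20] at h3
  linear_combination -h3

theorem HNF_main {k : Type} [NormedField k] [IsUltrametricDist k] [CompleteSpace k]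
    (h2 : ‖(2 : k)‖ = 1) (a b x y : k) (h : ‖x ^ 2 - a * y ^ 2 - b‖ < ‖b‖) :
    ∃ x' y' : k, x' ^ 2 - a * y' ^ 2 = b := by
  have hb : b ≠ 0 := by
    intro hb
    rw [hb, norm_zero] at h
    exact absurd h (not_lt.mpr (norm_nonneg _))
  have hb' : 0 < ‖b‖ := norm_pos_iff.mpr hb
  obtain ⟨z, hz, hzc⟩ := HNF_sqrt h2 ((x ^ 2 - a * y ^ 2 - b) / b) (by
    rw [norm_div, div_lt_one hb']
    exact h)
  have hc : ‖(x ^ 2 - a * y ^ 2 - b) / b‖ < 1 := by
    rw [norm_div, div_lt_one hb']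
    exact h
  have hs : (1 + z) ≠ 0 := by
    intro h0
    have h1 : z = -1 := by linear_combination h0
    rw [h1, norm_neg, norm_one] at hz
    linarith
  refine ⟨x / (1 + z), y / (1 + z), ?_⟩
  have h4 : (1 + z) ^ 2 * b = x ^ 2 - a * y ^ 2 := by
    have h5 : (1 + z) ^ 2 = 1 + (x ^ 2 - a * y ^ 2 - b) / b := by
      linear_combination hzc
    rw [h5, add_mul, div_mul_cancel₀ _ hb]
    ring
  have h6 : (1 + z) ^ 2 ≠ 0 := pow_ne_zero 2 hs
  rw [div_pow, div_pow, mul_div_assoc', ← sub_div, div_eq_iff h6, ← h4]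
  ring

theorem p_HNF : Stmt_HNF := by
  intro k _ _ _ h2 a b x y h
  exact HNF_main h2 a b x y h

end Pool.FQ
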