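import Pool.Agent.Work.MP_972ac7_F.Interface

set_option autoImplicit false

/-! # Block INF (helper31; after block INQ of part Q): the embedding is injective -/

open MeasureTheory IsDedekindDomain Polynomial
open scoped Quaternion ENNReal NNReal WithZero

noncomputable section

namespace Pool.FQ

open Pool.PQ Pool.PL Pool.TFD Pool.TC

theorem INF_aux {k : Type} [Field k] (two : (2 : k) ≠ 0) {a b x y r i j l : k} (ha : a ≠ 0)
    (hb : b ≠ 0) (h : x ^ 2 - a * y ^ 2 = b) (h1 : r + j * x + l * (a * y) = 0)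
    (h2 : a * i - j * (a * y) - l * (a * x) = 0) (h3 : i + j * y + l * x = 0)
    (h4 : r - j * x - l * (a * y) = 0) : r = 0 ∧ i = 0 ∧ j = 0 ∧ l = 0 := by
  have e1 : r = 0 := by
    have : 2 * r = 0 := by linear_combination h1 + h4
    exact (mul_eq_zero.1 this).resolve_left two
  have e2 : i = 0 := by
    have : 2 * a * i = 0 := by linear_combination h2 + a * h3
    rcases mul_eq_zero.1 this with h5 | h5
    · exact absurd h5 (mul_ne_zero two ha)
    · exact h5
  subst e1
  subst e2
  have e3 : j = 0 := by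
    have : b * j = 0 := by linear_combination x * h1 - a * y * h3 - j * h
    exact (mul_eq_zero.1 this).resolve_left hb
  have e4 : l = 0 := by
    have : b * l = 0 := by linear_combination x * h3 - y * h1 - l * h
    exact (mul_eq_zero.1 this).resolve_left hb
  exact ⟨rfl, rfl, e3, e4⟩

theorem INF_mq {F k : Type} [Field F] [NormedField k] (two : (2 : k) ≠ 0) (e : F →+* k) {a b : F}
    {x y : k} (ha : a ≠ 0) (hb : b ≠ 0) (h : x ^ 2 - e a * y ^ 2 = e b) (z w : ℍ[F, a, b])
    (hzw : mq e x y z = mq e x y w) : z = w := by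
  have h0 : mq e x y (z - w) = 0 := by rw [mq_sub, hzw, sub_self]
  have h1 := congrFun (congrFun h0 0) 0
  have h2 := congrFun (congrFun h0 0) 1
  have h3 := congrFun (congrFun h0 1) 0
  have h4 := congrFun (congrFun h0 1) 1
  simp only [mq, Matrix.of_apply, Matrix.cons_val', Matrix.cons_val_zero, Matrix.cons_val_one,
    Matrix.zero_apply, Matrix.cons_val_fin_one] at h1 h2 h3 h4
  obtain ⟨e1, e2, e3, e4⟩ := INF_aux two ((map_ne_zero e).2 ha) ((map_ne_zero e).2 hb) h h1 h2 h3 h4
  have i := e.injective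
  rw [map_eq_zero] at e1 e2 e3 e4
  have hz : z - w = 0 := by
    ext
    · exact e1
    · exact e2
    · exact e3
    · exact e4
  exact sub_eq_zero.1 hz

theorem p_INF : Stmt_INF := by
  intro F _ P _ K _ ι D hι
  obtain ⟨i⟩ := hι
  have ha : (D.a : F) ≠ 0 := by
    intro h
    have h1 := D.dv ⟨0, 1, 0, 0⟩ (by simp [nrq, h])
    have h2 := congrArg QuaternionAlgebra.imI h1
    simp at h2
  have hb : (D.b : F) ≠ 0 := by
    intro h
    have h1 := D.dv ⟨0, 0, 1, 0⟩ (by simp [nrq, h])
    have h2 := congrArg QuaternionAlgebra.imJ h1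
    simp at h2
  have hinj : Function.Injective D.Th := by
    intro z w hzw
    have h1 := congrFun hzw i
    have h2 : mq (D.e (D.pl i)) (D.x i) (D.y i) z.1 = mq (D.e (D.pl i)) (D.x i) (D.y i) w.1 :=
      congrArg Subtype.val h1
    exact Subtype.ext (INF_mq (D.L (D.pl i)).two_ne (D.e (D.pl i)) ha hb (D.spl i) z.1 w.1 h2)
  exact ⟨hinj, ⟨(D.G.equivMapOfInjective D.Th hinj).symm⟩⟩

end Pool.FQ
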