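import Pool.Agent.Work.MP_972ac7_F.Interface
import Pool.Agent.Work.MP_972ac7_P.B_ISO

set_option autoImplicit false

open MeasureTheory IsDedekindDomain Polynomial
open scoped Quaternion ENNReal NNReal WithZero

noncomputable section

namespace Pool.FQ

open Pool.PQ Pool.PL Pool.TFD Pool.TC

/-- the inclusion of the ring of integers -/
def ISF_phi (Fq : Type) [Field Fq] (F : Type) [Field F] [Algebra Fq[X] F] :
    FunctionField.ringOfIntegers Fq F →+* F :=
  (FunctionField.ringOfIntegers Fq F).val.toRingHom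

theorem ISF_phi_apply (Fq : Type) [Field Fq] (F : Type) [Field F] [Algebra Fq[X] F]
    (x : FunctionField.ringOfIntegers Fq F) : ISF_phi Fq F x = (x : F) := rfl

theorem ISF_phi_inj (Fq : Type) [Field Fq] (F : Type) [Field F] [Algebra Fq[X] F] :
    Function.Injective (ISF_phi Fq F) := fun _ _ h => Subtype.ext h

theorem p_ISF : Stmt_ISF := by
  intro Fq _ F _ _ a b ha hb
  have ea : ISF_phi Fq F a = (a : F) := rfl
  have eb : ISF_phi Fq F b = (b : F) := rfl
  let M : ℍ[FunctionField.ringOfIntegers Fq F, a, b] → ℍ[F, (a : F), (b : F)] :=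
    ISO_map (ISF_phi Fq F) _ _ (a : F) (b : F)
  have hMu : ∀ z : ℍ[FunctionField.ringOfIntegers Fq F, a, b],
      z ∈ unitary ℍ[FunctionField.ringOfIntegers Fq F, a, b] →
      M z ∈ unitary ℍ[F, (a : F), (b : F)] := by
    intro z hz
    rw [mem_unitary_iff_nrq] at hz ⊢
    change nrq (ISO_map (ISF_phi Fq F) _ _ (a : F) (b : F) z) = 1
    rw [ISO_map_nrq _ _ _ _ _ ea eb, hz, map_one]
  let Ψ : unitary ℍ[FunctionField.ringOfIntegers Fq F, a, b] →* GOs (Oi Fq F) ha hb :=
    { toFun := fun z => ⟨⟨M z.1, hMu z.1 z.2⟩, by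
        rw [mem_GOs]
        intro j
        fin_cases j
        · exact z.1.re.2
        · exact z.1.imI.2
        · exact z.1.imJ.2
        · exact z.1.imK.2⟩
      map_one' := by
        apply Subtype.ext
        apply Subtype.ext
        exact ISO_map_one _ _ _ _ _
      map_mul' := by
        intro z w
        apply Subtype.ext
        apply Subtype.ext
        exact ISO_map_mul _ _ _ _ _ ea eb _ _ }
  have hbij : Function.Bijective Ψ := by
    constructor
    · intro z w h
      have h1 : M z.1 = M w.1 := congrArg (fun t => t.1.1) h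
      exact Subtype.ext (ISO_map_inj _ _ _ _ _ (ISF_phi_inj Fq F) h1)
    · rintro ⟨⟨z, hz⟩, hzG⟩
      have hG : ∀ j, co4 z j ∈ Oi Fq F := hzG
      let z' : ℍ[FunctionField.ringOfIntegers Fq F, a, b] :=
        ⟨⟨z.re, hG 0⟩, ⟨z.imI, hG 1⟩, ⟨z.imJ, hG 2⟩, ⟨z.imK, hG 3⟩⟩
      have hz' : M z' = z := QuaternionAlgebra.ext rfl rfl rfl rfl
      have hzu : z' ∈ unitary ℍ[FunctionField.ringOfIntegers Fq F, a, b] := by
        rw [mem_unitary_iff_nrq]
        apply ISF_phi_inj Fq F
        rw [map_one, ← ISO_map_nrq (ISF_phi Fq F) _ _ (a : F) (b : F) ea eb]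
        change nrq (M z') = 1
        rw [hz']
        exact (mem_unitary_iff_nrq _).1 hz
      exact ⟨⟨z', hzu⟩, Subtype.ext (Subtype.ext hz')⟩
  exact ⟨MulEquiv.ofBijective Ψ hbij⟩

end Pool.FQ
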