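import Pool.Agent.Work.MP_972ac7_F.Interface

set_option autoImplicit false

/-! # THEOREM FQ: block LBF, local bounds of the coordinates -/

open MeasureTheory IsDedekindDomain Polynomial
open scoped Quaternion ENNReal NNReal WithZero

noncomputable section

namespace Pool.FQ

open Pool.PQ Pool.PL Pool.TFD Pool.TC

theorem LBF_conj {k : Type} [NormedField k] (g : SL2 k) (m : Matrix (Fin 2) (Fin 2) k) {R : ℝ}
    (h : nm g ≤ R) : mnm m ≤ 4 * R ^ 2 *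
      mnm ((g : Matrix (Fin 2) (Fin 2) k) * m * ((g⁻¹ : SL2 k) : Matrix (Fin 2) (Fin 2) k)) := by
  obtain ⟨M, hM⟩ : ∃ M, M = (g : Matrix (Fin 2) (Fin 2) k) * m *
    ((g⁻¹ : SL2 k) : Matrix (Fin 2) (Fin 2) k) := ⟨_, rfl⟩
  have h1 : ((g⁻¹ : SL2 k) : Matrix (Fin 2) (Fin 2) k) * (g : Matrix (Fin 2) (Fin 2) k) = 1 := by
    rw [← Matrix.SpecialLinearGroup.coe_mul, inv_mul_cancel, Matrix.SpecialLinearGroup.coe_one]
  have h2 : ((g⁻¹ : SL2 k) : Matrix (Fin 2) (Fin 2) k) * M *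
      (g : Matrix (Fin 2) (Fin 2) k) = m := by
    have e1 : ((g⁻¹ : SL2 k) : Matrix (Fin 2) (Fin 2) k) * M * (g : Matrix (Fin 2) (Fin 2) k) =
        (((g⁻¹ : SL2 k) : Matrix (Fin 2) (Fin 2) k) * (g : Matrix (Fin 2) (Fin 2) k)) * m *
        (((g⁻¹ : SL2 k) : Matrix (Fin 2) (Fin 2) k) * (g : Matrix (Fin 2) (Fin 2) k)) := by
      rw [hM]
      simp only [mul_assoc]
    rw [e1, h1, one_mul, mul_one]
  rw [← hM]
  have h3 : mnm ((g⁻¹ : SL2 k) : Matrix (Fin 2) (Fin 2) k) ≤ R := by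
    have h4 := nm_inv g
    unfold nm at h4 h
    rw [h4]
    exact h
  have h5 : mnm (g : Matrix (Fin 2) (Fin 2) k) ≤ R := h
  have hR : 0 ≤ R := (nm_nonneg g).trans h
  have hM0 := mnm_nonneg M
  have h6 : mnm (((g⁻¹ : SL2 k) : Matrix (Fin 2) (Fin 2) k) * M) ≤ 2 * (R * mnm M) :=
    (mnm_mul_le2 _ _).trans (mul_le_mul_of_nonneg_left (mul_le_mul_of_nonneg_right h3 hM0)
      (by norm_num))
  calc mnm m = mnm (((g⁻¹ : SL2 k) : Matrix (Fin 2) (Fin 2) k) * M *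
        (g : Matrix (Fin 2) (Fin 2) k)) := by rw [h2]
    _ ≤ 2 * (mnm (((g⁻¹ : SL2 k) : Matrix (Fin 2) (Fin 2) k) * M) *
        mnm (g : Matrix (Fin 2) (Fin 2) k)) := mnm_mul_le2 _ _
    _ ≤ 2 * ((2 * (R * mnm M)) * R) :=
        mul_le_mul_of_nonneg_left (mul_le_mul h6 h5 (mnm_nonneg _)
          (mul_nonneg (by norm_num) (mul_nonneg hR hM0))) (by norm_num)
    _ = 4 * R ^ 2 * mnm M := by ring

theorem LBF_sub {F : Type} [Field F] {a b : F} (z : ℍ[F, a, b]) :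
    co4 (z - 1) 0 = co4 z 0 - 1 ∧ ∀ j, j ≠ 0 → co4 (z - 1) j = co4 z j := by
  refine ⟨?_, fun j hj => ?_⟩
  · change (z - 1).re = z.re - 1
    simp
  · fin_cases j
    · exact absurd rfl hj
    · change (z - 1).imI = z.imI
      simp
    · change (z - 1).imJ = z.imJ
      simp
    · change (z - 1).imK = z.imK
      simp

theorem LBF_a {F : Type} [Field F] {a b : F} (dv : ∀ z : ℍ[F, a, b], nrq z = 0 → z = 0) :
    a ≠ 0 := by
  intro h
  have h1 := dv (⟨0, 1, 0, 0⟩ : ℍ[F, a, b]) (by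
    unfold nrq
    change (0 : F) ^ 2 - a * 1 ^ 2 - b * 0 ^ 2 + a * b * 0 ^ 2 = 0
    rw [h]
    ring)
  have h2 := congrArg (fun z : ℍ[F, a, b] => z.imI) h1
  change (1 : F) = 0 at h2
  exact one_ne_zero h2

theorem LBF_b {F : Type} [Field F] {a b : F} (dv : ∀ z : ℍ[F, a, b], nrq z = 0 → z = 0) :
    b ≠ 0 := by
  intro h
  have h1 := dv (⟨0, 0, 1, 0⟩ : ℍ[F, a, b]) (by
    unfold nrq
    change (0 : F) ^ 2 - a * 0 ^ 2 - b * 1 ^ 2 + a * b * 0 ^ 2 = 0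
    rw [h]
    ring)
  have h2 := congrArg (fun z : ℍ[F, a, b] => z.imJ) h1
  change (1 : F) = 0 at h2
  exact one_ne_zero h2

theorem p_LBF (hCVF : Stmt_CVF) (hNBF : Stmt_NBF) : Stmt_LBF := by
  classical
  intro F _ P _ K _ ι _ D W v hWv R
  have := Fintype.ofFinite ι
  have ha0 : D.a ≠ 0 := LBF_a D.dv
  have hb0 : D.b ≠ 0 := LBF_b D.dv
  choose CN hCN1 hCN2 hCN3 using fun i => hNBF F (D.k i) (D.e (D.pl i)) D.a D.b (D.x i) (D.y i)
    ha0 hb0 (D.Lk i).two_ne (D.spl i)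
  obtain ⟨R', hR'⟩ : ∃ R' : ℝ, R' = max R 1 := ⟨_, rfl⟩
  have hR1 : R ≤ R' := by
    rw [hR']
    exact le_max_left _ _
  have hR2 : 1 ≤ R' := by
    rw [hR']
    exact le_max_right _ _
  have hR0 : 0 < R' := lt_of_lt_of_le one_pos hR2
  obtain ⟨B, hB⟩ : ∃ B : ι → ℝ, ∀ i, B i = 4 * CN i * R' ^ 3 := ⟨_, fun _ => rfl⟩
  have hB1 : ∀ i, 1 ≤ B i := by
    intro i
    rw [hB]
    have h1 : (1 : ℝ) ≤ R' ^ 3 := one_le_pow₀ hR2
    have h2 := hCN1 i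
    nlinarith
  have hB0 : ∀ i, 0 ≤ B i := fun i => le_trans zero_le_one (hB1 i)
  have conj : ∀ (g : GG D.k), (∀ i, nm (g i) ≤ R) → ∀ (i : ι) (z : ℍ[F, D.a, D.b])
      (t : ℝ), mnm ((g i : Matrix (Fin 2) (Fin 2) (D.k i)) * D.mt i z *
        (((g i)⁻¹ : SL2 (D.k i)) : Matrix (Fin 2) (Fin 2) (D.k i))) ≤ t →
      ∀ j, ‖D.e (D.pl i) (co4 z j)‖ ≤ CN i * (4 * R' ^ 2 * t) := by
    intro g hg i z t ht
    apply hCN3
    refine (LBF_conj (g i) (D.mt i z) ((hg i).trans hR1)).trans ?_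
    exact mul_le_mul_of_nonneg_left ht (by positivity)
  have conjB : ∀ (g : GG D.k), (∀ i, nm (g i) ≤ R) → ∀ (i : ι) (z : ℍ[F, D.a, D.b])
      (t : ℝ), 0 ≤ t → mnm ((g i : Matrix (Fin 2) (Fin 2) (D.k i)) * D.mt i z *
        (((g i)⁻¹ : SL2 (D.k i)) : Matrix (Fin 2) (Fin 2) (D.k i))) ≤ t →
      ∀ j, ‖D.e (D.pl i) (co4 z j)‖ ≤ B i * t := by
    intro g hg i z t ht0 ht j
    refine (conj g hg i z t ht j).trans ?_
    rw [hB]
    have h3 : R' ^ 2 ≤ R' ^ 3 := pow_le_pow_right₀ hR2 (by norm_num)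
    have h4 : 0 ≤ CN i := le_trans zero_le_one (hCN1 i)
    calc CN i * (4 * R' ^ 2 * t) = 4 * CN i * R' ^ 2 * t := by ring
      _ ≤ 4 * CN i * R' ^ 3 * t :=
        mul_le_mul_of_nonneg_right (mul_le_mul_of_nonneg_left h3 (by linarith)) ht0
  -- the places which are not split
  have hnsp : ∀ p : P, ∃ C : ℝ, 0 ≤ C ∧ ((∀ i, D.pl i ≠ p) →
      ∀ z : ℍ[F, D.a, D.b], nrq z = 1 → ∀ j, ‖D.e p (co4 z j)‖ ≤ C) := by
    intro p
    by_cases hp : ∀ i, D.pl i ≠ p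
    · obtain ⟨C, hC⟩ := D.nsp p hp
      exact ⟨max 0 C, le_max_left _ _, fun _ z hz j => (hC z hz j).trans (le_max_right _ _)⟩
    · exact ⟨0, le_rfl, fun h => absurd h hp⟩
  choose Cp hCp0 hCp using hnsp
  obtain ⟨CC, hCC0, hCC⟩ := hCVF (D.k v) (D.Lk v).two_ne (D.e (D.pl v) (-D.a))
    (D.e (D.pl v) (-D.b)) (D.e (D.pl v) (D.a * D.b)) (B v) (lt_of_lt_of_le one_pos (hB1 v))
  obtain ⟨S1, hS1⟩ : ∃ S1 : ℝ, S1 = ∑ i, B i * R' := ⟨_, rfl⟩
  obtain ⟨S2, hS2⟩ : ∃ S2 : ℝ, S2 = ∑ p, Cp p := ⟨_, rfl⟩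
  have hBR : ∀ i, 0 ≤ B i * R' := fun i => mul_nonneg (hB0 i) hR0.le
  have hS10 : 0 ≤ S1 := by
    rw [hS1]
    exact Finset.sum_nonneg fun i _ => hBR i
  have hS20 : 0 ≤ S2 := by
    rw [hS2]
    exact Finset.sum_nonneg fun i _ => hCp0 i
  have hle1 : ∀ i, B i * R' ≤ S1 := by
    intro i
    rw [hS1]
    exact Finset.single_le_sum (f := fun i => B i * R') (fun i _ => hBR i) (Finset.mem_univ i)
  have hle1' : ∀ i, B i ≤ S1 := by
    intro i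
    refine le_trans ?_ (hle1 i)
    have h1 := mul_le_mul_of_nonneg_left hR2 (hB0 i)
    rwa [mul_one] at h1
  have hle2 : ∀ w, Cp w ≤ S2 := by
    intro w
    rw [hS2]
    exact Finset.single_le_sum (f := Cp) (fun i _ => hCp0 i) (Finset.mem_univ w)
  refine ⟨S1 + S2 + CC + 1, by linarith, ?_⟩
  intro g hg Q Y hQ hY z hz hv hW hu
  have hn1 : nrq z.1 = 1 := (mem_unitary_iff_nrq _).1 z.2
  have hcoe : ∀ i, (((g * D.Th z * g⁻¹ : GG D.k) i : SL2 (D.k i)) :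
      Matrix (Fin 2) (Fin 2) (D.k i)) = (g i : Matrix (Fin 2) (Fin 2) (D.k i)) * D.mt i z.1 *
        (((g i)⁻¹ : SL2 (D.k i)) : Matrix (Fin 2) (Fin 2) (D.k i)) := by
    intro i
    rw [Pi.mul_apply, Pi.mul_apply, Pi.inv_apply, Matrix.SpecialLinearGroup.coe_mul,
      Matrix.SpecialLinearGroup.coe_mul, D.Th_apply]
  have hgg : ∀ i, (g i : Matrix (Fin 2) (Fin 2) (D.k i)) *
      (((g i)⁻¹ : SL2 (D.k i)) : Matrix (Fin 2) (Fin 2) (D.k i)) = 1 := by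
    intro i
    rw [← Matrix.SpecialLinearGroup.coe_mul, mul_inv_cancel, Matrix.SpecialLinearGroup.coe_one]
  have hdif : (((g * D.Th z * g⁻¹ : GG D.k) v : SL2 (D.k v)) :
      Matrix (Fin 2) (Fin 2) (D.k v)) - 1 =
      (g v : Matrix (Fin 2) (Fin 2) (D.k v)) * D.mt v (z.1 - 1) *
        (((g v)⁻¹ : SL2 (D.k v)) : Matrix (Fin 2) (Fin 2) (D.k v)) := by
    have e1 : D.mt v (z.1 - 1) = D.mt v z.1 - 1 := by
      unfold Qd.mt
      rw [mq_sub, mq_one]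
    rw [hcoe, e1, mul_sub, sub_mul, mul_one, hgg]
  -- the place v
  have hv0 := dnm_nonneg ((g * D.Th z * g⁻¹ : GG D.k) v)
  have hv1 : ∀ j, ‖D.e (D.pl v) (co4 (z.1 - 1) j)‖ * Q ≤ B v := by
    intro j
    have h1 := conjB g hg v (z.1 - 1) (dnm ((g * D.Th z * g⁻¹ : GG D.k) v)) hv0 (by
      rw [← hdif]
      exact le_rfl) j
    calc ‖D.e (D.pl v) (co4 (z.1 - 1) j)‖ * Q ≤
        (B v * dnm ((g * D.Th z * g⁻¹ : GG D.k) v)) * Q :=
          mul_le_mul_of_nonneg_right h1 (by linarith)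
      _ = B v * (dnm ((g * D.Th z * g⁻¹ : GG D.k) v) * Q) := by ring
      _ ≤ B v * 1 := mul_le_mul_of_nonneg_left hv (hB0 v)
      _ = B v := mul_one _
  obtain ⟨hc0, hcj⟩ := LBF_sub z.1
  have hv2 : ‖D.e (D.pl v) (co4 z.1 0 - 1)‖ * Q ≤ B v := by
    rw [← hc0]
    exact hv1 0
  have hv3 : ∀ j, j ≠ 0 → ‖D.e (D.pl v) (co4 z.1 j)‖ * Q ≤ B v := by
    intro j hj
    rw [← hcj j hj]
    exact hv1 j
  refine ⟨?_, ?_, ?_, ?_⟩
  · have h1 := hCC (fun j => D.e (D.pl v) (co4 z.1 j)) Q hQ (by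
      have h5 : z.1.re ^ 2 + -D.a * z.1.imI ^ 2 + -D.b * z.1.imJ ^ 2 +
          (D.a * D.b) * z.1.imK ^ 2 = 1 := by
        rw [← hn1]
        unfold nrq
        ring
      have h6 := congrArg (D.e (D.pl v)) h5
      rw [map_add, map_add, map_add, map_mul, map_mul, map_mul _ (D.a * D.b), map_pow, map_pow,
        map_pow, map_pow, map_one] at h6
      exact h6) (by
        have h7 := hv2
        rw [map_sub, map_one] at h7
        exact h7) (fun i hi => hv3 i hi)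
    have h2 : ‖D.e (D.pl v) (co4 z.1 0 - 1)‖ * Q ^ 2 ≤ CC := by
      rw [map_sub, map_one]
      exact h1
    linarith
  · intro j hj
    have h1 := hv3 j hj
    have h2 := hle1' v
    linarith
  · intro j
    have hW0 := nm_nonneg ((g * D.Th z * g⁻¹ : GG D.k) W)
    have h1 := conjB g hg W z.1 (nm ((g * D.Th z * g⁻¹ : GG D.k) W)) hW0 (by
      rw [← hcoe]
      exact le_rfl) j
    have h4 : B W * nm ((g * D.Th z * g⁻¹ : GG D.k) W) ≤ S1 * Y :=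
      mul_le_mul (hle1' W) hW hW0 hS10
    have h5 : S1 * Y ≤ (S1 + S2 + CC + 1) * Y :=
      mul_le_mul_of_nonneg_right (by linarith) (by linarith)
    exact (h1.trans h4).trans h5
  · intro p hpv hpW j
    by_cases hp : ∀ i, D.pl i ≠ p
    · have h1 := hCp p hp z.1 hn1 j
      have h2 := hle2 p
      linarith
    · push Not at hp
      obtain ⟨u, rfl⟩ := hp
      have huv : u ≠ v := fun h => hpv (by rw [h])
      have huW : u ≠ W := fun h => hpW (by rw [h])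
      have h1 := conjB g hg u z.1 R' hR0.le (by
        rw [← hcoe]
        exact (hu u huv huW).trans hR1) j
      have h4 := hle1 u
      linarith

end Pool.FQ
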