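import Pool.Agent.Work.MP_972ac7_F.Interface
import Pool.Agent.Work.MP_972ac7_P.B_NBD

set_option autoImplicit false

/-! # THEOREM FQ, block NBF: the coordinates of a quaternion and the entries of its matrix -/

open MeasureTheory IsDedekindDomain Polynomial
open scoped Quaternion ENNReal NNReal WithZero

noncomputable section

namespace Pool.FQ

open Pool.PQ Pool.PL Pool.TFD Pool.TC

theorem p_NBF : Stmt_NBF := by
  intro F _ k _ e a b x y ha hb h2 hxy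
  have hA : e a ≠ 0 := (map_ne_zero e).2 ha
  have hB : e b ≠ 0 := (map_ne_zero e).2 hb
  refine ⟨NBD_C (e a) (e b) x y, ?_, ?_, ?_⟩
  · unfold NBD_C
    have : 0 ≤ (1 + ‖x‖ + ‖y‖ + ‖e a‖ + ‖e a‖ * ‖x‖ + ‖e a‖ * ‖y‖) +
        ‖(2 : k)⁻¹‖ * (2 + ‖(e a)⁻¹‖) +
        ‖(2 : k)⁻¹‖ * (2 + ‖(e a)⁻¹‖) * (‖x‖ + ‖y‖ + ‖e a‖ * ‖y‖) * ‖(e b)⁻¹‖ := by
      positivity
    linarith
  · intro z c hz
    have h1 : ‖e z.re‖ ≤ c := hz 0
    have h3 : ‖e z.imI‖ ≤ c := hz 1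
    have h4 : ‖e z.imJ‖ ≤ c := hz 2
    have h5 : ‖e z.imK‖ ≤ c := hz 3
    obtain ⟨g1, g3, g4, g5⟩ := NBD_fwd (A := e a) (B := e b) (x := x) (y := y) h1 h3 h4 h5
    rw [mnm_le]
    intro p q
    fin_cases p <;> fin_cases q
    · exact g1
    · exact g3
    · exact g4
    · exact g5
  · intro z c hz
    rw [mnm_le] at hz
    obtain ⟨g1, g3, g4, g5⟩ := NBD_bwd (r := e z.re) (I := e z.imI) (J := e z.imJ) (K := e z.imK)
      h2 hA hB hxy (hz 0 0) (hz 0 1) (hz 1 0) (hz 1 1)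
    intro j
    fin_cases j
    · exact g1
    · exact g3
    · exact g4
    · exact g5

end Pool.FQ
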