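import Pool.Agent.Work.MP_972ac7_F.Interface

set_option autoImplicit false

/-! # Block PFB of THEOREM FQ (MP_972ac7_al): the inequality of the product formula -/

noncomputable section

namespace Pool.FQ

open Pool.PQ Pool.PL Pool.TFD Pool.TC

section

variable {F : Type} [Field F] {P : Type} [Fintype P] {K : P → Type} [∀ p, NormedField (K p)]

/-- a small element of `O` is zero -/
theorem PFB_small (A : Ar F P K) [Nonempty P] :
    ∃ r : ℝ, 0 < r ∧ ∀ y ∈ A.O, (∀ p, ‖A.e p y‖ ≤ r) → y = 0 := by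
  classical
  obtain ⟨p₀⟩ := ‹Nonempty P›
  have hfin := A.fin 1
  set S : Finset F := hfin.toFinset.filter (fun y => y ≠ 0) with hS
  have hmem : ∀ y, y ∈ S ↔ (y ∈ A.O ∧ ∀ p, ‖A.e p y‖ ≤ 1) ∧ y ≠ 0 := by
    intro y
    rw [hS, Finset.mem_filter, Set.Finite.mem_toFinset]
    rfl
  by_cases hne : S.Nonempty
  · obtain ⟨m, hm, hmin⟩ := S.exists_min_image (fun y => ‖A.e p₀ y‖) hne
    have hmpos : 0 < ‖A.e p₀ m‖ := by
      rw [norm_pos_iff]
      exact (map_ne_zero _).2 ((hmem m).1 hm).2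
    refine ⟨min 1 (‖A.e p₀ m‖ / 2), lt_min one_pos (half_pos hmpos), ?_⟩
    intro y hy hb
    by_contra h0
    have hyS : y ∈ S := (hmem y).2 ⟨⟨hy, fun p => (hb p).trans (min_le_left _ _)⟩, h0⟩
    have h1 := hmin y hyS
    have h2 := (hb p₀).trans (min_le_right _ _)
    linarith
  · refine ⟨1, one_pos, ?_⟩
    intro y hy hb
    by_contra h0
    exact hne ⟨y, (hmem y).2 ⟨⟨hy, hb⟩, h0⟩⟩

/-- the count for one element `w` of `O` -/
theorem PFB_step (hSCG : Stmt_SCG) (A : Ar F P K) [Nonempty P] :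
    ∃ C : ℝ, 0 < C ∧ ∀ w ∈ A.O, w ≠ 0 → 1 ≤ C * ∏ p, ‖A.e p w‖ := by
  classical
  obtain ⟨r, hr, hsm⟩ := PFB_small A
  obtain ⟨c, hc, hmany⟩ := A.many
  choose Cp hCp1 _ hcl using fun p => hSCG (K p) (A.L p)
  have hCpos : ∀ p, 0 < Cp p := fun p => lt_of_lt_of_le one_pos (hCp1 p)
  have hPpos : 0 < ∏ p, (Cp p / r) := Finset.prod_pos fun p _ => div_pos (hCpos p) hr
  refine ⟨(∏ p, (Cp p / r)) / c, div_pos hPpos hc, ?_⟩
  intro w hw hw0
  have hwp : ∀ p, 0 < ‖A.e p w‖ := by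
    intro p
    rw [norm_pos_iff]
    exact (map_ne_zero _).2 hw0
  obtain ⟨β, Y, hβ, hYO, hYb, hcard⟩ := hmany (∑ p, r / ‖A.e p w‖)
  have hβp : ∀ p, r ≤ ‖A.e p w‖ * β p := by
    intro p
    have h1 : r / ‖A.e p w‖ ≤ ∑ q, r / ‖A.e q w‖ :=
      Finset.single_le_sum (f := fun q => r / ‖A.e q w‖)
        (fun q _ => (div_pos hr (hwp q)).le) (Finset.mem_univ p)
    have h2 := h1.trans (hβ p)
    rw [div_le_iff₀ (hwp p)] at h2
    linarith [mul_comm (β p) ‖A.e p w‖]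
  have hβpos : ∀ p, 0 < β p := by
    intro p
    have h1 : 0 < ‖A.e p w‖ * β p := lt_of_lt_of_le hr (hβp p)
    exact (pos_iff_pos_of_mul_pos h1).1 (hwp p)
  choose N cl hN hcl2 using fun p => hcl p (‖A.e p w‖ * β p) r hr (hβp p)
  -- the injective map
  have hinj : Y.card ≤ ∏ p, N p := by
    have h1 : Set.InjOn (fun y : F => (fun p => cl p (A.e p (w * y)) : ∀ p, Fin (N p)))
        (Y : Set F) := by
      intro y hy y' hy' he
      have hy1 : y ∈ Y := hy
      have hy2 : y' ∈ Y := hy'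
      have hb : ∀ u ∈ Y, ∀ p, ‖A.e p (w * u)‖ ≤ ‖A.e p w‖ * β p := by
        intro u hu p
        rw [map_mul, norm_mul]
        exact mul_le_mul_of_nonneg_left (hYb u hu p) (norm_nonneg _)
      have h0 : w * y - w * y' = 0 := by
        apply hsm
        · exact sub_mem (mul_mem hw (hYO y hy1)) (mul_mem hw (hYO y' hy2))
        · intro p
          rw [map_sub]
          exact hcl2 p _ _ (hb y hy1 p) (hb y' hy2 p) (congrFun he p)
      have h3 : w * (y - y') = 0 := by rw [mul_sub]; exact h0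
      rcases mul_eq_zero.1 h3 with h4 | h4
      · exact absurd h4 hw0
      · exact sub_eq_zero.1 h4
    have h2 := Finset.card_le_card_of_injOn (s := Y)
      (t := (Finset.univ : Finset (∀ p, Fin (N p)))) _ (fun _ _ => Finset.mem_univ _) h1
    rw [Finset.card_univ, Fintype.card_pi] at h2
    simpa using h2
  have hN2 : ∀ p, (N p : ℝ) ≤ (Cp p / r) * (‖A.e p w‖ * β p) := by
    intro p
    have h1 := hN p
    rw [A.he p, pow_one, pow_one] at h1
    rw [div_mul_eq_mul_div, le_div_iff₀ hr]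
    exact h1
  have hprod : (Y.card : ℝ) ≤ (∏ p, (Cp p / r)) * ((∏ p, ‖A.e p w‖) * ∏ p, β p) := by
    have h1 : (Y.card : ℝ) ≤ ∏ p, (N p : ℝ) := by
      have := (Nat.cast_le (α := ℝ)).2 hinj
      rwa [Nat.cast_prod] at this
    have h2 : ∏ p, (N p : ℝ) ≤ ∏ p, ((Cp p / r) * (‖A.e p w‖ * β p)) :=
      Finset.prod_le_prod (fun p _ => Nat.cast_nonneg _) (fun p _ => hN2 p)
    rw [Finset.prod_mul_distrib, Finset.prod_mul_distrib] at h2
    exact h1.trans h2
  have hBpos : 0 < ∏ p, β p := Finset.prod_pos fun p _ => hβpos p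
  have h5 : c * ∏ p, β p ≤ ((∏ p, (Cp p / r)) * ∏ p, ‖A.e p w‖) * ∏ p, β p := by
    calc c * ∏ p, β p ≤ (Y.card : ℝ) := hcard
      _ ≤ _ := hprod
      _ = _ := by ring
  have h6 := le_of_mul_le_mul_right h5 hBpos
  rw [div_mul_eq_mul_div, le_div_iff₀ hc, one_mul]
  exact h6

end

theorem p_PFB (hSCG : Stmt_SCG) : Stmt_PFB := by
  intro F _ P _ K _ A x hx hx0
  rcases isEmpty_or_nonempty P with hP | hP
  · simp
  obtain ⟨C, hC, hst⟩ := PFB_step hSCG A
  by_contra hlt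
  rw [not_le] at hlt
  have h0 : 0 ≤ ∏ p, ‖A.e p x‖ := Finset.prod_nonneg fun p _ => norm_nonneg _
  obtain ⟨n, hn⟩ := exists_pow_lt_of_lt_one (div_pos one_pos hC) hlt
  have h1 := hst (x ^ n) (pow_mem hx n) (pow_ne_zero n hx0)
  have h2 : ∏ p, ‖A.e p (x ^ n)‖ = (∏ p, ‖A.e p x‖) ^ n := by
    rw [← Finset.prod_pow]
    refine Finset.prod_congr rfl fun p _ => ?_
    rw [map_pow, norm_pow]
  rw [h2] at h1
  rw [lt_div_iff₀ hC] at hn
  linarith [mul_comm C ((∏ p, ‖A.e p x‖) ^ n)]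

end Pool.FQ
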