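import Pool.Agent.Work.MP_972ac7_F.Interface
import Pool.Agent.Work.MP_972ac7_P.B_ANI

set_option autoImplicit false

/-! # Block QDF: the quaternion data of a function field -/

open MeasureTheory IsDedekindDomain Polynomial
open scoped Quaternion ENNReal NNReal WithZero

noncomputable section

namespace Pool.FQ

open Pool.PQ Pool.PL Pool.TFD Pool.TC

/-- `a` is not zero if the quaternion algebra `(a, b)` is a division algebra -/
theorem QDF_ne {F : Type} [Field F] (a b : F) (hdv : ∀ z : ℍ[F, a, b], nrq z = 0 → z = 0) :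
    a ≠ 0 := by
  intro h
  have h1 := hdv ⟨0, 1, 0, 0⟩ (by simp [nrq, h])
  have h2 := congrArg QuaternionAlgebra.imI h1
  simp at h2

/-- the norm one quaternions are bounded at the places where the algebra does not split -/
theorem QDF_nsp {F : Type} [Field F] {k : Type} [NormedField k] [ProperSpace k] (L : LocF k)
    (h2 : (2 : k) ≠ 0) (e : F →+* k) (a b : F) (ha : a ≠ 0)
    (hns : ¬ ∃ x y : k, x ^ 2 - e a * y ^ 2 = e b) :
    ∃ C : ℝ, ∀ z : ℍ[F, a, b], nrq z = 1 → ∀ j, ‖e (co4 z j)‖ ≤ C := by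
  obtain ⟨C, hC⟩ := p_ANI k L h2 (e a) (e b) ((map_ne_zero e).2 ha) hns
  refine ⟨C, fun z hz j => hC (fun j => e (co4 z j)) ?_ j⟩
  have hz' : e (nrq z) = 1 := by rw [hz, map_one]
  rw [← hz']
  simp [nrq, co4]

theorem p_QDF (hFFA : Stmt_FFA) : Stmt_QDF := by
  intro Fq _ _ F _ _ _ _ _ _ h2 a b ha hb hdv
  obtain ⟨hfin, A, hO, hem, hloc⟩ := hFFA Fq F h2
  refine ⟨fun w => (hloc w).1, hfin, ?_⟩
  have ha0 : a ≠ 0 := QDF_ne a b hdv
  have hsp : ∀ i : {w : Pinf Fq F // SplF a b w}, ∃ x y : KW F i.1,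
      x ^ 2 - A.e i.1 a * y ^ 2 = A.e i.1 b := by
    intro i
    obtain ⟨x, y, hxy⟩ := i.2
    refine ⟨x, y, ?_⟩
    rw [hem, hem]
    exact hxy
  choose x y hxy using hsp
  have haA : a ∈ A.O := by
    rw [hO]
    exact ha
  have hbA : b ∈ A.O := by
    rw [hO]
    exact hb
  refine ⟨{ toAr := A
            a := a
            b := b
            ha := haA
            hb := hbA
            dv := hdv
            pl := Subtype.val
            inj := Subtype.val_injective
            x := x
            y := y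
            spl := hxy
            nsp := ?_ }, hO, rfl, rfl⟩
  intro p hp
  have := (hloc p).1
  obtain ⟨L⟩ := (hloc p).2.1
  refine QDF_nsp L (hloc p).2.2 (A.e p) a b ha0 ?_
  rintro ⟨u, v, huv⟩
  rw [hem, hem] at huv
  exact hp ⟨p, u, v, huv⟩ rfl

end Pool.FQ
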