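import Pool.Agent.Work.MP_972ac7_F.Interface

set_option autoImplicit false

open MeasureTheory IsDedekindDomain Polynomial
open scoped Quaternion ENNReal NNReal WithZero

noncomputable section

namespace Pool.FQ

open Pool.PQ Pool.PL Pool.TFD Pool.TC

theorem p_RSF (hB : Stmt_BXF) : Stmt_RSF := by
  classical
  intro F _ P _ _ K _ A δ hδ hδ0
  obtain ⟨C, hC1, hC⟩ := hB F P K A
  obtain ⟨c, hc, hm⟩ := A.many
  have hΔ0 : 0 ≤ ∏ p, ‖A.e p δ‖ := Finset.prod_nonneg (fun p _ => norm_nonneg _)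
  have hep : ∀ p, 0 < ‖A.e p δ‖ := fun p => norm_pos_iff.2 ((_root_.map_ne_zero _).2 hδ0)
  -- a bound for the number of incongruent elements
  have key : ∀ (M : ℕ) (r : Fin M → F), (∀ i, r i ∈ A.O) →
      (∀ i j, (∃ z ∈ A.O, r i - r j = δ * z) → i = j) →
      (M : ℝ) * c ≤ 1 + C * ∏ p, ‖A.e p δ‖ := by
    intro M r hr hinj
    obtain ⟨B, hB1, hB2⟩ : ∃ B : ℝ, 1 ≤ B ∧ ∀ i p, ‖A.e p (r i)‖ ≤ ‖A.e p δ‖ * B := by
      have hnn : ∀ i p, 0 ≤ ‖A.e p (r i)‖ / ‖A.e p δ‖ := fun i p =>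
        div_nonneg (norm_nonneg _) (norm_nonneg _)
      refine ⟨1 + ∑ i, ∑ p, ‖A.e p (r i)‖ / ‖A.e p δ‖, ?_, ?_⟩
      · have : 0 ≤ ∑ i, ∑ p, ‖A.e p (r i)‖ / ‖A.e p δ‖ :=
          Finset.sum_nonneg fun i _ => Finset.sum_nonneg fun p _ => hnn i p
        linarith
      · intro i p
        have h1 : ‖A.e p (r i)‖ / ‖A.e p δ‖ ≤ ∑ p, ‖A.e p (r i)‖ / ‖A.e p δ‖ :=
          Finset.single_le_sum (f := fun p => ‖A.e p (r i)‖ / ‖A.e p δ‖)
            (fun p _ => hnn i p) (Finset.mem_univ p)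
        have h2 : ∑ p, ‖A.e p (r i)‖ / ‖A.e p δ‖ ≤ ∑ i, ∑ p, ‖A.e p (r i)‖ / ‖A.e p δ‖ :=
          Finset.single_le_sum (f := fun i => ∑ p, ‖A.e p (r i)‖ / ‖A.e p δ‖)
            (fun i _ => Finset.sum_nonneg fun p _ => hnn i p) (Finset.mem_univ i)
        have h3 : ‖A.e p (r i)‖ / ‖A.e p δ‖ ≤ 1 + ∑ i, ∑ p, ‖A.e p (r i)‖ / ‖A.e p δ‖ := by
          linarith
        rw [div_le_iff₀ (hep p)] at h3
        linarith
    obtain ⟨β, Y, hβ, hYO, hYb, hcard⟩ := hm B
    have hβ1 : ∀ p, 1 ≤ β p := fun p => hB1.trans (hβ p)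
    let f : Fin M × F → F := fun x => r x.1 + δ * x.2
    have hinjf : Set.InjOn f ((Finset.univ ×ˢ Y : Finset (Fin M × F)) : Set (Fin M × F)) := by
      rintro ⟨i, y⟩ hx ⟨j, y'⟩ hx' he
      simp only [Finset.coe_product, Set.mem_prod, Finset.mem_coe, Finset.mem_univ, true_and] at hx hx'
      have he' : r i + δ * y = r j + δ * y' := he
      have hij : i = j := hinj i j ⟨y' - y, sub_mem (hYO _ hx') (hYO _ hx), by linear_combination he'⟩
      subst hij
      have : δ * y = δ * y' := by linear_combination he'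
      rw [mul_right_inj' hδ0] at this
      rw [this]
    have hZcard : ((Finset.univ ×ˢ Y).image f).card = M * Y.card := by
      rw [Finset.card_image_of_injOn hinjf, Finset.card_product, Finset.card_univ, Fintype.card_fin]
    have hmem : ∀ z ∈ ((((Finset.univ ×ˢ Y).image f : Finset F)) : Set F),
        z ∈ A.O ∧ ∀ p, ‖A.e p z‖ ≤ ‖A.e p δ‖ * β p := by
      intro z hz
      simp only [Finset.coe_image, Set.mem_image, Finset.coe_product, Set.mem_prod, Finset.mem_coe,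
        Finset.mem_univ, true_and, Prod.exists] at hz
      obtain ⟨i, y, hy, rfl⟩ := hz
      refine ⟨add_mem (hr i) (mul_mem hδ (hYO y hy)), fun p => ?_⟩
      change ‖A.e p (r i + δ * y)‖ ≤ _
      rw [map_add, map_mul]
      refine (A.um p _ _).trans (max_le ?_ ?_)
      · exact (hB2 i p).trans (mul_le_mul_of_nonneg_left (hβ p) (norm_nonneg _))
      · rw [norm_mul]
        exact mul_le_mul_of_nonneg_left (hYb y hy p) (norm_nonneg _)
    obtain ⟨-, hb⟩ := hC (fun p => ‖A.e p δ‖ * β p)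
      ((((Finset.univ ×ˢ Y).image f : Finset F)) : Set F)
      (fun p => mul_nonneg (norm_nonneg _) (zero_le_one.trans (hβ1 p)))
      (fun z hz => (hmem z hz).1)
      (fun z hz z' hz' p => by
        rw [map_sub, sub_eq_add_neg]
        refine (A.um p _ _).trans (max_le ((hmem z hz).2 p) ?_)
        rw [norm_neg]
        exact (hmem z' hz').2 p)
    rw [Nat.card_coe_set_eq, Set.ncard_coe_finset, hZcard, Finset.prod_mul_distrib] at hb
    push_cast at hb
    have hPi : 1 ≤ ∏ p, β p := by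
      have := Finset.prod_le_prod (s := Finset.univ) (f := fun _ : P => (1 : ℝ)) (g := β)
        (fun _ _ => zero_le_one) (fun p _ => hβ1 p)
      simpa using this
    have hMY : (M : ℝ) * (c * ∏ p, β p) ≤ (M : ℝ) * (Y.card : ℝ) :=
      mul_le_mul_of_nonneg_left hcard (Nat.cast_nonneg M)
    have hfin : ((M : ℝ) * c) * ∏ p, β p ≤ (1 + C * ∏ p, ‖A.e p δ‖) * ∏ p, β p := by
      calc ((M : ℝ) * c) * ∏ p, β p = (M : ℝ) * (c * ∏ p, β p) := by ring
        _ ≤ (M : ℝ) * (Y.card : ℝ) := hMY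
        _ ≤ 1 + C * ((∏ p, ‖A.e p δ‖) * ∏ p, β p) := hb
        _ ≤ ∏ p, β p + C * ((∏ p, ‖A.e p δ‖) * ∏ p, β p) := by linarith
        _ = _ := by ring
    exact le_of_mul_le_mul_right hfin (by linarith)
  -- the quotient ring is finite
  have hfinite : Finite (A.O ⧸ Ideal.span {(⟨δ, hδ⟩ : A.O)}) := by
    by_contra hinf
    rw [not_finite_iff_infinite] at hinf
    let em' : ℕ ↪ (A.O ⧸ Ideal.span {(⟨δ, hδ⟩ : A.O)}) := Infinite.natEmbedding _
    obtain ⟨M, hM⟩ := exists_nat_gt ((1 + C * ∏ p, ‖A.e p δ‖) / c)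
    rw [div_lt_iff₀ hc] at hM
    have := key M (fun i => ((Quotient.out (em' i) : A.O) : F)) (fun i => Subtype.mem _) (by
      rintro i j ⟨z, hz, he⟩
      have h1 : (Quotient.out (em' i) : A.O) - (Quotient.out (em' j) : A.O) =
          (⟨δ, hδ⟩ : A.O) * ⟨z, hz⟩ := Subtype.ext he
      have h2 : (Ideal.Quotient.mk (Ideal.span {(⟨δ, hδ⟩ : A.O)})) (Quotient.out (em' i)) =
          (Ideal.Quotient.mk (Ideal.span {(⟨δ, hδ⟩ : A.O)})) (Quotient.out (em' j)) := by
        rw [Ideal.Quotient.eq, h1]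
        exact Ideal.mul_mem_right _ _ (Ideal.mem_span_singleton_self _)
      rw [Ideal.Quotient.mk_out, Ideal.Quotient.mk_out] at h2
      have h3 := em'.injective h2
      exact Fin.ext h3)
    linarith
  have e' := Finite.equivFin (A.O ⧸ Ideal.span {(⟨δ, hδ⟩ : A.O)})
  refine ⟨Nat.card (A.O ⧸ Ideal.span {(⟨δ, hδ⟩ : A.O)}), fun x => if h : x ∈ A.O then
    e' (Ideal.Quotient.mk _ ⟨x, h⟩) else e' (Ideal.Quotient.mk _ 0), ?_⟩
  intro x hx y hy h
  simp only [hx, hy, dif_pos] at h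
  have h1 := e'.injective h
  rw [Ideal.Quotient.eq, Ideal.mem_span_singleton'] at h1
  obtain ⟨z, hz⟩ := h1
  refine ⟨z, z.2, ?_⟩
  have := congrArg (fun w : A.O => (w : F)) hz
  simp only [MulMemClass.coe_mul, AddSubgroupClass.coe_sub] at this
  rw [← this, mul_comm]

end Pool.FQ
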