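import Pool.Agent.Work.MP_972ac7_F.Interface

set_option autoImplicit false

/-! # Block SCG: scaling in a normed field with the data `LG` -/

noncomputable section

namespace Pool.FQ

open Pool.PQ Pool.PL Pool.TFD Pool.TC

theorem p_SCG : Stmt_SCG := by
  classical
  intro k _ L
  have hT1 : 1 < ‖L.ϑ‖ := L.one_lt
  have hT0 : 0 < ‖L.ϑ‖ := lt_trans one_pos hT1
  have hϑ : L.ϑ ≠ 0 := norm_pos_iff.mp hT0
  have hC1 : 1 ≤ L.C := L.one_le
  have hC0 : 0 < L.C := lt_of_lt_of_le one_pos hC1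
  refine ⟨L.C * ‖L.ϑ‖ ^ L.e, ?_, ?_, ?_⟩
  · have h := one_le_pow₀ (n := L.e) hT1.le
    calc (1 : ℝ) = 1 * 1 := by ring
      _ ≤ L.C * ‖L.ϑ‖ ^ L.e := mul_le_mul hC1 h zero_le_one hC0.le
  · intro s r c Z hs hsr hZ hsep
    obtain ⟨n, hn1, hn2⟩ := exists_mem_Ico_zpow hs hT1
    set w : k := L.ϑ ^ n with hw
    have hw0 : w ≠ 0 := zpow_ne_zero _ hϑ
    have hwn : ‖w‖ = ‖L.ϑ‖ ^ n := norm_zpow _ _
    have hwpos : 0 < ‖w‖ := norm_pos_iff.mpr hw0
    have hinj : Function.Injective (fun z : k => z / w) := by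
      intro a b hab
      exact (div_left_inj' hw0).mp hab
    have hcard : (Z.image (fun z : k => z / w)).card = Z.card :=
      Finset.card_image_of_injective _ hinj
    have hws : ‖w‖ ≤ s := by rw [hwn]; exact hn1
    have h1 : 1 ≤ r / ‖w‖ := by
      rw [one_le_div hwpos]; exact le_trans hws hsr
    have h2 := L.sep_le (r / ‖w‖) (c / w) (Z.image (fun z : k => z / w)) h1 (by
      intro z hz
      obtain ⟨y, hy, rfl⟩ := Finset.mem_image.mp hz
      have : y / w - c / w = (y - c) / w := by ring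
      show ‖y / w - c / w‖ ≤ r / ‖w‖
      rw [this, norm_div]
      exact div_le_div_of_nonneg_right (hZ y hy) hwpos.le) (by
      intro z hz z' hz' hne
      obtain ⟨y, hy, rfl⟩ := Finset.mem_image.mp hz
      obtain ⟨y', hy', rfl⟩ := Finset.mem_image.mp hz'
      have hne' : y ≠ y' := by
        rintro rfl
        exact hne rfl
      show 1 ≤ ‖y / w - y' / w‖
      have : y / w - y' / w = (y - y') / w := by ring
      rw [this, norm_div, one_le_div hwpos]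
      exact le_trans hws (hsep y hy y' hy' hne'))
    rw [hcard] at h2
    have hs2 : s ≤ ‖w‖ * ‖L.ϑ‖ := by
      rw [hwn, ← zpow_add_one₀ hT0.ne']
      exact hn2.le
    have hr0 : 0 < r := lt_of_lt_of_le hs hsr
    calc (Z.card : ℝ) * s ^ L.e ≤ (L.C * (r / ‖w‖) ^ L.e) * (‖w‖ * ‖L.ϑ‖) ^ L.e := by
          refine mul_le_mul h2 (pow_le_pow_left₀ hs.le hs2 _) (pow_nonneg hs.le _) ?_
          exact mul_nonneg hC0.le (pow_nonneg (div_nonneg hr0.le hwpos.le) _)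
      _ = L.C * ((r / ‖w‖) * (‖w‖ * ‖L.ϑ‖)) ^ L.e := by rw [mul_pow]; ring
      _ = L.C * ‖L.ϑ‖ ^ L.e * r ^ L.e := by
          have h3 : (r / ‖w‖) * (‖w‖ * ‖L.ϑ‖) = ‖L.ϑ‖ * r := by
            field_simp
          rw [h3, mul_pow]; ring
  · intro D r hr hrD
    have hD : 0 < D := lt_of_lt_of_le hr hrD
    obtain ⟨n, hn1, hn2⟩ := exists_mem_Ioc_zpow hD hT1
    set w : k := L.ϑ ^ (n + 1) with hw
    have hw0 : w ≠ 0 := zpow_ne_zero _ hϑ
    have hwn : ‖w‖ = ‖L.ϑ‖ ^ (n + 1) := norm_zpow _ _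
    have hwpos : 0 < ‖w‖ := norm_pos_iff.mpr hw0
    have hDw : D ≤ ‖w‖ := by rw [hwn]; exact hn2
    have hwD : ‖w‖ ≤ D * ‖L.ϑ‖ := by
      rw [hwn, zpow_add_one₀ hT0.ne']
      exact mul_le_mul_of_nonneg_right hn1.le hT0.le
    obtain ⟨N, cl, hN, hcl⟩ := L.cov (r / ‖w‖) (div_pos hr hwpos)
      ((div_le_one hwpos).mpr (le_trans hrD hDw))
    refine ⟨N, fun x => cl (x / w), ?_, ?_⟩
    · calc (N : ℝ) * r ^ L.e = ((N : ℝ) * (r / ‖w‖) ^ L.e) * ‖w‖ ^ L.e := by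
            rw [mul_assoc, ← mul_pow, div_mul_cancel₀ _ hwpos.ne']
        _ ≤ L.C * (D * ‖L.ϑ‖) ^ L.e := by
            refine mul_le_mul hN (pow_le_pow_left₀ hwpos.le hwD _) (pow_nonneg hwpos.le _) hC0.le
        _ = L.C * ‖L.ϑ‖ ^ L.e * D ^ L.e := by rw [mul_pow]; ring
    · intro x y hx hy hxy
      have h3 : ‖x / w‖ ≤ 1 := by
        rw [norm_div, div_le_one hwpos]; exact le_trans hx hDw
      have h4 : ‖y / w‖ ≤ 1 := by
        rw [norm_div, div_le_one hwpos]; exact le_trans hy hDw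
      have h5 := hcl (x / w) (y / w) h3 h4 hxy
      have : x / w - y / w = (x - y) / w := by ring
      rw [this, norm_div] at h5
      exact (div_le_div_iff_of_pos_right hwpos).mp h5

end Pool.FQ
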