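import Pool.Agent.Work.MP_972ac7_F.Interface2

/-! MP_972ac7_al, block VWF: valuation subrings without `X` are the places at infinity. -/

set_option autoImplicit false
set_option linter.unusedSectionVars false

open IsDedekindDomain HeightOneSpectrum Polynomial
open scoped NNReal WithZero

noncomputable section

namespace Pool.FQ

open Pool.PL

section vwf

variable (Fq : Type) [Field Fq] [Finite Fq] (F : Type) [Field F] [Algebra (RatFunc Fq) F]
  [FunctionField Fq F] [Algebra.IsSeparable (RatFunc Fq) F] (V : ValuationSubring F)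

/-- the valuation of `V` on `Fq(X)` -/
def VWF_v : Valuation (RatFunc Fq) V.ValueGroup := V.valuation.comap (algebraMap (RatFunc Fq) F)

theorem VWF_triv : (VWF_v Fq F V).IsTrivialOn Fq := by
  refine ⟨fun a ha => ?_⟩
  have hfin := Fintype.ofFinite Fq
  have h1 : a ^ (Fintype.card Fq - 1) = 1 := FiniteField.pow_card_sub_one_eq_one a ha
  have h2 : Fintype.card Fq - 1 ≠ 0 := by
    have := Fintype.one_lt_card (α := Fq)
    omega
  have h3 : (VWF_v Fq F V) (algebraMap Fq (RatFunc Fq) a) ^ (Fintype.card Fq - 1) = 1 := by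
    rw [← map_pow, ← map_pow, h1, map_one, map_one]
  exact (pow_eq_one_iff.1 h3).resolve_right h2

theorem VWF_X (hV : tX Fq F ∉ V) : 1 < (VWF_v Fq F V) RatFunc.X := by
  have h1 : ¬ V.valuation (tX Fq F) ≤ 1 := fun h => hV ((V.valuation_le_one_iff _).1 h)
  exact not_le.1 h1

theorem VWF_Ri (hV : tX Fq F ∉ V) (r : Ri Fq) :
    algebraMap (RatFunc Fq) F (r : RatFunc Fq) ∈ V := by
  rw [← V.valuation_le_one_iff]
  by_cases hr : (r : RatFunc Fq) = 0
  · rw [hr, map_zero, map_zero]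
    exact zero_le_one
  · have h1 := ((mem_Ri Fq r).1 r.2).resolve_left hr
    have ht := VWF_triv Fq F V
    have h2 := RatFunc.valuation_eq_valuation_X_zpow_intDegree_of_one_lt_valuation_X
      (VWF_X Fq F V hV) hr
    have h3 : V.valuation (algebraMap (RatFunc Fq) F (r : RatFunc Fq)) =
        (VWF_v Fq F V) RatFunc.X ^ (r : RatFunc Fq).intDegree := h2
    rw [h3]
    exact (zpow_le_one_iff_right₀ (VWF_X Fq F V hV)).2 h1

/-- the homomorphism from `Ri` to `V` -/
def VWF_f (hV : tX Fq F ∉ V) : Ri Fq →+* V :=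
  ((algebraMap (RatFunc Fq) F).comp (Ri Fq).subtype).codRestrict V.toSubring
    (fun r => VWF_Ri Fq F V hV r)

theorem VWF_Si (hV : tX Fq F ∉ V) (s : Si Fq F) : algebraMap (Si Fq F) F s ∈ V := by
  obtain ⟨p, hp, hp0⟩ : IsIntegral (Ri Fq) (algebraMap (Si Fq F) F s) := s.2
  have h1 : IsIntegral V (algebraMap (Si Fq F) F s) := by
    refine ⟨p.map (VWF_f Fq F V hV), hp.map _, ?_⟩
    rw [eval₂_map]
    exact hp0
  obtain ⟨y, hy⟩ := (IsIntegrallyClosed.isIntegral_iff (R := V) (K := F)).1 h1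
  rw [← hy]
  exact y.2

/-- the homomorphism from `Si` to `V` -/
def VWF_g (hV : tX Fq F ∉ V) : Si Fq F →+* V :=
  (algebraMap (Si Fq F) F).codRestrict V.toSubring (fun s => VWF_Si Fq F V hV s)

/-- the prime ideal -/
def VWF_P (hV : tX Fq F ∉ V) : Ideal (Si Fq F) :=
  (IsLocalRing.maximalIdeal V).comap (VWF_g Fq F V hV)

theorem VWF_mem (hV : tX Fq F ∉ V) (s : Si Fq F) :
    s ∈ VWF_P Fq F V hV ↔ V.valuation (algebraMap (Si Fq F) F s) < 1 := by
  unfold VWF_P
  rw [Ideal.mem_comap, V.valuation_lt_one_iff]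
  rfl

theorem VWF_ne (hV : tX Fq F ∉ V) : VWF_P Fq F V hV ≠ ⊥ := by
  intro h
  have h1 : algebraMap (Ri Fq) (Si Fq F) (ti Fq) ∈ VWF_P Fq F V hV := by
    rw [VWF_mem]
    have e : algebraMap (Si Fq F) F (algebraMap (Ri Fq) (Si Fq F) (ti Fq)) =
        algebraMap (RatFunc Fq) F (RatFunc.X)⁻¹ := rfl
    rw [e, map_inv₀, map_inv₀]
    exact inv_lt_one_of_one_lt₀ (VWF_X Fq F V hV)
  rw [h, Ideal.mem_bot] at h1
  have h2 : algebraMap (Si Fq F) F (algebraMap (Ri Fq) (Si Fq F) (ti Fq)) =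
      algebraMap (RatFunc Fq) F (RatFunc.X)⁻¹ := rfl
  rw [h1, map_zero, eq_comm, map_eq_zero] at h2
  exact inv_ne_zero RatFunc.X_ne_zero h2

/-- the place at infinity -/
def VWF_w (hV : tX Fq F ∉ V) : Pinf Fq F where
  asIdeal := VWF_P Fq F V hV
  isPrime := Ideal.comap_isPrime _ _
  ne_bot := VWF_ne Fq F V hV

theorem VWF_main (hV : tX Fq F ∉ V) (x : F) : x ∈ V ↔ ‖em F (VWF_w Fq F V hV) x‖ ≤ 1 := by
  set w := VWF_w Fq F V hV with hw
  rw [norm_em, ← V.valuation_le_one_iff]
  have hle : ∀ s : Si Fq F, V.valuation (algebraMap (Si Fq F) F s) ≤ 1 := fun s =>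
    (V.valuation_le_one_iff _).2 (VWF_Si Fq F V hV s)
  have h1 : ∀ s : Si Fq F, s ∉ w.asIdeal →
      V.valuation (algebraMap (Si Fq F) F s) = 1 ∧ va w (algebraMap (Si Fq F) F s) = 1 := by
    intro s hs
    constructor
    · refine le_antisymm (hle s) (not_lt.1 fun h => hs ?_)
      exact (VWF_mem Fq F V hV s).2 h
    · refine le_antisymm (va_int w s) (not_lt.1 fun h => hs ?_)
      exact (va_int_lt w s).1 h
  obtain ⟨n, d, h⟩ := exists_primeCompl_mul_eq_or_mul_eq w x
  obtain ⟨hd1, hd2⟩ := h1 d.1 d.2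
  rcases h with h | h
  · have e1 : V.valuation x = V.valuation (algebraMap (Si Fq F) F n) := by
      rw [← h, map_mul, hd1, mul_one]
    have e2 : va w x = va w (algebraMap (Si Fq F) F n) := by
      rw [← h, va_mul, hd2, mul_one]
    rw [e1, e2]
    exact ⟨fun _ => va_int w n, fun _ => hle n⟩
  · have e1 : V.valuation x * V.valuation (algebraMap (Si Fq F) F n) = 1 := by
      rw [← map_mul, h, hd1]
    have e2 : va w x * va w (algebraMap (Si Fq F) F n) = 1 := by
      rw [← va_mul, h, hd2]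
    by_cases hn : n ∈ w.asIdeal
    · have h3 : V.valuation (algebraMap (Si Fq F) F n) < 1 := (VWF_mem Fq F V hV n).1 hn
      have h4 : va w (algebraMap (Si Fq F) F n) < 1 := (va_int_lt w n).2 hn
      constructor
      · intro h5
        have h6 : V.valuation x * V.valuation (algebraMap (Si Fq F) F n) < 1 :=
          (mul_le_of_le_one_left' h5).trans_lt h3
        exact absurd e1 h6.ne
      · intro h5
        have h6 : va w x * va w (algebraMap (Si Fq F) F n) < 1 :=
          mul_lt_one_of_nonneg_of_lt_one_right h5 (va_nonneg w _) h4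
        exact absurd e2 h6.ne
    · obtain ⟨h3, h4⟩ := h1 n hn
      rw [h3, mul_one] at e1
      rw [h4, mul_one] at e2
      rw [e1, e2]
      exact ⟨fun _ => le_rfl, fun _ => le_rfl⟩

end vwf

theorem p_VWF : Stmt_VWF := by
  intro Fq _ _ F _ _ _ _ V hV
  exact ⟨VWF_w Fq F V hV, VWF_main Fq F V hV⟩

end Pool.FQ
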