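import Pool.Agent.Work.MP_972ac7_Q.Defs
import Pool.Agent.Work.MP_972ac7_Q.Interface1

set_option autoImplicit false

/-! # THEOREM FQ (MP_972ac7_al): quaternionic lattices in products of `SL2` over local fields of odd
characteristic (function fields).  Definitions. -/

open MeasureTheory IsDedekindDomain Polynomial
open scoped Quaternion ENNReal NNReal WithZero

noncomputable section

namespace Pool.FQ

open Pool.PQ Pool.PL Pool.TFD Pool.TC

/-! ## Abstract arithmetic data -/

/-- Arithmetic data: `O` is the ring of the elements of the global field `F` of positive characteristic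
which are integral outside of the finite set `P` of places; `K p` is the completion at `p`, its norm is the
normalized absolute value.  (The product formula `1 ≤ ∏ p, ‖e p x‖` for `x ∈ O`, `x ≠ 0` and the finiteness of `O / x O`
follow from `fin` and `many`.) -/
structure Ar (F : Type) [Field F] (P : Type) [Fintype P] (K : P → Type)
    [∀ p, NormedField (K p)] where
  O : Subring F
  e : ∀ p, F →+* K p
  L : ∀ p, LG (K p)
  he : ∀ p, (L p).e = 1
  um : ∀ p, ∀ x y : K p, ‖x + y‖ ≤ max ‖x‖ ‖y‖
  fin : ∀ C : ℝ, {x : F | x ∈ O ∧ ∀ p, ‖e p x‖ ≤ C}.Finite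
  many : ∃ c : ℝ, 0 < c ∧ ∀ B : ℝ, ∃ (β : P → ℝ) (Y : Finset F), (∀ p, B ≤ β p) ∧
    (∀ y ∈ Y, y ∈ O) ∧ (∀ y ∈ Y, ∀ p, ‖e p y‖ ≤ β p) ∧ c * ∏ p, β p ≤ (Y.card : ℝ)

/-- the cell property of the conics `c₁ x² + c₂ y² = μ` over `k` -/
def CellF (k : Type) [NormedField k] (c₁ c₂ : k) : Prop :=
  ∃ C : ℝ, 0 < C ∧ ∀ (μ : k) (β κ : ℝ), 0 < β → 1 ≤ κ → ∃ (N : ℕ) (cl : k × k → Fin N),
    (N : ℝ) ≤ C * κ ∧ ∀ p p' p'' : k × k, c₁ * p.1 ^ 2 + c₂ * p.2 ^ 2 = μ →
    c₁ * p'.1 ^ 2 + c₂ * p'.2 ^ 2 = μ → c₁ * p''.1 ^ 2 + c₂ * p''.2 ^ 2 = μ →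
    ‖p.1‖ ≤ β → ‖p.2‖ ≤ β → ‖p'.1‖ ≤ β → ‖p'.2‖ ≤ β → ‖p''.1‖ ≤ β → ‖p''.2‖ ≤ β →
    cl p = cl p' → cl p = cl p'' →
    ‖(p'.1 - p.1) * (p''.2 - p.2) - (p''.1 - p.1) * (p'.2 - p.2)‖ * κ ^ 3 ≤ C * β ^ 2

/-! ## Quaternions -/

/-- the coordinates of a quaternion -/
def co4 {F : Type} [Field F] {a b : F} (z : ℍ[F, a, b]) : Fin 4 → F :=
  ![z.re, z.imI, z.imJ, z.imK]

theorem co4_ext {F : Type} [Field F] {a b : F} {z w : ℍ[F, a, b]} (h : ∀ j, co4 z j = co4 w j) :
    z = w := by
  have h0 := h 0
  have h1 := h 1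
  have h2 := h 2
  have h3 := h 3
  simp only [co4, Matrix.cons_val_zero, Matrix.cons_val_one, Matrix.cons_val] at h0 h1 h2 h3
  ext
  · exact h0
  · exact h1
  · exact h2
  · exact h3

/-- the norm one quaternions with coordinates in `O` -/
def GOs {F : Type} [Field F] (O : Subring F) {a b : F} (ha : a ∈ O) (hb : b ∈ O) :
    Subgroup (unitary ℍ[F, a, b]) where
  carrier := {z | ∀ j, co4 z.1 j ∈ O}
  mul_mem' := by
    intro z w hz hw j
    have z0 := hz 0
    have z1 := hz 1
    have z2 := hz 2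
    have z3 := hz 3
    have w0 := hw 0
    have w1 := hw 1
    have w2 := hw 2
    have w3 := hw 3
    simp only [co4, Matrix.cons_val_zero, Matrix.cons_val_one, Matrix.cons_val] at z0 z1 z2 z3 w0 w1 w2 w3
    have h0 : (0 : F) ∈ O := zero_mem _
    fin_cases j
    · change (z.1 * w.1).re ∈ O
      rw [QuaternionAlgebra.re_mul]
      exact sub_mem (add_mem (add_mem (add_mem (mul_mem z0 w0) (mul_mem (mul_mem ha z1) w1))
        (mul_mem (mul_mem hb z2) w2)) (mul_mem (mul_mem (mul_mem h0 hb) z2) w3))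
        (mul_mem (mul_mem (mul_mem ha hb) z3) w3)
    · change (z.1 * w.1).imI ∈ O
      rw [QuaternionAlgebra.imI_mul]
      exact add_mem (sub_mem (add_mem (add_mem (mul_mem z0 w1) (mul_mem z1 w0))
        (mul_mem (mul_mem h0 z1) w1)) (mul_mem (mul_mem hb z2) w3)) (mul_mem (mul_mem hb z3) w2)
    · change (z.1 * w.1).imJ ∈ O
      rw [QuaternionAlgebra.imJ_mul]
      exact sub_mem (add_mem (add_mem (add_mem (mul_mem z0 w2) (mul_mem (mul_mem ha z1) w3))
        (mul_mem z2 w0)) (mul_mem (mul_mem h0 z2) w1)) (mul_mem (mul_mem ha z3) w1)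
    · change (z.1 * w.1).imK ∈ O
      rw [QuaternionAlgebra.imK_mul]
      exact add_mem (sub_mem (add_mem (add_mem (mul_mem z0 w3) (mul_mem z1 w2))
        (mul_mem (mul_mem h0 z1) w3)) (mul_mem z2 w1)) (mul_mem z3 w0)
  one_mem' := by
    intro j
    fin_cases j
    · exact one_mem O
    · exact zero_mem O
    · exact zero_mem O
    · exact zero_mem O
  inv_mem' := by
    intro z hz j
    have z0 := hz 0
    have z1 := hz 1
    have z2 := hz 2
    have z3 := hz 3
    simp only [co4, Matrix.cons_val_zero, Matrix.cons_val_one, Matrix.cons_val] at z0 z1 z2 z3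
    fin_cases j
    · change (star z.1).re ∈ O
      rw [QuaternionAlgebra.re_star, zero_mul, add_zero]
      exact z0
    · change (star z.1).imI ∈ O
      rw [QuaternionAlgebra.imI_star]
      exact neg_mem z1
    · change (star z.1).imJ ∈ O
      rw [QuaternionAlgebra.imJ_star]
      exact neg_mem z2
    · change (star z.1).imK ∈ O
      rw [QuaternionAlgebra.imK_star]
      exact neg_mem z3

theorem mem_GOs {F : Type} [Field F] {O : Subring F} {a b : F} {ha : a ∈ O} {hb : b ∈ O}
    {z : unitary ℍ[F, a, b]} : z ∈ GOs O ha hb ↔ ∀ j, co4 z.1 j ∈ O := Iff.rfl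

/-- The arithmetic data together with a quaternion division algebra `(a, b)`, `a, b ∈ O`; the indices `i : ι` with the
places `pl i` are the places of `P` where the algebra splits. -/
structure Qd (F : Type) [Field F] (P : Type) [Fintype P] (K : P → Type)
    [∀ p, NormedField (K p)] (ι : Type) extends Ar F P K where
  a : F
  b : F
  ha : a ∈ O
  hb : b ∈ O
  dv : ∀ z : ℍ[F, a, b], nrq z = 0 → z = 0
  pl : ι → P
  inj : Function.Injective pl
  x : ∀ i, K (pl i)
  y : ∀ i, K (pl i)
  spl : ∀ i, x i ^ 2 - e (pl i) a * y i ^ 2 = e (pl i) b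
  nsp : ∀ p, (∀ i, pl i ≠ p) → ∃ C : ℝ, ∀ z : ℍ[F, a, b], nrq z = 1 → ∀ j, ‖e p (co4 z j)‖ ≤ C

section Qd

variable {F : Type} [Field F] {P : Type} [Fintype P] {K : P → Type} [∀ p, NormedField (K p)]
  {ι : Type}

/-- the local field at the split place `i` -/
abbrev Qd.k (D : Qd F P K ι) (i : ι) : Type := K (D.pl i)

/-- the local field data at the split place `i` -/
def Qd.Lk (D : Qd F P K ι) (i : ι) : LG (D.k i) := D.L (D.pl i)

/-- the matrix at the place `i` -/
def Qd.mt (D : Qd F P K ι) (i : ι) (z : ℍ[F, D.a, D.b]) : Matrix (Fin 2) (Fin 2) (D.k i) :=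
  mq (D.e (D.pl i)) (D.x i) (D.y i) z

/-- the embedding of the norm one group in the product of the groups `SL2 (k i)` -/
def Qd.Th (D : Qd F P K ι) : unitary ℍ[F, D.a, D.b] →* GG D.k :=
  MonoidHom.pi fun i => th (D.e (D.pl i)) (D.spl i)

/-- the norm one quaternions with coordinates in `O` -/
def Qd.G (D : Qd F P K ι) : Subgroup (unitary ℍ[F, D.a, D.b]) := GOs D.O D.ha D.hb

/-- the lattice -/
def Qd.Γ (D : Qd F P K ι) : Subgroup (GG D.k) := D.G.map D.Th

theorem Qd.Th_apply (D : Qd F P K ι) (z : unitary ℍ[F, D.a, D.b]) (i : ι) :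
    ((D.Th z i : SL2 (D.k i)) : Matrix (Fin 2) (Fin 2) (D.k i)) = D.mt i z.1 := rfl

end Qd

/-! ## Completions -/

section compl

variable {R : Type} [CommRing R] [IsDedekindDomain R]

/-- the number of elements of the residue field (at least 2) -/
def qw (w : HeightOneSpectrum R) : ℕ := max 2 (Nat.card (R ⧸ w.asIdeal))

theorem one_lt_qw (w : HeightOneSpectrum R) : (1 : ℝ≥0) < (qw w : ℝ≥0) := by
  have h : 2 ≤ qw w := le_max_left _ _
  exact_mod_cast (by omega : 1 < qw w)

theorem qw_ne (w : HeightOneSpectrum R) : (qw w : ℝ≥0) ≠ 0 := ne_zero_of_lt (one_lt_qw w)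

variable (F : Type) [Field F] [Algebra R F] [IsFractionRing R F]

/-- the completion at `w` -/
def KW (w : HeightOneSpectrum R) : Type := w.adicCompletion F

instance instRankOneF (w : HeightOneSpectrum R) :
    (Valued.v : Valuation (w.adicCompletion F) ℤᵐ⁰).RankOne :=
  Valuation.IsRankOneDiscrete.rankOne (Valued.v : Valuation (w.adicCompletion F) ℤᵐ⁰) (one_lt_qw w)

instance instNFKW (w : HeightOneSpectrum R) : NormedField (KW F w) :=
  Valued.toNormedField (w.adicCompletion F) ℤᵐ⁰

/-- the embedding of `F` in the completion at `w` -/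
def em (w : HeightOneSpectrum R) : F →+* KW F w := algebraMap F (w.adicCompletion F)

end compl

/-! ## Function fields -/

section ff

variable (Fq : Type) [Field Fq]

instance instDecRF : DecidableEq (RatFunc Fq) := Classical.decEq _

/-- The valuation ring at infinity of `Fq(X)`: the fractions of degree at most `0`. -/
abbrev Ri : ValuationSubring (RatFunc Fq) := (RatFunc.inftyValuation Fq).valuationSubring

instance instDVRRi : IsDiscreteValuationRing (Ri Fq) := by
  have : (RatFunc.inftyValuation Fq).IsRankOneDiscrete := Valuation.IsRankOneDiscrete.mk' _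
  exact (RatFunc.inftyValuation Fq).valuationSubring_isDiscreteValuationRing

variable (F : Type) [Field F] [Algebra (RatFunc Fq) F]

/-- The ring of the functions which are regular at all the places at infinity: the integral closure in `F` of the
valuation ring at infinity of `Fq(X)`. -/
abbrev Si : Type := integralClosure (Ri Fq) F

/-- the function `X` as an element of `F` -/
def tX : F := algebraMap (RatFunc Fq) F RatFunc.X

variable [FunctionField Fq F] [Algebra.IsSeparable (RatFunc Fq) F]

instance instFracSi : IsFractionRing (Si Fq F) F :=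
  integralClosure.isFractionRing_of_finite_extension (RatFunc Fq) F

instance instDedSi : IsDedekindDomain (Si Fq F) :=
  integralClosure.isDedekindDomain (Ri Fq) (RatFunc Fq) F

/-- the places of `F` at infinity: the maximal ideals of `Si` -/
abbrev Pinf : Type := HeightOneSpectrum (Si Fq F)

variable [Algebra Fq[X] F]

/-- the integral closure of `Fq[X]` in `F` -/
abbrev Oi : Subring F := (FunctionField.ringOfIntegers Fq F).toSubring

end ff

end Pool.FQ
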