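import Pool.Agent.Work.MP_972ac7_F.Interface
import Pool.Agent.Work.MP_972ac7_C.Gap

set_option autoImplicit false

/-! # THEOREM FQ (MP_972ac7_al): the assembly (draft with the last block as hypothesis) -/

open MeasureTheory IsDedekindDomain Polynomial
open scoped Quaternion ENNReal NNReal WithZero

noncomputable section

namespace Pool.FQ

open Pool.PQ Pool.PL Pool.TFD Pool.TC

/-- THEOREM FQ from the blocks. -/
theorem theoremFQ_of (hP : Pool.PQ.Stmt_PGG) (hF : Pool.PQ.Stmt_FNQ) (hG : Stmt_GPF)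
    (Fq : Type) [Field Fq] [Finite Fq] (F : Type) [Field F] [Algebra (RatFunc Fq) F]
    [Algebra Fq[X] F] [IsScalarTower Fq[X] (RatFunc Fq) F] [FunctionField Fq F]
    [Algebra.IsSeparable (RatFunc Fq) F] (h2 : (2 : Fq) ≠ 0)
    (a b : FunctionField.ringOfIntegers Fq F)
    (hd : ∀ x y z t : F, x ^ 2 - (a : F) * y ^ 2 - (b : F) * z ^ 2 + (a : F) * (b : F) * t ^ 2 = 0 →
      x = 0 ∧ y = 0 ∧ z = 0 ∧ t = 0)
    (hs : ∃ p q : Pinf Fq F, p ≠ q ∧ SplF (a : F) (b : F) p ∧ SplF (a : F) (b : F) q)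
    (B : Subgroup (unitary ℍ[FunctionField.ringOfIntegers Fq F, a, b])) (hB : B.FiniteIndex)
    (Γ : Type) [Group Γ] (f : B →* Γ) (hf : f.range.FiniteIndex) :
    TracialGap Γ ∧ PropTau Γ := by
  have hd' : ∀ z : ℍ[F, (a : F), (b : F)], nrq z = 0 → z = 0 := by
    intro z hz
    obtain ⟨h0, h1, h2, h3⟩ := hd z.re z.imI z.imJ z.imK hz
    ext
    · exact h0
    · exact h1
    · exact h2
    · exact h3
  have h := allC_comm _ Γ B hB f hf (hG hP hF Fq F h2 a b hd' hs)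
  exact ⟨tracialGap_of_FTGap Γ h, Pool.TFD.p_TAU Γ (p_FTF Γ h)⟩

end Pool.FQ
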