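import Pool.Agent.Work.MP_972ac7_F.FA_Si

set_option autoImplicit false
set_option linter.unusedSectionVars false

/-! # MP_972ac7_al, positive characteristic: the integral closure of `Fq[X]` -/

open IsDedekindDomain HeightOneSpectrum WithZeroMulInt Polynomial
open scoped NNReal WithZero

noncomputable section

namespace Pool.FQ

open Pool.PL

section oi

variable (Fq : Type) [Field Fq] [Finite Fq] (F : Type) [Field F] [Algebra (RatFunc Fq) F]
  [FunctionField Fq F] [Algebra.IsSeparable (RatFunc Fq) F] [Algebra Fq[X] F]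
  [IsScalarTower Fq[X] (RatFunc Fq) F]

theorem oi_mem (x : F) : x ∈ Oi Fq F ↔ IsIntegral Fq[X] x := Iff.rfl

variable {F}

theorem tX_ne : tX Fq F ≠ 0 := by
  unfold tX
  rw [Ne, map_eq_zero]
  exact RatFunc.X_ne_zero

theorem two_le_q : (2 : ℝ) ≤ Nat.card Fq := by
  have : 1 < Nat.card Fq := Finite.one_lt_card
  exact_mod_cast this

theorem pi_X1 (w : Pinf Fq F) : 2 ≤ va w (tX Fq F) := by
  rw [pi_X]
  have h1 : dw Fq w ≠ 0 := by
    intro h
    have h2 := pi_X Fq w
    rw [h, pow_zero] at h2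
    have h3 := pi_over Fq w
    have h4 : algebraMap (Ri Fq) (Si Fq F) (ti Fq) ∈ w.asIdeal := by
      have h5 : ti Fq ∈ (vi Fq).asIdeal := Ideal.mem_span_singleton_self _
      rw [h3.over] at h5
      exact h5
    have h6 := (va_int_lt (F := F) w _).2 h4
    have h7 : algebraMap (Si Fq F) F (algebraMap (Ri Fq) (Si Fq F) (ti Fq)) = (tX Fq F)⁻¹ := by
      rw [tX, ← map_inv₀]
      rfl
    rw [h7] at h6
    have h8 : va w (tX Fq F) * va w (tX Fq F)⁻¹ = 1 := by
      rw [← va_mul, mul_inv_cancel₀ (tX_ne Fq), va_one]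
    rw [h2, one_mul] at h8
    rw [h8] at h6
    exact lt_irrefl _ h6
  calc (2 : ℝ) ≤ (Nat.card Fq : ℝ) ^ 1 := by rw [pow_one]; exact two_le_q Fq
    _ ≤ _ := pow_le_pow_right₀ (by linarith [two_le_q Fq]) (Nat.one_le_iff_ne_zero.2 h1)

theorem va_pow {R : Type} [CommRing R] [IsDedekindDomain R] {F : Type} [Field F] [Algebra R F]
    [IsFractionRing R F] (w : HeightOneSpectrum R) (x : F) (n : ℕ) : va w (x ^ n) = va w x ^ n :=
  map_pow _ _ _

theorem va_inv {R : Type} [CommRing R] [IsDedekindDomain R] {F : Type} [Field F] [Algebra R F]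
    [IsFractionRing R F] (w : HeightOneSpectrum R) (x : F) : va w x⁻¹ = (va w x)⁻¹ :=
  map_inv₀ _ _

/-- the absolute value of a polynomial at infinity -/
theorem pi_poly (w : Pinf Fq F) (f : Fq[X]) (n : ℕ) (h : f.natDegree ≤ n) :
    va w (algebraMap Fq[X] F f) ≤ va w (tX Fq F) ^ n := by
  have h1 : IsIntegral (Ri Fq) (algebraMap Fq[X] F f * (tX Fq F)⁻¹ ^ n) := by
    have e : algebraMap Fq[X] F f * (tX Fq F)⁻¹ ^ n =
        algebraMap (RatFunc Fq) F (algebraMap Fq[X] (RatFunc Fq) f * RatFunc.X⁻¹ ^ n) := by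
      rw [map_mul, ← IsScalarTower.algebraMap_apply, map_pow, map_inv₀]
      rfl
    rw [e, pi_rat]
    by_cases hf : f = 0
    · left
      rw [hf, map_zero, zero_mul]
    · right
      have hX : (RatFunc.X : RatFunc Fq)⁻¹ ^ n ≠ 0 := pow_ne_zero _ (inv_ne_zero RatFunc.X_ne_zero)
      rw [RatFunc.intDegree_mul (RatFunc.algebraMap_ne_zero hf) hX, RatFunc.intDegree_polynomial]
      have hd : ((RatFunc.X : RatFunc Fq)⁻¹ ^ n).intDegree = -(n : ℤ) := by
        rw [inv_pow, RatFunc.intDegree_inv, ← RatFunc.algebraMap_X, ← map_pow,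
          RatFunc.intDegree_polynomial, natDegree_X_pow]
      rw [hd]
      omega
  have h2 := (pi_int Fq _).2 h1 w
  rw [va_mul, va_pow, va_inv] at h2
  have h3 : 0 < va w (tX Fq F) ^ n := pow_pos (va_pos w (tX_ne Fq)) n
  rw [inv_pow, mul_inv_le_iff₀ h3, one_mul] at h2
  exact h2

/-- the degree bound -/
theorem pi_deg (f : Fq[X]) (n : ℕ)
    (h : IsIntegral (Ri Fq) (algebraMap (RatFunc Fq) F (algebraMap Fq[X] (RatFunc Fq) f * RatFunc.X⁻¹ ^ n))) :
    f.natDegree ≤ n := by
  rw [pi_rat] at h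
  by_cases hf : f = 0
  · rw [hf, natDegree_zero]
    exact Nat.zero_le _
  have hX : (RatFunc.X : RatFunc Fq)⁻¹ ^ n ≠ 0 := pow_ne_zero _ (inv_ne_zero RatFunc.X_ne_zero)
  rcases h with h | h
  · exact absurd h (mul_ne_zero (RatFunc.algebraMap_ne_zero hf) hX)
  · rw [RatFunc.intDegree_mul (RatFunc.algebraMap_ne_zero hf) hX, RatFunc.intDegree_polynomial] at h
    have hd : ((RatFunc.X : RatFunc Fq)⁻¹ ^ n).intDegree = -(n : ℤ) := by
      rw [inv_pow, RatFunc.intDegree_inv, ← RatFunc.algebraMap_X, ← map_pow,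
        RatFunc.intDegree_polynomial, natDegree_X_pow]
    rw [hd] at h
    omega

theorem poly_fin (n : ℕ) : {f : Fq[X] | f.natDegree ≤ n}.Finite := by
  have h1 : Finite (degreeLT Fq (n + 1)) := Finite.of_equiv _ (degreeLTEquiv Fq (n + 1)).symm.toEquiv
  have h2 : ((degreeLT Fq (n + 1) : Submodule Fq Fq[X]) : Set Fq[X]).Finite := h1
  refine h2.subset fun f hf => ?_
  change f ∈ degreeLT Fq (n + 1)
  rw [mem_degreeLT]
  exact lt_of_le_of_lt degree_le_natDegree (by exact_mod_cast Nat.lt_succ_of_le hf)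

variable (F) in
/-- an integral basis -/
theorem oi_basis : ∃ (s : Finset F) (b : Module.Basis s (RatFunc Fq) F), ∀ i, b i ∈ Oi Fq F :=
  FiniteDimensional.exists_is_basis_integral Fq[X] (RatFunc Fq) F

theorem oi_pow [Fintype (Pinf Fq F)] (C : ℝ) : ∃ m : ℕ, ∀ w : Pinf Fq F, C ≤ va w (tX Fq F) ^ m := by
  obtain ⟨m, hm⟩ := pow_unbounded_of_one_lt C (one_lt_two : (1 : ℝ) < 2)
  exact ⟨m, fun w => hm.le.trans (pow_le_pow_left₀ zero_le_two (pi_X1 Fq w) m)⟩

/-- **fin** -/
theorem oi_fin (C : ℝ) : {x : F | x ∈ Oi Fq F ∧ ∀ w : Pinf Fq F, ‖em F w x‖ ≤ C}.Finite := by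
  have hP := pi_fin Fq F
  have hPf : Fintype (Pinf Fq F) := Fintype.ofFinite _
  obtain ⟨s, b, hb⟩ := oi_basis Fq F
  obtain ⟨m, hm⟩ := oi_pow Fq (F := F) C
  obtain ⟨m', hm'⟩ := oi_pow Fq (F := F) (∑ w : Pinf Fq F, ∑ i, va w (b i))
  have hbm : ∀ w i, va w (b i) ≤ va w (tX Fq F) ^ m' := fun w i => by
    refine le_trans ?_ (hm' w)
    refine le_trans ?_ (Finset.single_le_sum (f := fun w => ∑ i, va w (b i))
      (fun w _ => Finset.sum_nonneg fun i _ => va_nonneg w _) (Finset.mem_univ w))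
    exact Finset.single_le_sum (f := fun i => va w (b i)) (fun i _ => va_nonneg w _)
      (Finset.mem_univ i)
  set n := m + m' with hn
  have key : ∀ x : F, x ∈ Oi Fq F → (∀ w : Pinf Fq F, ‖em F w x‖ ≤ C) → ∀ i : s,
      ∃ f ∈ {f : Fq[X] | f.natDegree ≤ n},
        algebraMap Fq[X] (RatFunc Fq) f = Algebra.trace (RatFunc Fq) F (x * b i) := by
    intro x hx hxC i
    have h1 : IsIntegral Fq[X] (x * b i) := IsIntegral.mul hx (hb i)
    have h2 : IsIntegral Fq[X] (Algebra.trace (RatFunc Fq) F (x * b i)) := Algebra.isIntegral_trace h1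
    obtain ⟨f, hf⟩ := (IsIntegrallyClosed.isIntegral_iff (R := Fq[X]) (K := RatFunc Fq)).1 h2
    refine ⟨f, ?_, hf⟩
    apply pi_deg Fq (F := F)
    have h3 : IsIntegral (Ri Fq) ((RatFunc.X⁻¹ : RatFunc Fq) ^ n • (x * b i)) := by
      rw [← pi_int]
      intro w
      have h4 : 0 < va w (tX Fq F) := va_pos w (tX_ne Fq)
      have h5 : va w x ≤ va w (tX Fq F) ^ m := by
        rw [← norm_em]
        exact (hxC w).trans (hm w)
      have e : (RatFunc.X⁻¹ : RatFunc Fq) ^ n • (x * b i) = (tX Fq F)⁻¹ ^ n * (x * b i) := by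
        rw [Algebra.smul_def, map_pow, map_inv₀]
        rfl
      rw [e, va_mul, va_pow, va_inv, va_mul, inv_pow, inv_mul_le_iff₀ (pow_pos h4 n), mul_one, hn,
        pow_add]
      exact mul_le_mul h5 (hbm w i) (va_nonneg w _) (pow_nonneg h4.le _)
    have h6 : IsIntegral (Ri Fq) (Algebra.trace (RatFunc Fq) F
        ((RatFunc.X⁻¹ : RatFunc Fq) ^ n • (x * b i))) := Algebra.isIntegral_trace h3
    rw [map_smul, smul_eq_mul, ← hf, mul_comm] at h6
    exact h6.map (IsScalarTower.toAlgHom (Ri Fq) (RatFunc Fq) F)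
  have hfin : (Set.pi (Set.univ : Set s) (fun _ => (algebraMap Fq[X] (RatFunc Fq)) ''
      {f : Fq[X] | f.natDegree ≤ n})).Finite :=
    Set.Finite.pi fun _ => (poly_fin Fq n).image _
  apply Set.Finite.of_injOn (f := fun x (i : s) => Algebra.trace (RatFunc Fq) F (x * b i)) ?_ ?_ hfin
  · intro x hx i _
    exact key x hx.1 hx.2 i
  · intro x _ y _ hxy
    rw [← sub_eq_zero]
    apply (traceForm_nondegenerate (RatFunc Fq) F).1
    intro z
    have h0 : Algebra.traceForm (RatFunc Fq) F (x - y) = 0 := by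
      apply b.ext
      intro i
      rw [Algebra.traceForm_apply, sub_mul, map_sub, LinearMap.zero_apply, sub_eq_zero]
      exact congrFun hxy i
    rw [h0, LinearMap.zero_apply]

/-- **many** -/
theorem oi_many [Fintype (Pinf Fq F)] : ∃ c : ℝ, 0 < c ∧ ∀ B : ℝ,
    ∃ (β : Pinf Fq F → ℝ) (Y : Finset F), (∀ p, B ≤ β p) ∧ (∀ y ∈ Y, y ∈ Oi Fq F) ∧
      (∀ y ∈ Y, ∀ p, ‖em F p y‖ ≤ β p) ∧ c * ∏ p, β p ≤ (Y.card : ℝ) := by
  classical
  obtain ⟨s, b, hb⟩ := oi_basis Fq F
  set M : ℝ := 1 + ∑ w : Pinf Fq F, ∑ i, va w (b i) with hM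
  have hMs : 0 ≤ ∑ w : Pinf Fq F, ∑ i, va w (b i) :=
    Finset.sum_nonneg fun w _ => Finset.sum_nonneg fun i _ => va_nonneg w _
  have hM1 : 1 ≤ M := by linarith
  have hbm : ∀ (w : Pinf Fq F) (i : s), va w (b i) ≤ M := fun w i => by
    have h1 : va w (b i) ≤ ∑ i, va w (b i) :=
      Finset.single_le_sum (f := fun i => va w (b i)) (fun i _ => va_nonneg w _) (Finset.mem_univ i)
    have h2 : ∑ i, va w (b i) ≤ ∑ w : Pinf Fq F, ∑ i, va w (b i) :=
      Finset.single_le_sum (f := fun w => ∑ i, va w (b i))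
        (fun w _ => Finset.sum_nonneg fun i _ => va_nonneg w _) (Finset.mem_univ w)
    linarith
  refine ⟨(M ^ Fintype.card (Pinf Fq F))⁻¹, by positivity, fun B => ?_⟩
  obtain ⟨m, hm⟩ := oi_pow Fq (F := F) B
  have hfd : Finite (degreeLT Fq (m + 1)) :=
    Finite.of_equiv _ (degreeLTEquiv Fq (m + 1)).symm.toEquiv
  have hft : Fintype (degreeLT Fq (m + 1)) := Fintype.ofFinite _
  let φ : (s → degreeLT Fq (m + 1)) → F := fun f => ∑ i, algebraMap Fq[X] F (f i).1 * b i
  have hφ : Function.Injective φ := by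
    intro f g hfg
    have h1 : ∑ i, algebraMap Fq[X] (RatFunc Fq) (f i).1 • b i =
        ∑ i, algebraMap Fq[X] (RatFunc Fq) (g i).1 • b i := by
      have h2 : ∀ f : s → degreeLT Fq (m + 1),
          ∑ i, algebraMap Fq[X] (RatFunc Fq) (f i).1 • b i = φ f := fun f => by
        refine Finset.sum_congr rfl fun i _ => ?_
        rw [Algebra.smul_def, ← IsScalarTower.algebraMap_apply]
      rw [h2, h2, hfg]
    have h3 := congrArg b.repr h1
    funext i
    have h4 := congrArg (fun z => z i) h3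
    simp only [map_sum, map_smul, Module.Basis.repr_self, Finsupp.coe_finsetSum, Finset.sum_apply,
      Finsupp.smul_apply, Finsupp.single_apply, smul_eq_mul, mul_ite, mul_one, mul_zero,
      Finset.sum_ite_eq', Finset.mem_univ, if_true] at h4
    exact Subtype.ext (IsFractionRing.injective Fq[X] (RatFunc Fq) h4)
  refine ⟨fun w => M * va w (tX Fq F) ^ m, Finset.univ.image φ, fun w => ?_, ?_, ?_, ?_⟩
  · have h1 : 0 ≤ va w (tX Fq F) ^ m := pow_nonneg (va_nonneg w _) m
    calc B ≤ va w (tX Fq F) ^ m := hm w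
      _ = 1 * va w (tX Fq F) ^ m := (one_mul _).symm
      _ ≤ _ := mul_le_mul_of_nonneg_right hM1 h1
  · intro y hy
    obtain ⟨f, _, rfl⟩ := Finset.mem_image.1 hy
    exact Subring.sum_mem _ fun i _ => Subring.mul_mem _ isIntegral_algebraMap (hb i)
  · intro y hy w
    obtain ⟨f, _, rfl⟩ := Finset.mem_image.1 hy
    rw [norm_em]
    have h1 : ∀ t : Finset s, va w (∑ i ∈ t, algebraMap Fq[X] F (f i).1 * b i) ≤
        M * va w (tX Fq F) ^ m := by
      intro t
      induction t using Finset.induction_on with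
      | empty =>
        rw [Finset.sum_empty, va_zero]
        exact mul_nonneg (by linarith) (pow_nonneg (va_nonneg w _) m)
      | insert a t ha ih =>
        rw [Finset.sum_insert ha]
        refine (va_add_le w _ _).trans (max_le ?_ ih)
        rw [va_mul, mul_comm]
        refine mul_le_mul (hbm w a) (pi_poly Fq w _ m ?_) (va_nonneg w _) (by linarith)
        have h2 := (f a).2
        rw [mem_degreeLT] at h2
        by_cases h0 : ((f a).1 : Fq[X]) = 0
        · rw [h0, natDegree_zero]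
          exact Nat.zero_le _
        · rw [degree_eq_natDegree h0] at h2
          exact Nat.lt_succ_iff.1 (by exact_mod_cast h2)
    exact h1 Finset.univ
  · rw [Finset.card_image_of_injective _ hφ, Finset.card_univ, Finset.prod_mul_distrib,
      Finset.prod_const, Finset.card_univ, ← mul_assoc, inv_mul_cancel₀ (by positivity), one_mul]
    have h1 : Fintype.card (s → degreeLT Fq (m + 1)) = (Nat.card Fq ^ (m + 1)) ^ s.card := by
      rw [← Nat.card_eq_fintype_card, Nat.card_fun, Nat.card_congr (degreeLTEquiv Fq (m + 1)).toEquiv,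
        Nat.card_fun]
      simp
    have h2 : s.card = Module.finrank (RatFunc Fq) F := by
      rw [Module.finrank_eq_card_basis b, Fintype.card_coe]
    have h3 : ∏ w : Pinf Fq F, va w (tX Fq F) ^ m = (Nat.card Fq : ℝ) ^ (m * s.card) := by
      rw [h2, ← pi_sum Fq F, Finset.mul_sum, ← Finset.prod_pow_eq_pow_sum]
      refine Finset.prod_congr rfl fun w _ => ?_
      rw [pi_X, ← pow_mul, mul_comm]
    rw [h3, h1]
    push_cast
    rw [← pow_mul]
    exact pow_le_pow_right₀ (by linarith [two_le_q Fq]) (Nat.mul_le_mul_right _ (Nat.le_succ m))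

end oi

end Pool.FQ
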