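import Pool.Agent.Work.MP_972ac7_F.Interface2
import Pool.Agent.Work.MP_972ac7_F.FA_Oi
import Pool.Agent.Work.MP_972ac7_F.FA_End
import Pool.Agent.Work.MP_972ac7_F.Draft

set_option autoImplicit false

/-! # THEOREM FQ (MP_972ac7_al): places as valuation subrings -/

open MeasureTheory IsDedekindDomain Polynomial
open scoped Quaternion ENNReal NNReal WithZero

noncomputable section

namespace Pool.FQ

open Pool.PQ Pool.PL Pool.TFD Pool.TC

/-- the valuation of `V` and the norm of the completion at `w` -/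
theorem VSF_lt {F k : Type} [Field F] [NormedField k] (e : F →+* k) (V : ValuationSubring F)
    (h : ∀ x : F, x ∈ V ↔ ‖e x‖ ≤ 1) (x y : F) (hxy : V.valuation x < V.valuation y) :
    ‖e x‖ < ‖e y‖ := by
  have hy : y ≠ 0 := by
    rintro rfl
    rw [map_zero] at hxy
    exact not_lt_zero hxy
  have hvy : V.valuation y ≠ 0 := (Valuation.ne_zero_iff _).2 hy
  by_cases hx : x = 0
  · rw [hx, map_zero, norm_zero]
    exact norm_pos_iff.2 ((map_ne_zero e).2 hy)
  · by_contra hcon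
    have hcon' : ‖e y‖ ≤ ‖e x‖ := not_lt.1 hcon
    have hex : 0 < ‖e x‖ := norm_pos_iff.2 ((map_ne_zero e).2 hx)
    have h1 : ‖e (y / x)‖ ≤ 1 := by
      rw [map_div₀, norm_div]
      exact div_le_one_of_le₀ hcon' hex.le
    have h2 : y / x ∈ V := (h _).2 h1
    have h3 : V.valuation (y / x) ≤ 1 := (V.valuation_le_one_iff _).2 h2
    rw [map_div₀] at h3
    have hvx : V.valuation x ≠ 0 := (Valuation.ne_zero_iff _).2 hx
    have h4 : V.valuation y ≤ V.valuation x := by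
      have := (div_le_one₀ (zero_lt_iff.2 hvx)).1 h3
      exact this
    exact absurd hxy (not_lt.2 h4)

/-- the data of two split places -/
theorem VSF_split (hV : Stmt_VWF) (hH : Stmt_HNF) (Fq : Type) [Field Fq] [Finite Fq] (F : Type)
    [Field F] [Algebra (RatFunc Fq) F] [FunctionField Fq F] [Algebra.IsSeparable (RatFunc Fq) F]
    (h2 : (2 : Fq) ≠ 0) (a b : F) (V : ValuationSubring F) (hX : tX Fq F ∉ V)
    (hs : ∃ x y : F, V.valuation (x ^ 2 - a * y ^ 2 - b) < V.valuation b) :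
    ∃ w : Pinf Fq F, (∀ x : F, x ∈ V ↔ ‖em F w x‖ ≤ 1) ∧ SplF a b w := by
  obtain ⟨w, hw⟩ := hV Fq F V hX
  refine ⟨w, hw, ?_⟩
  obtain ⟨x, y, hxy⟩ := hs
  have h1 := VSF_lt (em F w) V hw _ _ hxy
  let g : Fq →+* KW F w :=
    (em F w).comp ((algebraMap (RatFunc Fq) F).comp (algebraMap Fq (RatFunc Fq)))
  have hn : ‖(2 : KW F w)‖ = 1 := by
    have hq : ∀ c : Fq, c ≠ 0 → ‖g c‖ = 1 := by
      intro c hc
      have hfin : ∃ n : ℕ, 0 < n ∧ c ^ n = 1 := by
        have : Fintype Fq := Fintype.ofFinite _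
        refine ⟨Fintype.card Fq - 1, ?_, FiniteField.pow_card_sub_one_eq_one c hc⟩
        have := Fintype.one_lt_card (α := Fq)
        omega
      obtain ⟨n, hn0, hn1⟩ := hfin
      have h5 : ‖g c‖ ^ n = 1 := by
        rw [← norm_pow, ← map_pow, hn1, map_one, norm_one]
      exact (pow_eq_one_iff_of_nonneg (norm_nonneg _) hn0.ne').1 h5
    have h6 := hq 2 h2
    rw [map_ofNat g 2] at h6
    exact h6
  have hprop : ProperSpace (KW F w) := inferInstance
  have hcomp : CompleteSpace (KW F w) := inferInstance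
  obtain ⟨x', y', h3⟩ := hH (KW F w) hn (em F w a) (em F w b) (em F w x) (em F w y) (by
    have h4 : em F w x ^ 2 - em F w a * em F w y ^ 2 - em F w b =
        em F w (x ^ 2 - a * y ^ 2 - b) := by
      simp only [map_sub, map_mul, map_pow]
    rw [h4]
    exact h1)
  exact ⟨x', y', h3⟩

/-- THEOREM FQ, places as valuation subrings. -/
theorem theoremFQV_of (hP : Pool.PQ.Stmt_PGG) (hF : Pool.PQ.Stmt_FNQ) (hG : Stmt_GPF)
    (hV : Stmt_VWF) (hH : Stmt_HNF)
    (Fq : Type) [Field Fq] [Finite Fq] (F : Type) [Field F] [Algebra (RatFunc Fq) F]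
    [Algebra Fq[X] F] [IsScalarTower Fq[X] (RatFunc Fq) F] [FunctionField Fq F]
    [Algebra.IsSeparable (RatFunc Fq) F] (h2 : (2 : Fq) ≠ 0)
    (a b : FunctionField.ringOfIntegers Fq F)
    (hd : ∀ x y z t : F, x ^ 2 - (a : F) * y ^ 2 - (b : F) * z ^ 2 + (a : F) * (b : F) * t ^ 2 = 0 →
      x = 0 ∧ y = 0 ∧ z = 0 ∧ t = 0)
    (hs : ∃ V W : ValuationSubring F, V ≠ W ∧ algebraMap (RatFunc Fq) F RatFunc.X ∉ V ∧
      algebraMap (RatFunc Fq) F RatFunc.X ∉ W ∧
      (∃ x y : F, V.valuation (x ^ 2 - (a : F) * y ^ 2 - (b : F)) < V.valuation (b : F)) ∧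
      ∃ x y : F, W.valuation (x ^ 2 - (a : F) * y ^ 2 - (b : F)) < W.valuation (b : F))
    (B : Subgroup (unitary ℍ[FunctionField.ringOfIntegers Fq F, a, b])) (hB : B.FiniteIndex)
    (Γ : Type) [Group Γ] (f : B →* Γ) (hf : f.range.FiniteIndex) :
    TracialGap Γ ∧ PropTau Γ := by
  obtain ⟨V, W, hVW, hXV, hXW, hsV, hsW⟩ := hs
  obtain ⟨p, hp, hps⟩ := VSF_split hV hH Fq F h2 (a : F) (b : F) V hXV hsV
  obtain ⟨q, hq, hqs⟩ := VSF_split hV hH Fq F h2 (a : F) (b : F) W hXW hsW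
  refine theoremFQ_of hP hF hG Fq F h2 a b hd ⟨p, q, ?_, hps, hqs⟩ B hB Γ f hf
  rintro rfl
  apply hVW
  ext x
  rw [hp, hq]

end Pool.FQ
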