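import Pool.Agent.Work.MP_972ac7_F.Defs

set_option autoImplicit false
set_option linter.unusedSectionVars false

/-! # MP_972ac7_al, positive characteristic: completions of a Dedekind domain with finite quotients -/

open IsDedekindDomain HeightOneSpectrum WithZeroMulInt
open scoped NNReal WithZero

noncomputable section

namespace Pool.FQ

open Pool.PL

section loc

variable {R : Type} [CommRing R] [IsDedekindDomain R]
  {F : Type} [Field F] [Algebra R F] [IsFractionRing R F] (w : HeightOneSpectrum R)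

theorem FA_fin (R : Type) [CommRing R] [Ring.HasFiniteQuotients R] (w : HeightOneSpectrum R) :
    Finite (R ⧸ w.asIdeal) := Ring.HasFiniteQuotients.finiteQuotient w.ne_bot

theorem FA_qw [Ring.HasFiniteQuotients R] : qw w = Nat.card (R ⧸ w.asIdeal) := by
  have h1 := FA_fin R w
  have h2 : Nontrivial (R ⧸ w.asIdeal) := Ideal.Quotient.nontrivial_iff.2 w.isPrime.ne_top
  have h3 : 1 < Nat.card (R ⧸ w.asIdeal) := Finite.one_lt_card
  exact max_eq_right h3

/-- the normalized absolute value -/
def va (w : HeightOneSpectrum R) (x : F) : ℝ := w.adicAbv (K := F) (one_lt_qw w) x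

theorem va_def (x : F) : va w x = toNNReal (qw_ne w) (w.valuation F x) := rfl

lemma rkKW_hom : (instRankOneF F w).hom' = (toNNReal (qw_ne w)).comp
    (Valuation.IsRankOneDiscrete.valueGroup₀_equiv_withZeroMulInt
      (Valued.v : Valuation (w.adicCompletion F) ℤᵐ⁰)).toMonoidWithZeroHom := rfl

set_option backward.isDefEq.respectTransparency.types false in
theorem norm_KW (x : KW F w) :
    ‖x‖ = toNNReal (qw_ne w) (Valued.v (show w.adicCompletion F from x)) := by
  change @norm (w.adicCompletion F) (Valued.toNormedField (w.adicCompletion F) ℤᵐ⁰).toNorm x = _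
  simp [Valued.toNormedField.norm_def, Valuation.RankOne.hom, rkKW_hom,
    Valuation.IsRankOneDiscrete.valueGroup₀_equiv_withZeroMulInt_restrict_apply_of_surjective
      (valuedAdicCompletion_surjective F w)]

theorem norm_em (x : F) : ‖em F w x‖ = va w x := by
  rw [norm_KW, va_def]
  congr 2
  exact HeightOneSpectrum.valuedAdicCompletion_eq_valuation' w x

instance uKW : IsUltrametricDist (KW F w) := by
  unfold KW instNFKW
  infer_instance

theorem va_mul (x y : F) : va w (x * y) = va w x * va w y := map_mul _ _ _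

theorem va_add_le (x y : F) : va w (x + y) ≤ max (va w x) (va w y) :=
  w.isNonarchimedean_adicAbv (one_lt_qw w) x y

theorem va_neg (x : F) : va w (-x) = va w x := AbsoluteValue.map_neg _ x

theorem va_nonneg (x : F) : 0 ≤ va w x := AbsoluteValue.nonneg _ x

theorem va_pos {x : F} (hx : x ≠ 0) : 0 < va w x := AbsoluteValue.pos _ hx

theorem va_one : va w (1 : F) = 1 := map_one _

theorem va_zero : va w (0 : F) = 0 := map_zero _

theorem va_int (x : R) : va w (algebraMap R F x) ≤ 1 := w.adicAbv_coe_le_one (one_lt_qw w) x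

theorem va_int_lt (x : R) : va w (algebraMap R F x) < 1 ↔ x ∈ w.asIdeal :=
  w.adicAbv_coe_lt_one_iff (one_lt_qw w) x

theorem va_le_one_iff (x : F) : va w x ≤ 1 ↔ w.valuation F x ≤ 1 := by
  rw [va_def]
  have h : ((toNNReal (qw_ne w) (w.valuation F x) : ℝ≥0) : ℝ) ≤ 1 ↔
      toNNReal (qw_ne w) (w.valuation F x) ≤ 1 := by norm_cast
  rw [h, WithZeroMulInt.toNNReal_le_one_iff (one_lt_qw w)]

theorem va_lt_one_iff (x : F) : va w x < 1 ↔ w.valuation F x < 1 := by
  rw [va_def]
  have h : ((toNNReal (qw_ne w) (w.valuation F x) : ℝ≥0) : ℝ) < 1 ↔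
      toNNReal (qw_ne w) (w.valuation F x) < 1 := by norm_cast
  rw [h, WithZeroMulInt.toNNReal_lt_one_iff (one_lt_qw w)]

/-- the norms are powers of `q` -/
theorem KW_pow (x : KW F w) (hx : x ≠ 0) : ∃ n : ℤ, ‖x‖ = (qw w : ℝ) ^ n := by
  have h1 : Valued.v (show w.adicCompletion F from x) ≠ (0 : WithZero (Multiplicative ℤ)) :=
    (Valuation.ne_zero_iff _).2 hx
  refine ⟨Multiplicative.toAdd (WithZero.unzero h1), ?_⟩
  rw [norm_KW, WithZeroMulInt.toNNReal_neg_apply _ h1]
  push_cast
  rfl

variable (F) in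
theorem KW_unif : ∃ π : KW F w, ‖π‖ = (qw w : ℝ)⁻¹ := by
  obtain ⟨π, hπ⟩ := w.valuation_exists_uniformizer F
  refine ⟨em F w π, ?_⟩
  rw [norm_em, va_def, hπ, WithZeroMulInt.toNNReal_neg_apply _ WithZero.exp_ne_zero]
  push_cast
  rw [← zpow_neg_one]
  rfl


theorem KW_sub (x y : KW F w) : ‖x - y‖ ≤ max ‖x‖ ‖y‖ := by
  rw [sub_eq_add_neg, ← norm_neg y]
  exact IsUltrametricDist.norm_add_le_max _ _

/-- elements of norm at most 1 are congruent to integers -/
theorem KW_dense (x : KW F w) (hx : ‖x‖ ≤ 1) :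
    ∃ a : R, ‖x - em F w (algebraMap R F a)‖ < 1 := by
  have hd : DenseRange (fun y : F => em F w y) :=
    HeightOneSpectrum.denseRange_algebraMap (R := R) F w
  obtain ⟨y, hy⟩ := hd.exists_dist_lt x one_pos
  rw [dist_eq_norm] at hy
  have hy1 : ‖em F w y‖ ≤ 1 := by
    have e : em F w y = x - (x - em F w y) := by ring
    rw [e]
    exact (KW_sub w _ _).trans (max_le hx hy.le)
  rw [norm_em] at hy1
  obtain ⟨a, ha⟩ := HeightOneSpectrum.exists_valuation_sub_lt_of_integer w
    ((va_le_one_iff w y).1 hy1) 1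
  refine ⟨a, ?_⟩
  have h3 : va w (algebraMap R F a - y) < 1 := (va_lt_one_iff w _).2 ha
  rw [← norm_em, map_sub] at h3
  have e : x - em F w (algebraMap R F a) =
      (x - em F w y) - (em F w (algebraMap R F a) - em F w y) := by ring
  rw [e]
  exact (KW_sub w _ _).trans_lt (max_lt hy h3)

variable [Ring.HasFiniteQuotients R]

variable (F) in
/-- representatives of the residue field -/
theorem KW_rep : ∃ r : Fin (qw w) → KW F w,
    (∀ i, ‖r i‖ ≤ 1) ∧ (∀ i j, ‖r i - r j‖ < 1 → i = j) ∧
      ∀ x : KW F w, ‖x‖ ≤ 1 → ∃ i, ‖x - r i‖ < 1 := by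
  have hfin := FA_fin R w
  have E : (R ⧸ w.asIdeal) ≃ Fin (qw w) := Finite.equivFinOfCardEq (FA_qw w).symm
  have hs : ∀ i, ∃ a : R, Ideal.Quotient.mk w.asIdeal a = E.symm i := fun i =>
    Ideal.Quotient.mk_surjective _
  choose a ha using hs
  refine ⟨fun i => em F w (algebraMap R F (a i)), fun i => ?_, ?_, ?_⟩
  · rw [norm_em]
    exact va_int w _
  · intro i j h
    rw [← map_sub, norm_em, ← map_sub, va_int_lt, ← Ideal.Quotient.eq, ha, ha] at h
    exact E.symm.injective h
  · intro x hx
    obtain ⟨b, hb⟩ := KW_dense w x hx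
    refine ⟨E (Ideal.Quotient.mk w.asIdeal b), ?_⟩
    have h1 : ‖em F w (algebraMap R F b) -
        em F w (algebraMap R F (a (E (Ideal.Quotient.mk w.asIdeal b))))‖ < 1 := by
      rw [← map_sub, norm_em, ← map_sub, va_int_lt, ← Ideal.Quotient.eq, ha,
        Equiv.symm_apply_apply]
    have e : x - em F w (algebraMap R F (a (E (Ideal.Quotient.mk w.asIdeal b)))) =
        (x - em F w (algebraMap R F b)) +
          (em F w (algebraMap R F b) -
            em F w (algebraMap R F (a (E (Ideal.Quotient.mk w.asIdeal b))))) := by ring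
    rw [e]
    exact (IsUltrametricDist.norm_add_le_max _ _).trans_lt (max_lt hb h1)

open Valued in
instance pKW : ProperSpace (KW F w) := by
  obtain ⟨r, hr1, hr2, hr3⟩ := KW_rep F w
  have hmem : ∀ x : w.adicCompletion F, x ∈ 𝒪[w.adicCompletion F] ↔
      ‖(show KW F w from x)‖ ≤ 1 := by
    intro x
    exact (Valued.toNormedField.norm_le_one_iff (L := w.adicCompletion F)).symm
  have hfin : Finite 𝓀[w.adicCompletion F] := by
    apply Finite.of_surjective (fun i => IsLocalRing.residue 𝒪[w.adicCompletion F]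
      ⟨r i, (hmem _).2 (hr1 i)⟩)
    intro z
    obtain ⟨x, rfl⟩ := IsLocalRing.residue_surjective z
    obtain ⟨i, hi⟩ := hr3 x.1 ((hmem _).1 x.2)
    refine ⟨i, ?_⟩
    rw [← sub_eq_zero, ← map_sub, IsLocalRing.residue_eq_zero_iff,
      IsLocalRing.mem_maximalIdeal, mem_nonunits_iff]
    intro hun
    have h1 := (Valuation.integer.integers (Valued.v (R := w.adicCompletion F))).one_of_isUnit hun
    have hi' : ‖r i - (show KW F w from x.1)‖ < 1 := by
      rw [norm_sub_rev]
      exact hi
    have h2 : Valued.v ((show w.adicCompletion F from r i) - x.1) < 1 :=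
      (Valued.toNormedField.norm_lt_one_iff (L := w.adicCompletion F)).1 hi'
    exact absurd h1 h2.ne
  exact (Valued.integer.properSpace_iff_completeSpace_and_isDiscreteValuationRing_integer_and_finite_residueField
    (K := w.adicCompletion F)).2 ⟨inferInstance,
      inferInstanceAs (IsDiscreteValuationRing (w.adicCompletionIntegers F)), hfin⟩

variable (F) in
/-- the completion is a local field -/
theorem KW_loc : ∃ L : LocF (KW F w), L.q = qw w := by
  obtain ⟨π, hπ⟩ := KW_unif F w
  obtain ⟨r, hr1, hr2, hr3⟩ := KW_rep F w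
  exact ⟨{ q := qw w
           two_le := le_max_left _ _
           ϖ := π
           norm_ϖ := hπ
           disc := KW_pow w
           rep := r
           rep_le := hr1
           rep_inj := hr2
           rep_surj := hr3 }, rfl⟩

omit [Ring.HasFiniteQuotients R] in
theorem KW_two (h2 : (2 : F) ≠ 0) : (2 : KW F w) ≠ 0 := by
  have h := (map_ne_zero (em F w)).2 h2
  rwa [map_ofNat] at h

end loc

end Pool.FQ
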