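import Pool.Agent.Work.MP_972ac7_F.FA_Loc

set_option autoImplicit false
set_option linter.unusedSectionVars false

/-! # MP_972ac7_al, positive characteristic: the valuation ring at infinity of `Fq(X)` -/

open IsDedekindDomain HeightOneSpectrum WithZeroMulInt Polynomial
open scoped NNReal WithZero

noncomputable section

namespace Pool.FQ

open Pool.PL

section ri

variable (Fq : Type) [Field Fq]

theorem mem_Ri (r : RatFunc Fq) : r ∈ Ri Fq ↔ r = 0 ∨ r.intDegree ≤ 0 := by
  unfold Ri
  rw [Valuation.mem_valuationSubring_iff, RatFunc.inftyValuation_apply, RatFunc.inftyValuationDef]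
  split_ifs with h
  · simp [h]
  · simp only [h, false_or]
    rw [← WithZero.exp_zero, WithZero.exp_le_exp]

/-- `1 / X` -/
def ti : Ri Fq := ⟨RatFunc.X⁻¹, by
  rw [mem_Ri]
  right
  rw [RatFunc.intDegree_inv, RatFunc.intDegree_X]
  norm_num⟩

theorem ti_ne : ti Fq ≠ 0 := by
  intro h
  have := congrArg Subtype.val h
  exact inv_ne_zero RatFunc.X_ne_zero this

theorem ti_dvd (a : Ri Fq) : ti Fq ∣ a ↔ (a : RatFunc Fq) = 0 ∨ (a : RatFunc Fq).intDegree < 0 := by
  constructor
  · rintro ⟨b, rfl⟩
    by_cases hb : (b : RatFunc Fq) = 0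
    · left
      change (ti Fq : RatFunc Fq) * (b : RatFunc Fq) = 0
      rw [hb, mul_zero]
    · right
      change ((ti Fq : RatFunc Fq) * (b : RatFunc Fq)).intDegree < 0
      have h1 : (ti Fq : RatFunc Fq) = RatFunc.X⁻¹ := rfl
      rw [RatFunc.intDegree_mul (by rw [h1]; exact inv_ne_zero RatFunc.X_ne_zero) hb, h1,
        RatFunc.intDegree_inv, RatFunc.intDegree_X]
      have h2 := (mem_Ri Fq b).1 b.2
      rcases h2 with h2 | h2
      · exact absurd h2 hb
      · linarith
  · intro h
    rcases h with h | h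
    · have : a = 0 := Subtype.ext h
      rw [this]
      exact dvd_zero _
    · have ha : (a : RatFunc Fq) ≠ 0 := by
        intro h0
        rw [h0, RatFunc.intDegree_zero] at h
        exact lt_irrefl _ h
      refine ⟨⟨RatFunc.X * (a : RatFunc Fq), ?_⟩, ?_⟩
      · rw [mem_Ri]
        right
        rw [RatFunc.intDegree_mul RatFunc.X_ne_zero ha, RatFunc.intDegree_X]
        linarith
      · apply Subtype.ext
        change (a : RatFunc Fq) = RatFunc.X⁻¹ * (RatFunc.X * (a : RatFunc Fq))
        rw [inv_mul_cancel_left₀ RatFunc.X_ne_zero]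

/-- the constants -/
def cRi : Fq →+* Ri Fq := (RatFunc.C).codRestrict (Ri Fq).toSubring (fun c => by
  change RatFunc.C c ∈ Ri Fq
  rw [mem_Ri, RatFunc.intDegree_C]
  exact Or.inr le_rfl)

theorem ti_res (a : Ri Fq) : ∃ c : Fq, ti Fq ∣ a - cRi Fq c := by
  by_cases ha : (a : RatFunc Fq) = 0
  · refine ⟨0, ?_⟩
    have : a = 0 := Subtype.ext ha
    rw [this, map_zero, sub_zero]
    exact dvd_zero _
  · have h1 := ((mem_Ri Fq a).1 a.2).resolve_left ha
    rcases h1.lt_or_eq with h1 | h1
    · refine ⟨0, ?_⟩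
      rw [map_zero, sub_zero, ti_dvd]
      exact Or.inr h1
    · set p := (a : RatFunc Fq).num with hp
      set q := (a : RatFunc Fq).denom with hq
      have hp0 : p ≠ 0 := RatFunc.num_ne_zero ha
      have hq0 : q ≠ 0 := RatFunc.denom_ne_zero _
      have hd : p.natDegree = q.natDegree := by
        have : (a : RatFunc Fq).intDegree = (p.natDegree : ℤ) - q.natDegree := rfl
        rw [h1] at this
        omega
      have hqm : q.Monic := RatFunc.monic_denom _
      refine ⟨p.leadingCoeff, ?_⟩
      rw [ti_dvd]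
      by_cases h0 : ((a - cRi Fq p.leadingCoeff : Ri Fq) : RatFunc Fq) = 0
      · exact Or.inl h0
      right
      have e1 : ((a - cRi Fq p.leadingCoeff : Ri Fq) : RatFunc Fq) =
          algebraMap Fq[X] (RatFunc Fq) (p - C p.leadingCoeff * q) /
            algebraMap Fq[X] (RatFunc Fq) q := by
        change (a : RatFunc Fq) - RatFunc.C p.leadingCoeff = _
        have hq' : algebraMap Fq[X] (RatFunc Fq) q ≠ 0 := RatFunc.algebraMap_ne_zero hq0
        rw [map_sub, map_mul, sub_div, mul_div_assoc, div_self hq', mul_one, RatFunc.algebraMap_C,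
          RatFunc.num_div_denom]
      rw [e1] at h0 ⊢
      have h2 : p - C p.leadingCoeff * q ≠ 0 := by
        intro h3
        rw [h3, map_zero, zero_div] at h0
        exact h0 rfl
      rw [RatFunc.intDegree_div (RatFunc.algebraMap_ne_zero h2) (RatFunc.algebraMap_ne_zero hq0),
        RatFunc.intDegree_polynomial, RatFunc.intDegree_polynomial]
      have h4 : (p - C p.leadingCoeff * q).degree < p.degree := by
        apply Polynomial.degree_sub_lt_left _ hp0
        · rw [leadingCoeff_mul, hqm.leadingCoeff, mul_one, leadingCoeff_C]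
        · rw [degree_C_mul (leadingCoeff_ne_zero.2 hp0), degree_eq_natDegree hp0,
            degree_eq_natDegree hq0, hd]
      have h5 := natDegree_lt_natDegree h2 h4
      omega

theorem ti_not_unit : ¬ IsUnit (ti Fq) := by
  intro h
  have h1 := (ti_dvd Fq 1).1 h.dvd
  rcases h1 with h1 | h1
  · exact one_ne_zero h1
  · change (1 : RatFunc Fq).intDegree < 0 at h1
    rw [RatFunc.intDegree_one] at h1
    exact lt_irrefl _ h1

/-- the residue field is `Fq` -/
theorem ti_quot : Function.Bijective
    ((Ideal.Quotient.mk (Ideal.span {ti Fq})).comp (cRi Fq)) := by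
  have hn : Nontrivial (Ri Fq ⧸ Ideal.span {ti Fq}) := by
    rw [Ideal.Quotient.nontrivial_iff, Ne, Ideal.span_singleton_eq_top]
    exact ti_not_unit Fq
  constructor
  · exact RingHom.injective _
  · intro z
    obtain ⟨a, rfl⟩ := Ideal.Quotient.mk_surjective z
    obtain ⟨c, hc⟩ := ti_res Fq a
    refine ⟨c, ?_⟩
    rw [RingHom.comp_apply, eq_comm, Ideal.Quotient.eq, Ideal.mem_span_singleton]
    exact hc

theorem ti_max : (Ideal.span {ti Fq}).IsMaximal := by
  let e := RingEquiv.ofBijective _ (ti_quot Fq)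
  apply Ideal.Quotient.maximal_of_isField
  exact MulEquiv.isField (Field.toIsField Fq) e.symm.toMulEquiv

theorem ti_span : IsLocalRing.maximalIdeal (Ri Fq) = Ideal.span {ti Fq} :=
  (IsLocalRing.eq_maximalIdeal (ti_max Fq)).symm

theorem ti_card : Nat.card (Ri Fq ⧸ Ideal.span {ti Fq}) = Nat.card Fq :=
  (Nat.card_congr (Equiv.ofBijective _ (ti_quot Fq))).symm

variable [Finite Fq]

instance hfRi : Ring.HasFiniteQuotients (Ri Fq) where
  finiteQuotient {I} hI := by
    have h1 : Irreducible (ti Fq) := by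
      rw [IsDiscreteValuationRing.irreducible_iff_uniformizer]
      exact ti_span Fq
    obtain ⟨n, hn⟩ := IsDiscreteValuationRing.ideal_eq_span_pow_irreducible hI h1
    rw [← Ideal.span_singleton_pow] at hn
    rw [hn]
    have h2 : Finite (Ri Fq ⧸ Ideal.span {ti Fq}) :=
      Finite.of_surjective _ (ti_quot Fq).2
    exact Ideal.finite_quotient_pow ⟨{ti Fq}, by simp⟩ n

/-- the place at infinity of `Fq(X)` -/
def vi : HeightOneSpectrum (Ri Fq) where
  asIdeal := Ideal.span {ti Fq}
  isPrime := (ti_max Fq).isPrime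
  ne_bot := by
    rw [Ne, Ideal.span_singleton_eq_bot]
    exact ti_ne Fq

theorem vi_ti : (vi Fq).valuation (RatFunc Fq) (RatFunc.X⁻¹ : RatFunc Fq) = WithZero.exp (-1 : ℤ) := by
  have h : (RatFunc.X⁻¹ : RatFunc Fq) = algebraMap (Ri Fq) (RatFunc Fq) (ti Fq) := rfl
  rw [h, valuation_of_algebraMap]
  exact intValuation_singleton (vi Fq) (ti_ne Fq) rfl

end ri

end Pool.FQ
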