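import Pool.Agent.Work.MP_972ac7_F.FA_Ri

set_option autoImplicit false
set_option linter.unusedSectionVars false
set_option linter.deprecated false

/-! # MP_972ac7_al, positive characteristic: the places at infinity of `F` -/

open IsDedekindDomain HeightOneSpectrum WithZeroMulInt Polynomial
open scoped NNReal WithZero

noncomputable section

namespace Pool.FQ

open Pool.PL

section si

variable (Fq : Type) [Field Fq] (F : Type) [Field F] [Algebra (RatFunc Fq) F]
  [FunctionField Fq F] [Algebra.IsSeparable (RatFunc Fq) F]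

instance mfSi : Module.Finite (Ri Fq) (Si Fq F) :=
  IsIntegralClosure.finite (Ri Fq) (RatFunc Fq) F (Si Fq F)

instance ttSi : Module.IsTorsionFree (Ri Fq) (Si Fq F) := inferInstance

variable [Finite Fq]

instance hfSi : Ring.HasFiniteQuotients (Si Fq F) :=
  Ring.HasFiniteQuotients.of_module_finite (Ri Fq) (Si Fq F)

variable {F}

theorem pi_over (w : Pinf Fq F) : w.asIdeal.LiesOver (vi Fq).asIdeal := by
  have h1 : (w.asIdeal.under (Ri Fq)) ≠ ⊥ := Ideal.under_ne_bot (Ri Fq) w.ne_bot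
  have h2 : (w.asIdeal.under (Ri Fq)).IsMaximal := Ring.HasFiniteQuotients.maximalOfPrime h1
  refine ⟨?_⟩
  rw [IsLocalRing.eq_maximalIdeal h2, ti_span]
  rfl

/-- ramification index times residue degree -/
def dw (w : Pinf Fq F) : ℕ :=
  (vi Fq).asIdeal.ramificationIdx' w.asIdeal * (vi Fq).asIdeal.inertiaDeg' w.asIdeal

theorem pi_card (w : Pinf Fq F) :
    qw w = Nat.card Fq ^ (vi Fq).asIdeal.inertiaDeg' w.asIdeal := by
  have h1 := pi_over Fq w
  have h3 : (vi Fq).asIdeal.IsMaximal := ti_max Fq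
  rw [FA_qw, Ideal.inertiaDeg'_algebraMap, ← ti_card Fq]
  let _ : Field (Ri Fq ⧸ (vi Fq).asIdeal) := Ideal.Quotient.field _
  exact Module.natCard_eq_pow_finrank (K := Ri Fq ⧸ (vi Fq).asIdeal)

theorem va_exp {R : Type} [CommRing R] [IsDedekindDomain R] {F : Type} [Field F] [Algebra R F]
    [IsFractionRing R F] (w : HeightOneSpectrum R) (x : F) (n : ℤ)
    (h : w.valuation F x = WithZero.exp n) : va w x = (qw w : ℝ) ^ n := by
  rw [va_def, h, WithZeroMulInt.toNNReal_neg_apply _ WithZero.exp_ne_zero]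
  push_cast
  rfl

theorem pi_X (w : Pinf Fq F) : va w (tX Fq F) = (Nat.card Fq : ℝ) ^ dw Fq w := by
  have h1 := pi_over Fq w
  have h2 := HeightOneSpectrum.valuation_liesOver (K := RatFunc Fq) F (vi Fq) w RatFunc.X⁻¹
  rw [vi_ti] at h2
  have h3 : w.valuation F (tX Fq F) =
      WithZero.exp (((vi Fq).asIdeal.ramificationIdx' w.asIdeal : ℕ) : ℤ) := by
    have h4 : w.valuation F (algebraMap (RatFunc Fq) F RatFunc.X⁻¹) = (w.valuation F (tX Fq F))⁻¹ := by
      rw [map_inv₀, map_inv₀]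
      rfl
    rw [h4, ← WithZero.exp_nsmul] at h2
    rw [← inv_inv (w.valuation F (tX Fq F)), ← h2, ← WithZero.exp_neg]
    congr 1
    simp
  rw [va_exp w _ _ h3, zpow_natCast, pi_card, dw]
  push_cast
  rw [← pow_mul, mul_comm]

variable (F) in
theorem pi_mem (P : Ideal (Si Fq F)) :
    P ∈ IsDedekindDomain.primesOverFinset (vi Fq).asIdeal (Si Fq F) ↔
      P.IsPrime ∧ P.LiesOver (vi Fq).asIdeal := by
  have h3 : (vi Fq).asIdeal.IsMaximal := ti_max Fq
  exact IsDedekindDomain.mem_primesOverFinset_iff (vi Fq).ne_bot _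

variable (F) in
theorem pi_fin : Finite (Pinf Fq F) := by
  apply Finite.of_injective
    (β := {P // P ∈ IsDedekindDomain.primesOverFinset (vi Fq).asIdeal (Si Fq F)})
    (fun w => ⟨w.asIdeal, (pi_mem Fq F _).2 ⟨w.isPrime, pi_over Fq w⟩⟩)
  intro w w' h
  exact HeightOneSpectrum.ext (congrArg Subtype.val h)

variable (F) in
theorem pi_sum [Fintype (Pinf Fq F)] :
    ∑ w : Pinf Fq F, dw Fq w = Module.finrank (RatFunc Fq) F := by
  have h0 : (vi Fq).asIdeal ≠ ⊥ := (vi Fq).ne_bot
  have h3 : (vi Fq).asIdeal.IsMaximal := ti_max Fq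
  rw [← Ideal.sum_ramification_inertia (Si Fq F) (RatFunc Fq) F h0]
  apply Finset.sum_bij (i := fun (w : Pinf Fq F) _ => w.asIdeal)
  · intro w _
    exact (pi_mem Fq F _).2 ⟨w.isPrime, pi_over Fq w⟩
  · intro w _ w' _ h
    exact HeightOneSpectrum.ext h
  · intro P hP
    obtain ⟨h1, h2⟩ := (pi_mem Fq F _).1 hP
    exact ⟨⟨P, h1, Ideal.ne_bot_of_liesOver_of_ne_bot h0 P⟩, Finset.mem_univ _, rfl⟩
  · intro w _
    rfl

/-- the elements integral at all places at infinity -/
theorem pi_int (x : F) : (∀ w : Pinf Fq F, va w x ≤ 1) ↔ IsIntegral (Ri Fq) x := by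
  constructor
  · intro h
    obtain ⟨y, hy⟩ := mem_integers_of_valuation_le_one (R := Si Fq F) F x
      (fun w => (va_le_one_iff w x).1 (h w))
    rw [← hy]
    exact y.2
  · intro h w
    exact va_int w (⟨x, h⟩ : Si Fq F)

/-- the degree of a rational function -/
theorem pi_rat (r : RatFunc Fq) : IsIntegral (Ri Fq) (algebraMap (RatFunc Fq) F r) ↔
    r = 0 ∨ r.intDegree ≤ 0 := by
  rw [← mem_Ri]
  constructor
  · intro h
    have h1 : IsIntegral (Ri Fq) r := (isIntegral_algebraMap_iff (algebraMap (RatFunc Fq) F).injective).1 h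
    obtain ⟨y, hy⟩ := (IsIntegrallyClosed.isIntegral_iff (R := Ri Fq) (K := RatFunc Fq)).1 h1
    rw [← hy]
    exact y.2
  · intro h
    exact (isIntegral_algebraMap (R := Ri Fq) (A := RatFunc Fq) (x := ⟨r, h⟩)).map
      (IsScalarTower.toAlgHom (Ri Fq) (RatFunc Fq) F)

end si

end Pool.FQ
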