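import Pool.Agent.Work.MP_972ac7_F.B_SCG
import Pool.Agent.Work.MP_972ac7_F.B_CEF
import Pool.Agent.Work.MP_972ac7_F.B_CVF
import Pool.Agent.Work.MP_972ac7_F.B_NBF
import Pool.Agent.Work.MP_972ac7_F.B_PFB
import Pool.Agent.Work.MP_972ac7_F.B_BXF
import Pool.Agent.Work.MP_972ac7_F.B_COF
import Pool.Agent.Work.MP_972ac7_F.B_CNF
import Pool.Agent.Work.MP_972ac7_F.B_RSF
import Pool.Agent.Work.MP_972ac7_F.B_LBF
import Pool.Agent.Work.MP_972ac7_F.B_CTF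
import Pool.Agent.Work.MP_972ac7_F.B_CLF
import Pool.Agent.Work.MP_972ac7_F.B_CKF
import Pool.Agent.Work.MP_972ac7_F.B_INF
import Pool.Agent.Work.MP_972ac7_F.B_ENF
import Pool.Agent.Work.MP_972ac7_F.B_FFA
import Pool.Agent.Work.MP_972ac7_F.B_QDF
import Pool.Agent.Work.MP_972ac7_F.B_ISF
import Pool.Agent.Work.MP_972ac7_F.B_GPF
import Pool.Agent.Work.MP_972ac7_F.Draft
import Pool.Agent.Work.MP_972ac7_Q.Final

set_option autoImplicit false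

/-! # THEOREM FQ (MP_972ac7_al): the assembly -/

open MeasureTheory IsDedekindDomain Polynomial
open scoped Quaternion ENNReal NNReal WithZero

noncomputable section

namespace Pool.FQ

open Pool.PQ Pool.PL Pool.TFD Pool.TC

theorem t_SCG : Stmt_SCG := p_SCG
theorem t_CEF : Stmt_CEF := p_CEF t_SCG
theorem t_CVF : Stmt_CVF := p_CVF
theorem t_NBF : Stmt_NBF := p_NBF
theorem t_PFB : Stmt_PFB := p_PFB t_SCG
theorem t_BXF : Stmt_BXF := p_BXF t_SCG t_PFB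
theorem t_COF : Stmt_COF := p_COF t_PFB
theorem t_CNF : Stmt_CNF := p_CNF t_PFB t_BXF t_COF
theorem t_RSF : Stmt_RSF := p_RSF t_BXF
theorem t_LBF : Stmt_LBF := p_LBF t_CVF t_NBF
theorem t_CTF : Stmt_CTF := p_CTF t_CEF t_CNF t_LBF
theorem t_CLF : Stmt_CLF := p_CLF t_SCG t_NBF
theorem t_CKF : Stmt_CKF := p_CKF t_CLF t_RSF
theorem t_INF : Stmt_INF := p_INF
theorem t_ENF : Stmt_ENF := p_ENF t_CTF t_CKF t_INF
theorem t_FFA : Stmt_FFA := p_FFA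
theorem t_QDF : Stmt_QDF := p_QDF t_FFA
theorem t_ISF : Stmt_ISF := p_ISF
theorem t_GPF : Stmt_GPF := p_GPF t_ENF t_QDF t_ISF

/-- THEOREM FQ. -/
theorem theoremFQ (Fq : Type) [Field Fq] [Finite Fq] (F : Type) [Field F] [Algebra (RatFunc Fq) F]
    [Algebra Fq[X] F] [IsScalarTower Fq[X] (RatFunc Fq) F] [FunctionField Fq F]
    [Algebra.IsSeparable (RatFunc Fq) F] (h2 : (2 : Fq) ≠ 0)
    (a b : FunctionField.ringOfIntegers Fq F)
    (hd : ∀ x y z t : F, x ^ 2 - (a : F) * y ^ 2 - (b : F) * z ^ 2 + (a : F) * (b : F) * t ^ 2 = 0 →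
      x = 0 ∧ y = 0 ∧ z = 0 ∧ t = 0)
    (hs : ∃ p q : Pinf Fq F, p ≠ q ∧ SplF (a : F) (b : F) p ∧ SplF (a : F) (b : F) q)
    (B : Subgroup (unitary ℍ[FunctionField.ringOfIntegers Fq F, a, b])) (hB : B.FiniteIndex)
    (Γ : Type) [Group Γ] (f : B →* Γ) (hf : f.range.FiniteIndex) :
    TracialGap Γ ∧ PropTau Γ :=
  theoremFQ_of t_PGG Pool.PQ.t_FNQ t_GPF Fq F h2 a b hd hs B hB Γ f hf

end Pool.FQ
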