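import Pool.Agent.Work.MP_972ac7_F.Final
import Pool.Agent.Work.MP_972ac7_F.End2
import Pool.Agent.Work.MP_972ac7_F.B_VWF
import Pool.Agent.Work.MP_972ac7_F.B_HNF

set_option autoImplicit false

/-! # THEOREM FQ (MP_972ac7_al): the assembly with places as valuation subrings -/

open MeasureTheory IsDedekindDomain Polynomial
open scoped Quaternion ENNReal NNReal WithZero

noncomputable section

namespace Pool.FQ

open Pool.PQ Pool.PL Pool.TFD Pool.TC

/-- THEOREM FQ. -/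
theorem theoremFQV (Fq : Type) [Field Fq] [Finite Fq] (F : Type) [Field F] [Algebra (RatFunc Fq) F]
    [Algebra Fq[X] F] [IsScalarTower Fq[X] (RatFunc Fq) F] [FunctionField Fq F]
    [Algebra.IsSeparable (RatFunc Fq) F] (h2 : (2 : Fq) ≠ 0)
    (a b : FunctionField.ringOfIntegers Fq F)
    (hd : ∀ x y z t : F, x ^ 2 - (a : F) * y ^ 2 - (b : F) * z ^ 2 + (a : F) * (b : F) * t ^ 2 = 0 →
      x = 0 ∧ y = 0 ∧ z = 0 ∧ t = 0)
    (hs : ∃ V W : ValuationSubring F, V ≠ W ∧ algebraMap (RatFunc Fq) F RatFunc.X ∉ V ∧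
      algebraMap (RatFunc Fq) F RatFunc.X ∉ W ∧
      (∃ x y : F, V.valuation (x ^ 2 - (a : F) * y ^ 2 - (b : F)) < V.valuation (b : F)) ∧
      ∃ x y : F, W.valuation (x ^ 2 - (a : F) * y ^ 2 - (b : F)) < W.valuation (b : F))
    (B : Subgroup (unitary ℍ[FunctionField.ringOfIntegers Fq F, a, b])) (hB : B.FiniteIndex)
    (Γ : Type) [Group Γ] (f : B →* Γ) (hf : f.range.FiniteIndex) :
    TracialGap Γ ∧ PropTau Γ :=
  theoremFQV_of t_PGG Pool.PQ.t_FNQ t_GPF p_VWF p_HNF Fq F h2 a b hd hs B hB Γ f hf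

end Pool.FQ
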