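import Pool.Agent.Work.MP_972ac7_F.Defs
import Pool.Agent.Work.MP_972ac7_Q.Interface2

set_option autoImplicit false

/-! # THEOREM FQ (MP_972ac7_al): block statements

Files `B_X.lean` in `Pool/Agent/Work/MP_972ac7_F`, `import Pool.Agent.Work.MP_972ac7_F.Interface`,
namespace `Pool.FQ`, `open Pool.PQ Pool.PL Pool.TFD Pool.TC`, `theorem p_X (hA : Stmt_A) ... : Stmt_X` with exactly the blocks of the
column `uses` as hypotheses in that order.  Auxiliary lemmas with the prefix `X_`.  Definitions in `Defs.lean`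
(`Ar CellF co4 GOs Qd Qd.k Qd.Lk Qd.mt Qd.Th Qd.G Qd.Γ`), `LG cs LatG mnm nm dnm GG th mq nrq` in `Pool/Agent/Work/MP_972ac7_Q/Defs.lean` and
`Pool/Agent/Work/MP_972ac7_P/Defs2.lean`.  MODELS: the corresponding blocks for number fields in
`Pool/Agent/Work/MP_972ac7_Q/B_*.lean` (named in each block); here there are no finite places, no denominators, `e = 1`, all norms
are ultrametric (`A.um`), so everything is shorter. -/

open MeasureTheory IsDedekindDomain Polynomial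
open scoped Quaternion ENNReal NNReal WithZero

noncomputable section

namespace Pool.FQ

open Pool.PQ Pool.PL Pool.TFD Pool.TC

/-! ### Local lemmas -/

/-- **SCG** (150).  Scaling.  First part: `n : ℤ` with `‖ϑ ^ n‖ ≤ s < ‖ϑ ^ (n+1)‖`, apply `sep_le` to the points `z / ϑ ^ n`.  Second part: `‖ϑ ^ (n-1)‖ < D ≤ ‖ϑ ^ n‖`,
apply `cov` with `r / ‖ϑ ^ n‖` to `x / ϑ ^ n`. -/
def Stmt_SCG : Prop :=
  ∀ (k : Type) [NormedField k] (L : LG k), ∃ C : ℝ, 1 ≤ C ∧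
    (∀ (s r : ℝ) (c : k) (Z : Finset k), 0 < s → s ≤ r → (∀ z ∈ Z, ‖z - c‖ ≤ r) →
      (∀ z ∈ Z, ∀ z' ∈ Z, z ≠ z' → s ≤ ‖z - z'‖) → (Z.card : ℝ) * s ^ L.e ≤ C * r ^ L.e) ∧
    ∀ D r : ℝ, 0 < r → r ≤ D → ∃ (N : ℕ) (cl : k → Fin N), (N : ℝ) * r ^ L.e ≤ C * D ^ L.e ∧
      ∀ x y : k, ‖x‖ ≤ D → ‖y‖ ≤ D → cl x = cl y → ‖x - y‖ ≤ r

/-- **CEF** (350), uses SCG.  Cells of the conic `q = μ`, `q (x, y) = c₁ x² + c₂ y²` (compare `Pool/Agent/Work/MP_972ac7_Q/B_ARC.lean`).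
(1) `j₀` = the number of `j : ℕ` with `4 ^ j ≤ κ`, so `4 ^ j₀ > κ`.  One class for the points with `max ‖x‖ ‖y‖ ≤ 8 ^ (-j₀) β`: there the determinant
`Δ` is at most `8 * 64 ^ (-j₀) β²` and `64 ^ j₀ = (4 ^ j₀) ^ 3 > κ ^ 3`.  (2) For `j < j₀` the shell `8 ^ (-j-1) β < max ‖x‖ ‖y‖ ≤ ρ := 8 ^ (-j) β`,
`η := 2 ^ (-j) β / κ ≤ ρ`.  Class of a point of the shell: `j`; the bit `‖x‖ ≤ ‖y‖`; the class (SCG, `D = ρ`, `r = η`) of the smaller coordinate; and a sign: if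
`(x₀, y₀)` is a chosen point of the conic in the same class (`j`, bit `‖x‖ ≤ ‖y‖`, class of `x`), then `c₂ (y - y₀) (y + y₀) = - c₁ (x - x₀) (x + x₀)`
has norm at most `‖c₁‖ η 2ρ` and `max ‖y - y₀‖ ‖y + y₀‖ ≥ ‖2‖ ‖y‖ / 2 ≥ ‖2‖ ρ / 16`, so one of `‖y - y₀‖`, `‖y + y₀‖` is at most `C' η`: the sign
says whether the first one is.  Two points of one class: `‖x - x'‖ ≤ η`, `‖y - y'‖ ≤ 2 C' η`.  (3) For `P = (x, y)`, `P' = P + u`, `P'' = P + w` on the conic: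
`c₁ x u₁ + c₂ y u₂ = - q u / 2`, `c₁ x w₁ + c₂ y w₂ = - q w / 2`, so `2 c₂ y Δ = w₁ q u - u₁ q w`, `2 c₁ x Δ = u₂ q w - w₂ q u`,
`Δ = u₁ w₂ - w₁ u₂`: `‖Δ‖ ρ ≤ C η³`, `η³ / ρ = β² / κ³`.  (4) Number of classes: `1 + ∑ 4 C 4 ^ (-j) κ`. -/
def Stmt_CEF : Prop :=
  ∀ (k : Type) [NormedField k] (L : LG k), L.e = 1 → ∀ c₁ c₂ : k, c₁ ≠ 0 → c₂ ≠ 0 →
    CellF k c₁ c₂

/-- **CVF** (100).  (Model `B_CVG`.)  `(y₀ - 1)(y₀ + 1) = -(c₁ y₁² + c₂ y₂² + c₃ y₃²)` has norm at most `C/Q²`; if `C₁ / Q ≤ ‖2‖ / 2` then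
`‖y₀ + 1‖ ≥ ‖2‖ / 2`; otherwise `Q` is bounded. -/
def Stmt_CVF : Prop :=
  ∀ (k : Type) [NormedField k], (2 : k) ≠ 0 → ∀ (c₁ c₂ c₃ : k) (C₁ : ℝ), 0 < C₁ →
    ∃ C : ℝ, 0 < C ∧ ∀ (y : Fin 4 → k) (Q : ℝ), 1 ≤ Q →
    y 0 ^ 2 + c₁ * y 1 ^ 2 + c₂ * y 2 ^ 2 + c₃ * y 3 ^ 2 = 1 → ‖y 0 - 1‖ * Q ≤ C₁ →
    (∀ i, i ≠ 0 → ‖y i‖ * Q ≤ C₁) → ‖y 0 - 1‖ * Q ^ 2 ≤ C

/-- **NBF** (120).  Entries of the matrix and coordinates bound each other (model `B_NBG`, it uses the lemmas `NBD_C NBD_fwd NBD_bwd` of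
`Pool/Agent/Work/MP_972ac7_P/B_NBD.lean`). -/
def Stmt_NBF : Prop :=
  ∀ (F : Type) [Field F] (k : Type) [NormedField k] (e : F →+* k) (a b : F) (x y : k),
    a ≠ 0 → b ≠ 0 → (2 : k) ≠ 0 → x ^ 2 - e a * y ^ 2 = e b → ∃ C : ℝ, 1 ≤ C ∧
    (∀ (z : ℍ[F, a, b]) (c : ℝ), (∀ j, ‖e (co4 z j)‖ ≤ c) → mnm (mq e x y z) ≤ C * c) ∧
    ∀ (z : ℍ[F, a, b]) (c : ℝ), mnm (mq e x y z) ≤ c → ∀ j, ‖e (co4 z j)‖ ≤ C * c

/-! ### Arithmetic -/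

/-- **PFB** (250), uses SCG.  The product formula (inequality).  Let `Λ = ∏ p, ‖e p x‖ < 1`, `x ≠ 0`.  (1) There is `r > 0` such that `y ∈ O` with
all `‖e p y‖ ≤ r` is `0` (`fin 1`: minimum over the nonzero elements of the maximum over `p`; `r ≤ 1`).  (2) `n : ℕ`, `B` with `‖e p (x ^ n)‖ B ≥ r` for all `p`; `β, Y` of `many`.
The map `y ↦ x ^ n y` is injective from `Y` to the elements of `O` with `‖e p z‖ ≤ γ p := ‖e p (x ^ n)‖ β p`, and by (1) and SCG (`D = γ p`, `r`) the classes at all `p` are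
an injective map on these: `c ∏ β ≤ ∏ (C γ p / r) = C' Λ ^ n ∏ β`.  So `c ≤ C' Λ ^ n` for all `n`.  (If `P` is empty there is nothing to prove.) -/
def Stmt_PFB : Prop :=
  ∀ (F : Type) [Field F] (P : Type) [Fintype P] (K : P → Type) [∀ p, NormedField (K p)]
    (A : Ar F P K), ∀ x ∈ A.O, x ≠ 0 → 1 ≤ ∏ p, ‖A.e p x‖

/-- **BXF** (200), uses SCG PFB.  Elements of `O` in a box (model `B_BXG`).  Take one `p₀`; for different elements `1 ≤ ‖z - z'‖_{p₀} Q`, `Q` = the product of the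
other `β p`.  If `β p₀ * Q < 1` there is at most one element.  Otherwise the images in `K p₀` have mutual distance at least `s = 1/Q` and lie in a ball of
radius `β p₀ ≥ s`: SCG. -/
def Stmt_BXF : Prop :=
  ∀ (F : Type) [Field F] (P : Type) [Fintype P] [Nonempty P] (K : P → Type)
    [∀ p, NormedField (K p)] (A : Ar F P K), ∃ C : ℝ, 1 ≤ C ∧
    ∀ (β : P → ℝ) (Z : Set F), (∀ p, 0 ≤ β p) → (∀ z ∈ Z, z ∈ A.O) →
      (∀ z ∈ Z, ∀ z' ∈ Z, ∀ p, ‖A.e p (z - z')‖ ≤ β p) →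
      Z.Finite ∧ (Nat.card Z : ℝ) ≤ 1 + C * ∏ p, β p

/-- **COF** (300), uses PFB.  Points on a conic (model `B_COG`).  Three different points of `Z` are not collinear over `F` (restricted to the line
`p + t (p' - p)` the equation is of degree 2 with leading coefficient `c₁ x² + c₂ y² ≠ 0` and roots `0, 1`), so the determinant `Δ` is a
nonzero element of `O`; `‖Δ‖_p ≤ (β p) ^ 2` for `p ≠ p₀`, and for three points in one cell `‖Δ‖_{p₀} κ³ ≤ C (β p₀)²`: `κ³ ≤ C V²`, `V = ∏ p, β p`.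
With `κ = 1 + (2 C V²)^(1/3)` there are at most 2 points in each cell. -/
def Stmt_COF : Prop :=
  ∀ (F : Type) [Field F] (P : Type) [Fintype P] (K : P → Type) [∀ p, NormedField (K p)]
    (A : Ar F P K) (p₀ : P) (c₁ c₂ : F), c₁ ∈ A.O → c₂ ∈ A.O →
    CellF (K p₀) (A.e p₀ c₁) (A.e p₀ c₂) →
    (∀ x y : F, c₁ * x ^ 2 + c₂ * y ^ 2 = 0 → x = 0 ∧ y = 0) →
    ∃ C : ℝ, 0 < C ∧ ∀ (μ : F) (β : P → ℝ), (∀ p, 0 < β p) → ∀ Z : Set (F × F),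
      (∀ z ∈ Z, z.1 ∈ A.O ∧ z.2 ∈ A.O ∧ c₁ * z.1 ^ 2 + c₂ * z.2 ^ 2 = μ ∧
        ∀ p, ‖A.e p z.1‖ ≤ β p ∧ ‖A.e p z.2‖ ≤ β p) →
      Z.Finite ∧ (Nat.card Z : ℝ) ≤ C * (1 + (∏ p, β p) ^ (2 / 3 : ℝ))

/-- **CNF** (300), uses PFB BXF COF.  The count (model `B_CNG`).  If `∏ β₁ < 1` then `y 1 = y 2 = y 3 = 0` (PFB), `y 0 = ± 1`.  Otherwise
`Y/Q ≥ 1/C₀`.  `y 0`: differences in the box `β₂` (BXF, `A.um`): at most `1 + C Y/Q²`; `y 3`: at most `1 + C Y/Q`; for given `y 0, y 3`: COF for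
`(y 1, y 2)`, `μ = 1 - y₀² - c₃ y₃²`: at most `C (1 + (Y/Q)^(2/3))`. -/
def Stmt_CNF : Prop :=
  ∀ (F : Type) [Field F] (P : Type) [Fintype P] (K : P → Type) [∀ p, NormedField (K p)]
    (A : Ar F P K) (p₀ : P) (c₁ c₂ c₃ : F), c₁ ∈ A.O → c₂ ∈ A.O → c₃ ∈ A.O →
    CellF (K p₀) (A.e p₀ c₁) (A.e p₀ c₂) →
    (∀ x y : F, c₁ * x ^ 2 + c₂ * y ^ 2 = 0 → x = 0 ∧ y = 0) →
    ∀ C₀ : ℝ, 1 ≤ C₀ → ∃ C : ℝ, 0 < C ∧ ∀ (β₁ β₂ : P → ℝ) (Q Y : ℝ),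
      (∀ p, 0 < β₁ p) → (∀ p, 0 < β₂ p) → 1 ≤ Q → 1 ≤ Y →
      (∏ p, β₁ p) * Q ≤ C₀ * Y → (∏ p, β₂ p) * Q ^ 2 ≤ C₀ * Y → ∀ Z : Set (Fin 4 → F),
      (∀ y ∈ Z, (∀ j, y j ∈ A.O) ∧
        y 0 ^ 2 + c₁ * y 1 ^ 2 + c₂ * y 2 ^ 2 + c₃ * y 3 ^ 2 = 1 ∧
        (∀ p, ‖A.e p (y 0 - 1)‖ ≤ β₂ p) ∧ ∀ j, j ≠ 0 → ∀ p, ‖A.e p (y j)‖ ≤ β₁ p) →
      Z.Finite ∧ (Nat.card Z : ℝ) ≤ C * (1 + (Y / Q) ^ (5 / 3 : ℝ) * (1 + Y / Q ^ 2))

/-- **RSF** (200), uses BXF.  `O / δ O` is finite.  If `r_1, ..., r_M` in `O` are pairwise not congruent: `β, Y` of `many` with `β p ≥ 1` and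
`‖e p δ‖ β p ≥ ‖e p (r_i)‖`; the elements `r_i + δ y`, `y ∈ Y`, are `M * card Y` different elements of `O` with `‖e p ·‖ ≤ ‖e p δ‖ β p`, so
`M c ∏ β ≤ 1 + C ∏ ‖e p δ‖ ∏ β` (BXF, `A.um`) and `M` is bounded. -/
def Stmt_RSF : Prop :=
  ∀ (F : Type) [Field F] (P : Type) [Fintype P] [Nonempty P] (K : P → Type)
    [∀ p, NormedField (K p)] (A : Ar F P K), ∀ δ ∈ A.O, δ ≠ 0 →
    ∃ (N : ℕ) (cl : F → Fin N), ∀ x ∈ A.O, ∀ y ∈ A.O, cl x = cl y → ∃ z ∈ A.O, x - y = δ * z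

/-! ### Quaternions -/

/-- **LBF** (250), uses CVF NBF.  Local bounds of the coordinates (model `B_LBG`).  `mt u z = g⁻¹ (g z g⁻¹) g`, `mt v (z - 1)` = the same for
`- 1` (`mnm_mul_le2`), NBF; `nrq z = 1`; CVF for the factor `Q²`; `D.nsp` at the places which are not split. -/
def Stmt_LBF : Prop :=
  ∀ (F : Type) [Field F] (P : Type) [Fintype P] (K : P → Type) [∀ p, NormedField (K p)]
    (ι : Type) [Finite ι] (D : Qd F P K ι) (W v : ι), W ≠ v → ∀ R : ℝ, ∃ C : ℝ, 1 ≤ C ∧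
    ∀ g : GG D.k, (∀ i, nm (g i) ≤ R) → ∀ Q Y : ℝ, 1 ≤ Q → 1 ≤ Y → ∀ z ∈ D.G,
      dnm ((g * D.Th z * g⁻¹ : GG D.k) v) * Q ≤ 1 →
      nm ((g * D.Th z * g⁻¹ : GG D.k) W) ≤ Y →
      (∀ u, u ≠ v → u ≠ W → nm ((g * D.Th z * g⁻¹ : GG D.k) u) ≤ R) →
      ‖D.e (D.pl v) (co4 z.1 0 - 1)‖ * Q ^ 2 ≤ C ∧
      (∀ j, j ≠ 0 → ‖D.e (D.pl v) (co4 z.1 j)‖ * Q ≤ C) ∧
      (∀ j, ‖D.e (D.pl W) (co4 z.1 j)‖ ≤ C * Y) ∧
      ∀ p, p ≠ D.pl v → p ≠ D.pl W → ∀ j, ‖D.e p (co4 z.1 j)‖ ≤ C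

/-- **CTF** (300), uses CEF CNF LBF.  COUNT for `D.Γ` (model `B_CTQ`).  `a, b ≠ 0` (`D.dv`); `p₀ = D.pl W`, `c₁ = -a`, `c₂ = -b`, `c₃ = ab`; `c₁ x² + c₂ y² = 0` only for `x = y = 0` by `D.dv`
for the quaternion `⟨0, x, y, 0⟩`.  `β₁ p` = `C/Q` at `pl v`, `C Y` at `pl W`, `C` at the other places; `β₂` = the same (maximum with 1 at the places different from `pl v`: `‖y₀ - 1‖ ≤ max ‖y₀‖ 1`)
with `C/Q²` at `pl v`.  `γ = Th z ↦ co4 z` is injective. -/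
def Stmt_CTF : Prop :=
  ∀ (F : Type) [Field F] (P : Type) [Fintype P] (K : P → Type) [∀ p, NormedField (K p)]
    (ι : Type) [Finite ι] (D : Qd F P K ι) (W v : ι), W ≠ v → ∀ R : ℝ, ∃ C : ℝ, 0 < C ∧
    ∀ g : GG D.k, (∀ i, nm (g i) ≤ R) → ∀ Q Y : ℝ, 1 ≤ Q → 1 ≤ Y →
    (cs D.Lk D.Γ W v R g Q Y).Finite ∧ (Nat.card (cs D.Lk D.Γ W v R g Q Y) : ℝ) ≤
      C * (1 + (Y / Q) ^ (5 / 3 : ℝ) * (1 + Y / Q ^ 2))

/-- **CLF** (350), uses SCG NBF.  A short vector (model `B_CLG`; the hypothesis `Pool.PQ.Stmt_PGG` is the proved block `PGG` of Q, local pigeonhole).  `C₀` = the constant of NBF for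
all `i`, `C₁` large (depending on `D` only), `g` given.  `β, Y` of `many` with `B` so large that PGG applies at every `i` with its `D = C₀ * β (pl i)` and its `β = C₁`, and `C₁ ≤ β p` for all `p`.  For the `(card Y) ^ 4`
quaternions with coordinates in `Y`: the classes of the matrices `D.mt i` at all `i`, the classes (SCG, `D = β p`, `r = C₁`) of the four coordinates at the other `p`.  Number of the classes at most
`C* (∏ p, β p / C₁) ^ 4`, less than `(c ∏ p, β p) ^ 4 ≤ (card Y) ^ 4` if `C₁` is large (there is at least one `p`).  `x` = the difference of two of them in the same class. -/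
def Stmt_CLF : Prop :=
  Pool.PQ.Stmt_PGG → ∀ (F : Type) [Field F] (P : Type) [Fintype P] [Nonempty P] (K : P → Type)
    [∀ p, NormedField (K p)] (ι : Type) [Finite ι] (D : Qd F P K ι), ∃ C : ℝ, 1 ≤ C ∧
    ∀ g : GG D.k, ∃ x : ℍ[F, D.a, D.b], x ≠ 0 ∧ (∀ j, co4 x j ∈ D.O) ∧
      (∀ i, mnm ((g i : Matrix (Fin 2) (Fin 2) (D.k i)) * D.mt i x) ≤ C) ∧
      ∀ p, (∀ i, D.pl i ≠ p) → ∀ j, ‖D.e p (co4 x j)‖ ≤ C

/-- **CKF** (350), uses CLF RSF.  Cocompactness (model `B_CKG`).  `δ = nrq x ≠ 0` (`D.dv`), `δ ∈ O`, `D.e (pl i) δ = det (g i * mt i x)`, and `δ` is bounded at the other places: `δ` is in a finite set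
(`D.fin`).  Data of `g`: `δ` and the classes (RSF) of the coordinates of `x` modulo `δ`.  `g₀, x₀` a representative with the same data as `g, x`: `z = x₀ * star x / δ`: `nrq z = 1`,
`z = 1 + (x₀ - x) star x / δ` has coordinates in `O`, `z x = x₀`, `M₀ = g₀ mt x₀`, `M = g mt x`: `g₀ Th z = κ g`, `κ = M₀ M⁻¹ = M₀ adj M / δ` bounded; so
`g (Th z)⁻¹ = κ⁻¹ g₀` is bounded. -/
def Stmt_CKF : Prop :=
  Pool.PQ.Stmt_PGG → ∀ (F : Type) [Field F] (P : Type) [Fintype P] [Nonempty P] (K : P → Type)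
    [∀ p, NormedField (K p)] (ι : Type) [Finite ι] (D : Qd F P K ι),
    ∃ R : ℝ, ∀ g : GG D.k, ∃ γ ∈ D.Γ, ∀ i, nm ((g * γ : GG D.k) i) ≤ R

/-- **INF** (120).  `D.Th` is injective if `ι` is not empty (`mq` determines the quaternion as `2, a, b ≠ 0`: see `Pool/Agent/Work/MP_972ac7_Q/B_INQ.lean` and
`Pool/Agent/Work/MP_972ac7_P/B_INJ.lean`). -/
def Stmt_INF : Prop :=
  ∀ (F : Type) [Field F] (P : Type) [Fintype P] (K : P → Type) [∀ p, NormedField (K p)]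
    (ι : Type) (D : Qd F P K ι), Nonempty ι → Function.Injective D.Th ∧ Nonempty (D.Γ ≃* D.G)

/-- **ENF** (120), uses CTF CKF INF.  `LatG D.Lk D.Γ` from CKF and CTF, then FNQ (a proved block of Q, here a hypothesis) and INF (model: `ENQ_gap` in
`Pool/Agent/Work/MP_972ac7_Q/B_ENQ.lean`). -/
def Stmt_ENF : Prop :=
  Pool.PQ.Stmt_PGG → Pool.PQ.Stmt_FNQ → ∀ (F : Type) [Field F] (P : Type) [Fintype P] (K : P → Type) [∀ p, NormedField (K p)]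
    [∀ p, ProperSpace (K p)] (ι : Type) [Finite ι] (D : Qd F P K ι), Nontrivial ι → FTGap D.G

/-! ### Function fields and the end -/

/-- **FFA** (helper16, with sub-blocks).  The arithmetic data of a function field. -/
def Stmt_FFA : Prop :=
  ∀ (Fq : Type) [Field Fq] [Finite Fq] (F : Type) [Field F] [Algebra (RatFunc Fq) F]
    [Algebra Fq[X] F] [IsScalarTower Fq[X] (RatFunc Fq) F] [FunctionField Fq F]
    [Algebra.IsSeparable (RatFunc Fq) F], (2 : Fq) ≠ 0 →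
    ∃ (_ : Fintype (Pinf Fq F)) (A : Ar F (Pinf Fq F) (KW F)), A.O = Oi Fq F ∧
      (∀ w x, A.e w x = em F w x) ∧
      ∀ w : Pinf Fq F, ProperSpace (KW F w) ∧ Nonempty (LocF (KW F w)) ∧ (2 : KW F w) ≠ 0

/-- the quaternion algebra `(a, b)` splits over the completion at `w` -/
def SplF {R : Type} [CommRing R] [IsDedekindDomain R] {F : Type} [Field F] [Algebra R F]
    [IsFractionRing R F] (a b : F) (w : HeightOneSpectrum R) : Prop :=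
  ∃ x y : w.adicCompletion F, x ^ 2 - algebraMap F (w.adicCompletion F) a * y ^ 2 =
    algebraMap F (w.adicCompletion F) b

/-- **QDF** (200), uses FFA.  The quaternion data: `ι = {w : Pinf Fq F // SplF a b w}`; `nsp` from `Pool.PL.p_ANI` (file `Pool/Agent/Work/MP_972ac7_P/B_ANI.lean`, no hypotheses), as in
`ENQ_nsp`. -/
def Stmt_QDF : Prop :=
  ∀ (Fq : Type) [Field Fq] [Finite Fq] (F : Type) [Field F] [Algebra (RatFunc Fq) F]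
    [Algebra Fq[X] F] [IsScalarTower Fq[X] (RatFunc Fq) F] [FunctionField Fq F]
    [Algebra.IsSeparable (RatFunc Fq) F], (2 : Fq) ≠ 0 →
    ∀ a b : F, a ∈ Oi Fq F → b ∈ Oi Fq F → (∀ z : ℍ[F, a, b], nrq z = 0 → z = 0) →
    (∀ w : Pinf Fq F, ProperSpace (KW F w)) ∧
    ∃ (_ : Fintype (Pinf Fq F)) (D : Qd F (Pinf Fq F) (KW F) {w : Pinf Fq F // SplF a b w}),
      D.O = Oi Fq F ∧ D.a = a ∧ D.b = b

/-- **ISF** (150).  The norm one group of the quaternions over the ring `Oi Fq F` (as a subalgebra) is isomorphic with `GOs`. -/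
def Stmt_ISF : Prop :=
  ∀ (Fq : Type) [Field Fq] (F : Type) [Field F] [Algebra Fq[X] F]
    (a b : FunctionField.ringOfIntegers Fq F) (ha : (a : F) ∈ Oi Fq F) (hb : (b : F) ∈ Oi Fq F),
    Nonempty (unitary ℍ[FunctionField.ringOfIntegers Fq F, a, b] ≃* GOs (Oi Fq F) ha hb)

/-- **GPF** (120), uses ENF QDF ISF.  The end. -/
def Stmt_GPF : Prop :=
  Pool.PQ.Stmt_PGG → Pool.PQ.Stmt_FNQ → ∀ (Fq : Type) [Field Fq] [Finite Fq] (F : Type) [Field F] [Algebra (RatFunc Fq) F]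
    [Algebra Fq[X] F] [IsScalarTower Fq[X] (RatFunc Fq) F] [FunctionField Fq F]
    [Algebra.IsSeparable (RatFunc Fq) F], (2 : Fq) ≠ 0 →
    ∀ a b : FunctionField.ringOfIntegers Fq F,
    (∀ z : ℍ[F, (a : F), (b : F)], nrq z = 0 → z = 0) →
    (∃ p q : Pinf Fq F, p ≠ q ∧ SplF (a : F) (b : F) p ∧ SplF (a : F) (b : F) q) →
    FTGap (unitary ℍ[FunctionField.ringOfIntegers Fq F, a, b])

end Pool.FQ
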