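import Pool.Agent.Work.MP_972ac7_F.Interface
import Pool.Agent.Work.MP_972ac7_F.FA_Si

set_option autoImplicit false

/-! # THEOREM FQ (MP_972ac7_al): two more blocks (places as valuation subrings)

Files `B_X.lean` in `Pool/Agent/Work/MP_972ac7_F`, `import Pool.Agent.Work.MP_972ac7_F.Interface2`,
namespace `Pool.FQ`, `theorem p_X : Stmt_X`, auxiliary lemmas with the prefix `X_`.  Useful files: `FA_Loc.lean`, `FA_Ri.lean`,
`FA_Si.lean` (helper16) of the same folder. -/

open MeasureTheory IsDedekindDomain Polynomial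
open scoped Quaternion ENNReal NNReal WithZero

noncomputable section

namespace Pool.FQ

open Pool.PQ Pool.PL Pool.TFD Pool.TC

/-- **VWF** (250).  A valuation subring `V` of `F` with `X ∉ V` is the valuation ring of a place at infinity.  (1) `X⁻¹ ∈ V` is not a unit of `V`.  The image of `Ri Fq` is in
`V`: nonzero constants are roots of unity (`Fq` is finite), so units of `V`; an element of `Ri` is `f / g`, `deg f ≤ deg g = n`, `f / X ^ n` and `g / X ^ n` are polynomials in `X⁻¹`,
and the second is a unit of `V` (nonzero constant + non-unit).  (2) `V` is integrally closed, so it contains the image of `Si Fq F`.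
(3) `P` = the elements of `Si` which are not units of `V` is a prime ideal and contains `X⁻¹`: the place `w`.  (4) If the `w`-adic valuation of `x` is at most 1 then
`x = s⁻¹ y`, `y, s ∈ Si`, `s ∉ P`, so `x ∈ V`.  If it is more than 1 then `x⁻¹ = s⁻¹ y` with `y ∈ P`, so `x⁻¹` is not a unit of `V` and `x ∉ V`.  (`norm_em`, `norm_KW` of `FA_Loc.lean`.) -/
def Stmt_VWF : Prop :=
  ∀ (Fq : Type) [Field Fq] [Finite Fq] (F : Type) [Field F] [Algebra (RatFunc Fq) F]
    [FunctionField Fq F] [Algebra.IsSeparable (RatFunc Fq) F] (V : ValuationSubring F),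
    tX Fq F ∉ V → ∃ w : Pinf Fq F, ∀ x : F, x ∈ V ↔ ‖em F w x‖ ≤ 1

/-- **HNF** (120).  Hensel.  `c = (x² - a y² - b) / b`, `‖c‖ < 1`: `z ↦ (c - z²) / 2` is a contraction of the ball `‖z‖ ≤ ‖c‖`; the fixed point has
`(1 + z)² = 1 + c`, `1 + z ≠ 0`; divide `x, y` by `1 + z`. -/
def Stmt_HNF : Prop :=
  ∀ (k : Type) [NormedField k] [IsUltrametricDist k] [CompleteSpace k], ‖(2 : k)‖ = 1 →
    ∀ a b x y : k, ‖x ^ 2 - a * y ^ 2 - b‖ < ‖b‖ → ∃ x' y' : k, x' ^ 2 - a * y' ^ 2 = b

end Pool.FQ
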